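import Pool.Agent.MDE.Defs

/-!
# MDE.IDX: the ideal `(X 0 ^ m, X 1 ^ m, X 2 ^ m)`

Independent of the other modules (only `Defs`).
* `ideal_of_coeff`: split the monomials `α` of `P`: those with `α 0 ≥ m` go to `ψ 0`, of the others those with
  `α 1 ≥ m` go to `ψ 1`, the others have `α 2 ≥ m` and go to `ψ 2` (`divMonomial` / `modMonomial` by
  `Finsupp.single i m`).
* `ideal_lt`: if the degree is `< m` all exponents are `< m`.
* `coeff_of_ideal`: no monomial of `X i ^ m * ψ` has all exponents `< m`.
* `koszul`: compare coefficients: for `|α| = m`, the coefficient of `X 0 ^ m * X^α` gives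
  `coeff α (ψ 0) = 0` unless `α = m e_1` or `α = m e_2`; similarly for `ψ 1`, `ψ 2`; the coefficients of
  `X 0 ^ m * X 1 ^ m` etc. give `coeff (m e_1) (ψ 0) + coeff (m e_0) (ψ 1) = 0` etc.
  Put `η 1 = coeff (m e_2) (ψ 0)`, `η 2 = - coeff (m e_1) (ψ 0)`, `η 0 = - coeff (m e_2) (ψ 1)`.
* `mul_mem`: if all monomials of `P` have an exponent `≥ m` so have those of `Q * P`.
-/

set_option autoImplicit false

namespace MDE

open MvPolynomial

variable {F : Type*} [Field F]

theorem ideal_of_coeff {P : MvPolynomial (Fin 3) F} {m d : ℕ} (hP : P.IsHomogeneous (m + d))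
    (h : ∀ α : Fin 3 →₀ ℕ, (∀ i, α i < m) → coeff α P = 0) :
    ∃ ψ : Fin 3 → MvPolynomial (Fin 3) F, (∀ i, (ψ i).IsHomogeneous d) ∧
      P = ∑ i, X i ^ m * ψ i := by
  classical
  set f : (Fin 3 →₀ ℕ) → Fin 3 := fun α => if h : ∃ i, m ≤ α i then h.choose else 0 with hf
  have hf1 : ∀ α ∈ P.support, m ≤ α (f α) := by
    intro α hα
    have hex : ∃ i, m ≤ α i := by
      by_contra hne
      push Not at hne
      exact (mem_support_iff.1 hα) (h α hne)
    simp only [hf, dif_pos hex]
    exact hex.choose_spec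
  refine ⟨fun i => ∑ α ∈ P.support with f α = i,
    monomial (α - Finsupp.single i m) (coeff α P), fun i => ?_, ?_⟩
  · refine IsHomogeneous.sum _ _ _ fun α hα => ?_
    rw [Finset.mem_filter] at hα
    refine isHomogeneous_monomial _ ?_
    have h1 : m ≤ α i := hα.2 ▸ hf1 α hα.1
    have h2 : α = (α - Finsupp.single i m) + Finsupp.single i m := by
      ext j
      by_cases hj : j = i
      · subst hj
        simp
        omega
      · simp [Ne.symm hj]
    have h3 : Finsupp.degree α = m + d := by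
      have := hP (mem_support_iff.1 hα.1)
      exact (DFunLike.congr_fun Finsupp.degree_eq_weight_one α).trans this
    have h4 : Finsupp.degree α
        = Finsupp.degree (α - Finsupp.single i m) + Finsupp.degree (Finsupp.single i m) := by
      rw [← map_add, ← h2]
    rw [Finsupp.degree_single] at h4
    omega
  · have h1 : ∀ i : Fin 3, X i ^ m * ∑ α ∈ P.support with f α = i,
        monomial (α - Finsupp.single i m) (coeff α P)
        = ∑ α ∈ P.support with f α = i, monomial α (coeff α P) := by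
      intro i
      rw [Finset.mul_sum]
      refine Finset.sum_congr rfl fun α hα => ?_
      rw [Finset.mem_filter] at hα
      have h1 : m ≤ α i := hα.2 ▸ hf1 α hα.1
      have h5 : Finsupp.single i m + (α - Finsupp.single i m) = α := by
        ext j
        by_cases hj : j = i
        · subst hj
          simp
          omega
        · simp [Ne.symm hj]
      rw [X_pow_eq_monomial, monomial_mul, one_mul, h5]
    rw [Finset.sum_congr rfl fun i _ => h1 i, Finset.sum_fiberwise]
    exact P.as_sum

theorem ideal_lt {P : MvPolynomial (Fin 3) F} {m d : ℕ} (hP : P.IsHomogeneous d) (hd : d < m)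
    (h : ∀ α : Fin 3 →₀ ℕ, (∀ i, α i < m) → coeff α P = 0) : P = 0 := by
  ext α
  rw [coeff_zero]
  by_contra hne
  have h1 : Finsupp.degree α = d := by
    have := hP hne
    exact (DFunLike.congr_fun Finsupp.degree_eq_weight_one α).trans this
  exact hne (h α fun i => lt_of_le_of_lt (Finsupp.le_degree i α) (h1 ▸ hd))

theorem coeff_of_ideal (m : ℕ) (ψ : Fin 3 → MvPolynomial (Fin 3) F) (α : Fin 3 →₀ ℕ)
    (h : ∀ i, α i < m) : coeff α (∑ i, X i ^ m * ψ i) = 0 := by
  rw [coeff_sum]
  refine Finset.sum_eq_zero fun i _ => ?_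
  rw [X_pow_eq_monomial, coeff_monomial_mul', if_neg]
  intro hle
  have h1 := hle i
  rw [Finsupp.single_eq_same] at h1
  exact absurd (h i) (not_lt.2 h1)

theorem mul_mem {P : MvPolynomial (Fin 3) F} {m : ℕ}
    (h : ∀ α : Fin 3 →₀ ℕ, (∀ i, α i < m) → coeff α P = 0) (Q : MvPolynomial (Fin 3) F)
    (α : Fin 3 →₀ ℕ) (hα : ∀ i, α i < m) : coeff α (Q * P) = 0 := by
  classical
  rw [coeff_mul]
  refine Finset.sum_eq_zero fun x hx => ?_
  rw [Finset.HasAntidiagonal.mem_antidiagonal] at hx
  rw [h x.2 fun i => lt_of_le_of_lt ?_ (hα i), mul_zero]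
  rw [← hx]
  simp

private theorem kz_sum (f : Fin 3 → F) {i j k : Fin 3} (hij : i ≠ j) (hik : i ≠ k) (hjk : j ≠ k) :
    ∑ l, f l = f i + f j + f k := by
  have h : (Finset.univ : Finset (Fin 3)) = {i, j, k} := by
    revert i j k
    decide
  rw [h, Finset.sum_insert (by simp [hij, hik]), Finset.sum_insert (by simp [hjk]),
    Finset.sum_singleton, add_assoc]

private theorem kz_coeff {m : ℕ} {ψ : Fin 3 → MvPolynomial (Fin 3) F}
    (h0 : ∑ i, X i ^ m * ψ i = 0) (i j k : Fin 3) (hij : i ≠ j) (hik : i ≠ k) (hjk : j ≠ k)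
    (α : Fin 3 →₀ ℕ) : coeff α (ψ i)
      + (if m ≤ α j then coeff (α + Finsupp.single i m - Finsupp.single j m) (ψ j) else 0)
      + (if m ≤ α k then coeff (α + Finsupp.single i m - Finsupp.single k m) (ψ k) else 0)
      = 0 := by
  have h1 := congrArg (coeff (α + Finsupp.single i m)) h0
  rw [coeff_sum, kz_sum _ hij hik hjk, coeff_zero] at h1
  have h2 : ∀ l, l ≠ i → coeff (α + Finsupp.single i m) (X l ^ m * ψ l)
      = if m ≤ α l then coeff (α + Finsupp.single i m - Finsupp.single l m) (ψ l) else 0 := by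
    intro l hl
    rw [X_pow_eq_monomial, coeff_monomial_mul', one_mul]
    have h3 : Finsupp.single l m ≤ α + Finsupp.single i m ↔ m ≤ α l := by
      constructor
      · intro hle
        have := hle l
        simpa [Finsupp.single_apply, Ne.symm hl] using this
      · intro hle n
        by_cases hn : n = l
        · subst hn
          simp
          omega
        · simp [Finsupp.single_apply, Ne.symm hn]
    simp only [h3]
  have h4 : coeff (α + Finsupp.single i m) (X i ^ m * ψ i) = coeff α (ψ i) := by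
    rw [X_pow_eq_monomial, add_comm, coeff_monomial_mul, one_mul]
  rw [h2 j (Ne.symm hij), h2 k (Ne.symm hik), h4] at h1
  exact h1

private theorem kz_single {α : Fin 3 →₀ ℕ} {m : ℕ} (hα : Finsupp.degree α = m) {j : Fin 3}
    (hj : m ≤ α j) : α = Finsupp.single j m := by
  have h1 : ∀ l, l ≠ j → α l = 0 := by
    intro l hl
    have h2 : α j + α l ≤ Finsupp.degree α := by
      rw [Finsupp.degree_eq_sum, ← Finset.sum_pair (Ne.symm hl)]
      exact Finset.sum_le_univ_sum_of_nonneg (fun _ => Nat.zero_le _)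
    omega
  have h2 : α j ≤ m := hα ▸ Finsupp.le_degree j α
  ext l
  by_cases hl : l = j
  · subst hl
    simp
    omega
  · rw [h1 l hl]
    simp [Finsupp.single_apply, Ne.symm hl]

private theorem kz_form {m : ℕ} (hm : 0 < m) {ψ : Fin 3 → MvPolynomial (Fin 3) F}
    (h : ∀ i, (ψ i).IsHomogeneous m) (h0 : ∑ i, X i ^ m * ψ i = 0)
    (i j k : Fin 3) (hij : i ≠ j) (hik : i ≠ k) (hjk : j ≠ k) :
    ψ i = C (coeff (Finsupp.single j m) (ψ i)) * X j ^ m
      + C (coeff (Finsupp.single k m) (ψ i)) * X k ^ m := by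
  have hne : Finsupp.single j m ≠ Finsupp.single k m := by
    intro he
    have := DFunLike.congr_fun he j
    simp [Finsupp.single_apply, Ne.symm hjk] at this
    omega
  ext α
  rw [coeff_add, coeff_C_mul, coeff_C_mul, coeff_X_pow, coeff_X_pow]
  by_cases hj : Finsupp.single j m = α
  · subst hj
    rw [if_pos rfl, if_neg (Ne.symm hne)]
    ring
  by_cases hk : Finsupp.single k m = α
  · subst hk
    rw [if_pos rfl, if_neg hne]
    ring
  rw [if_neg hj, if_neg hk]
  by_contra hne0
  have hne1 : coeff α (ψ i) ≠ 0 := by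
    intro he
    apply hne0
    rw [he]
    ring
  have h1 : Finsupp.degree α = m := by
    have := (h i) hne1
    exact (DFunLike.congr_fun Finsupp.degree_eq_weight_one α).trans this
  have h2 := kz_coeff h0 i j k hij hik hjk α
  rw [if_neg (fun hh => hj (kz_single h1 hh).symm), if_neg (fun hh => hk (kz_single h1 hh).symm),
    add_zero, add_zero] at h2
  exact hne1 h2

private theorem kz_anti {m : ℕ} (hm : 0 < m) {ψ : Fin 3 → MvPolynomial (Fin 3) F}
    (h0 : ∑ i, X i ^ m * ψ i = 0)
    (i j k : Fin 3) (hij : i ≠ j) (hik : i ≠ k) (hjk : j ≠ k) :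
    coeff (Finsupp.single j m) (ψ i) = - coeff (Finsupp.single i m) (ψ j) := by
  have h2 := kz_coeff h0 i j k hij hik hjk (Finsupp.single j m)
  have h3 : Finsupp.single j m k = 0 := by simp [Finsupp.single_apply, hjk]
  rw [if_pos (by simp), if_neg (by rw [h3]; omega), add_zero, add_tsub_cancel_left] at h2
  exact eq_neg_of_add_eq_zero_left h2

theorem koszul {m : ℕ} (hm : 0 < m) {ψ : Fin 3 → MvPolynomial (Fin 3) F}
    (h : ∀ i, (ψ i).IsHomogeneous m) (h0 : ∑ i, X i ^ m * ψ i = 0) :
    ∃ η : Fin 3 → F, ψ 0 = C (η 1) * X 2 ^ m - C (η 2) * X 1 ^ m ∧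
      ψ 1 = C (η 2) * X 0 ^ m - C (η 0) * X 2 ^ m ∧
      ψ 2 = C (η 0) * X 1 ^ m - C (η 1) * X 0 ^ m := by
  have a01 := kz_anti hm h0 0 1 2 (by decide) (by decide) (by decide)
  have a02 := kz_anti hm h0 0 2 1 (by decide) (by decide) (by decide)
  have a12 := kz_anti hm h0 1 2 0 (by decide) (by decide) (by decide)
  have f0 := kz_form hm h h0 0 1 2 (by decide) (by decide) (by decide)
  have f1 := kz_form hm h h0 1 0 2 (by decide) (by decide) (by decide)
  have f2 := kz_form hm h h0 2 0 1 (by decide) (by decide) (by decide)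
  refine ⟨![- coeff (Finsupp.single 2 m) (ψ 1), coeff (Finsupp.single 2 m) (ψ 0),
    - coeff (Finsupp.single 1 m) (ψ 0)], ?_, ?_, ?_⟩
  · refine f0.trans ?_
    simp only [Matrix.cons_val, C_neg]
    ring
  · refine f1.trans ?_
    simp only [Matrix.cons_val, a01, C_neg]
    ring
  · refine f2.trans ?_
    simp only [Matrix.cons_val, a02, a12, C_neg]
    ring

end MDE
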