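import Pool.Agent.MDE.GCM
import Pool.Agent.MDE.IDX

/-!
# MDE.CDM: `finrank (CS w m) ≤ 3 + finrank U`

`U` a finite dimensional space of polynomials containing `L p = ∑ j, X j ^ m * p.2 j` for all `p ∈ WS w m`.
1. The map `p ↦ p.1` from `WS w m` has image containing `CS w m` (GCM.exists_psi), so
   `finrank (CS w m) ≤ finrank (WS w m)` once `WS w m` is finite dimensional
   (`Submodule.finrank_mono` and `finrank (map) ≤ finrank`).
2. The linear map `WS w m → U × F^3`, `p ↦ (L p, (coeff (m e_2) (p.2 1), coeff (m e_2) (p.2 0), coeff (m e_1) (p.2 0)))`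
   is injective: if the image is zero then (IDX.koszul) `p.2` is given by some `η` and the three coefficients
   are `- η 0`, `η 1`, `- η 2`, so `η = 0`, `p.2 = 0`; then `c s (w r j)^m + c r (w s j)^m = 0` for all `j` and
   `r ≠ s`; if `c s ≠ 0` then the vectors `(w r j ^ m)`, `(w s j ^ m)` are proportional, so their `cr` vanishes, but it
   is `(cr (w r) (w s))^m ≠ 0` (RES.cr_pow). (For every `s` there is some `r ≠ s` as `#κ ≥ 2`.)
   So `finrank (WS w m) ≤ finrank U + 3`.
-/

set_option autoImplicit false

namespace MDE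

open MvPolynomial

variable {F : Type*} [Field F]

private theorem cdm_zero [CharP F 2] {κ : Type*} [Fintype κ] {w : κ → Fin 3 → F}
    (hw : Arc3 w) {e m : ℕ} (hm : m = 2 ^ e) (hcard : 1 < Fintype.card κ)
    {p : (κ → F) × (Fin 3 → MvPolynomial (Fin 3) F)} (hp : p ∈ WS w m)
    (h0 : ∑ j, X j ^ m * p.2 j = 0) (c1 : coeff (Finsupp.single 2 m) (p.2 1) = 0)
    (c2 : coeff (Finsupp.single 2 m) (p.2 0) = 0)
    (c3 : coeff (Finsupp.single 1 m) (p.2 0) = 0) : p = 0 := by
  classical
  have hmpos : 0 < m := by
    rw [hm]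
    positivity
  have hm0 : m ≠ 0 := hmpos.ne'
  obtain ⟨h1, h2, h3⟩ := hp
  obtain ⟨η, e0, e1, e2⟩ := koszul hmpos h1 h0
  have hX : ∀ i j : Fin 3, coeff (Finsupp.single i m) ((X j : MvPolynomial (Fin 3) F) ^ m)
      = if j = i then 1 else 0 := by
    intro i j
    rw [coeff_X_pow]
    by_cases hij : j = i
    · subst hij
      simp
    · rw [if_neg hij, if_neg]
      intro h
      have := (Finsupp.single_eq_single_iff _ _ _ _).mp h
      rcases this with ⟨h, _⟩ | ⟨h, _⟩
      · exact hij h
      · exact hm0 h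
  rw [e1, coeff_sub, coeff_C_mul, coeff_C_mul, hX, hX, if_neg (by decide), if_pos rfl] at c1
  rw [e0, coeff_sub, coeff_C_mul, coeff_C_mul, hX, hX, if_pos rfl, if_neg (by decide)] at c2
  rw [e0, coeff_sub, coeff_C_mul, coeff_C_mul, hX, hX, if_neg (by decide), if_pos rfl] at c3
  have η0 : η 0 = 0 := by linear_combination - c1
  have η1 : η 1 = 0 := by linear_combination c2
  have η2 : η 2 = 0 := by linear_combination - c3
  have hψ : p.2 = 0 := by
    funext j
    fin_cases j
    · change p.2 0 = 0
      rw [e0, η1, η2]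
      simp
    · change p.2 1 = 0
      rw [e1, η0, η2]
      simp
    · change p.2 2 = 0
      rw [e2, η0, η1]
      simp
  have hc : p.1 = 0 := by
    funext s
    by_contra hs
    change p.1 s ≠ 0 at hs
    obtain ⟨r, hr⟩ := Fintype.exists_ne_of_one_lt_card hcard s
    have h4 : ∀ j, p.1 s * (w r j) ^ m = - (p.1 r * (w s j) ^ m) := by
      intro j
      have := h2 r s hr j
      rw [hψ] at this
      simp only [Pi.zero_apply, map_zero] at this
      linear_combination - this
    have h5 : ∀ i j, (w r i) ^ m * (w s j) ^ m - (w r j) ^ m * (w s i) ^ m = 0 := by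
      intro i j
      have h6 : p.1 s * ((w r i) ^ m * (w s j) ^ m - (w r j) ^ m * (w s i) ^ m) = 0 := by
        linear_combination (w s j) ^ m * h4 i - (w s i) ^ m * h4 j
      exact (mul_eq_zero.mp h6).resolve_left hs
    have h7 := cr_pow e (w r) (w s)
    rw [← hm] at h7
    refine hw.two r s hr ?_
    funext k
    have h8 := congrFun h7 k
    have h9 : cr (fun i => w r i ^ m) (fun i => w s i ^ m) k = 0 := by
      fin_cases k
      · exact h5 1 2
      · exact h5 2 0
      · exact h5 0 1
    rw [h9] at h8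
    exact pow_eq_zero_iff hm0 |>.mp h8.symm
  exact Prod.ext hc hψ

theorem finrank_CS_le [Fintype F] [CharP F 2] {κ : Type*} [Fintype κ] {w : κ → Fin 3 → F}
    (hw : Arc3 w) {e m t : ℕ} (hm : m = 2 ^ e) (hq : Fintype.card F = 2 * m) (hm2 : 2 ≤ m)
    (hN : Fintype.card κ + t = 2 * m + 2) (ht : t + 1 ≤ m)
    (U : Submodule F (MvPolynomial (Fin 3) F)) [FiniteDimensional F U]
    (hU : ∀ p ∈ WS w m, ∑ j, X j ^ m * p.2 j ∈ U) :
    Module.finrank F (CS w m) ≤ 3 + Module.finrank F U := by
  classical
  let L : WS w m →ₗ[F] U :=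
    { toFun := fun p => ⟨∑ j, X j ^ m * p.1.2 j, hU p.1 p.2⟩
      map_add' := by
        intro p q
        apply Subtype.ext
        change ∑ j, X j ^ m * (p.1.2 j + q.1.2 j)
          = (∑ j, X j ^ m * p.1.2 j) + ∑ j, X j ^ m * q.1.2 j
        rw [← Finset.sum_add_distrib]
        exact Finset.sum_congr rfl fun j _ => by ring
      map_smul' := by
        intro a p
        apply Subtype.ext
        change ∑ j, X j ^ m * (a • p.1.2 j) = a • ∑ j, X j ^ m * p.1.2 j
        rw [Finset.smul_sum]
        exact Finset.sum_congr rfl fun j _ => by rw [mul_smul_comm] }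
  let K : WS w m →ₗ[F] (Fin 3 → F) :=
    { toFun := fun p => ![coeff (Finsupp.single 2 m) (p.1.2 1),
        coeff (Finsupp.single 2 m) (p.1.2 0), coeff (Finsupp.single 1 m) (p.1.2 0)]
      map_add' := by
        intro p q
        funext k
        fin_cases k
        · exact coeff_add _ _ _
        · exact coeff_add _ _ _
        · exact coeff_add _ _ _
      map_smul' := by
        intro a p
        funext k
        fin_cases k
        · exact coeff_smul _ _ _
        · exact coeff_smul _ _ _
        · exact coeff_smul _ _ _ }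
  have hinj : Function.Injective (L.prod K) := by
    rw [← LinearMap.ker_eq_bot, LinearMap.ker_eq_bot']
    intro p hp
    have hL : L p = 0 := congrArg Prod.fst hp
    have hK : K p = 0 := congrArg Prod.snd hp
    have hL' : ∑ j, X j ^ m * p.1.2 j = 0 := congrArg Subtype.val hL
    apply Subtype.ext
    refine cdm_zero hw hm (by omega) p.2 hL' ?_ ?_ ?_
    · exact congrFun hK 0
    · exact congrFun hK 1
    · exact congrFun hK 2
  haveI : FiniteDimensional F (WS w m) := Module.Finite.of_injective (L.prod K) hinj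
  have h1 : Module.finrank F (WS w m) ≤ Module.finrank F U + 3 := by
    have := LinearMap.finrank_le_finrank_of_injective hinj
    rwa [Module.finrank_prod, Module.finrank_fin_fun] at this
  let T : WS w m →ₗ[F] (κ → F) := (LinearMap.fst F _ _).comp (WS w m).subtype
  have h2 : CS w m ≤ LinearMap.range T := by
    intro c hc
    obtain ⟨ψ, hψ⟩ := exists_psi hw hm hq hm2 hN ht hc
    exact ⟨⟨(c, ψ), hψ⟩, rfl⟩
  have h3 : Module.finrank F (CS w m) ≤ Module.finrank F (LinearMap.range T) :=
    Submodule.finrank_mono h2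
  have h4 : Module.finrank F (LinearMap.range T) ≤ Module.finrank F (WS w m) :=
    LinearMap.finrank_range_le T
  omega

end MDE
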