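import Pool.Agent.MDS.COA
import Pool.Agent.MDS.COC
import Pool.Agent.MDS.GAL

/-!
# MDE.COE: codes from arcs; the hyperoval; dimension three

Independent of the planar modules (imports only project MDS, which is complete and on main).
* `code_of_arc`: `C` = the range of `y ↦ (y (v i))_i` from `Module.Dual F (Fin k → F)` (or from `Fin k → F` by the dot
  product) to `Fin N → F`. A functional vanishing at `k` of the vectors `v i` is `0` (they are a basis), so the
  map is injective (`k ≤ N`, `finrank C = k`) and a nonzero word has at most `k - 1` zeros, so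
  `hammingNorm ≥ N - (k - 1)`.
* `hyperoval`: `σ : Fin (q + 2) ≃ Option (Option F)`; `some (some a) ↦ ![1, a, a^2]`, `some none ↦ ![0,0,1]`,
  `none ↦ ![0,1,0]`. Characteristic 2: the determinants are `(a-b)(b-c)(c-a)`-products,
  `a - b`, `(a - b)^2 = a^2 - b^2`, `1`. For sets of fewer than three indices: a subset of an independent
  set is independent (`q + 2 ≥ 3`; `LinearIndepOn.mono` and `Finset.exists_superset_card_eq`).
* `no_arc_three`: `q + 3` vectors in `F^3`, any three independent: the last vector `u`; take a linear map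
  `π : F^3 → F^2` with kernel spanned by `u` (`LinearEquiv` of the quotient); the other `q + 2` images are pairwise
  independent (a relation `a π(x) + b π(y) = 0` means `a x + b y ∈ span u`), contradicting `MDS.no_arc_two`.
* `IsArc.comp_emb`: a subfamily of an arc is an arc (`MDS.K1` has `IsArc.comp`).
-/

set_option autoImplicit false

namespace MDE

open Finset

theorem code_of_arc {F : Type*} [Field F] [DecidableEq F] {N k : ℕ} (hkN : k ≤ N)
    (v : Fin N → (Fin k → F)) (hv : MDS.IsArc (F := F) v k) :
    ∃ C : Submodule F (Fin N → F), Module.finrank F C = k ∧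
      ∀ x ∈ C, x ≠ 0 → N - k + 1 ≤ hammingNorm x := by
  classical
  let T : (Fin k → F) →ₗ[F] (Fin N → F) := Matrix.mulVecLin (Matrix.of v)
  have hT : ∀ a i, T a i = v i ⬝ᵥ a := fun a i => rfl
  have key : ∀ (a : Fin k → F) (Z : Finset (Fin N)), (∀ i ∈ Z, T a i = 0) → k ≤ Z.card → a = 0 := by
    intro a Z hZ hk
    obtain ⟨Y, hYZ, hY⟩ := Finset.exists_subset_card_eq hk
    have h1 : LinearIndependent F (fun i : Y => v i) := hv Y hY.le
    have h2 := h1.span_eq_top_of_card_eq_finrank' (by simp [hY])
    have h3 : ∀ x ∈ Submodule.span F (Set.range (fun i : Y => v i)), x ⬝ᵥ a = 0 := by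
      intro x hx
      induction hx using Submodule.span_induction with
      | mem x hx =>
        obtain ⟨i, rfl⟩ := hx
        exact hZ _ (hYZ i.2)
      | zero => exact zero_dotProduct _
      | add x y _ _ hx hy => rw [add_dotProduct, hx, hy, add_zero]
      | smul c x _ hx => rw [smul_dotProduct, hx, smul_zero]
    funext j
    have h4 := h3 (Pi.single j 1) (by rw [h2]; exact Submodule.mem_top)
    rwa [single_one_dotProduct] at h4
  refine ⟨LinearMap.range T, ?_, ?_⟩
  · have hinj : Function.Injective T := by
      rw [← LinearMap.ker_eq_bot, LinearMap.ker_eq_bot']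
      intro a ha
      exact key a Finset.univ (fun i _ => by rw [ha]; rfl) (by simpa using hkN)
    rw [LinearMap.finrank_range_of_inj hinj, Module.finrank_fin_fun]
  · rintro _ ⟨a, rfl⟩ hne
    by_contra hcon
    push Not at hcon
    apply hne
    have h5 : ({i | T a i ≠ 0} : Finset (Fin N)).card = hammingNorm (T a) := rfl
    have h6 := Finset.card_filter_add_card_filter_not (s := (Finset.univ : Finset (Fin N)))
      (fun i => T a i ≠ 0)
    rw [Finset.card_univ, Fintype.card_fin, h5] at h6
    have h7 := key a (Finset.univ.filter fun i => ¬ T a i ≠ 0)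
      (fun i hi => not_not.1 (Finset.mem_filter.1 hi).2) (by omega)
    rw [h7, map_zero]

/-- The points of the hyperoval. -/
private def COE_u (F : Type*) [Field F] : Option (Option F) → (Fin 3 → F)
  | some (some a) => ![1, a, a ^ 2]
  | some none => ![0, 0, 1]
  | none => ![0, 1, 0]

private theorem COE_det {F : Type*} [Field F] [CharP F 2] (x y z : Option (Option F)) (hxy : x ≠ y)
    (hxz : x ≠ z) (hyz : y ≠ z) :
    Matrix.det (Matrix.of ![COE_u F x, COE_u F y, COE_u F z]) ≠ 0 := by
  have h2 : (2 : F) = 0 := CharTwo.two_eq_zero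
  have hsq : ∀ a b : F, a ≠ b → a ^ 2 - b ^ 2 ≠ 0 := by
    intro a b hab h
    apply hab
    have h3 : (a - b) ^ 2 = 0 := by linear_combination h + (b ^ 2 - a * b) * h2
    exact sub_eq_zero.1 (pow_eq_zero_iff (two_ne_zero)|>.1 h3)
  have hd : ∀ a b : F, a ≠ b → a - b ≠ 0 := fun a b h => sub_ne_zero.2 h
  rw [Matrix.det_fin_three]
  rcases x with _ | _ | a <;> rcases y with _ | _ | b <;> rcases z with _ | _ | c <;>
    simp_all [COE_u]
  · intro h
    exact hsq b c hyz (by linear_combination h)
  · intro h
    exact hd b c hyz (by linear_combination -h)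
  · intro h
    exact hsq a c hxz (by linear_combination -h)
  · intro h
    exact hd a c hxz (by linear_combination h)
  · intro h
    exact hsq a b hxy (by linear_combination h)
  · intro h
    exact hd a b hxy (by linear_combination -h)
  · intro h
    have h3 : (a - b) * ((a - c) * (b - c)) = 0 := by linear_combination -h
    exact mul_ne_zero (hd a b hxy) (mul_ne_zero (hd a c hxz) (hd b c hyz)) h3

theorem hyperoval {F : Type*} [Field F] [Fintype F] [DecidableEq F] [CharP F 2] :
    ∃ v : Fin (Fintype.card F + 2) → (Fin 3 → F), MDS.IsArc (F := F) v 3 := by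
  classical
  have hcard : Fintype.card (Option (Option F)) = Fintype.card F + 2 := by
    simp [Fintype.card_option]
  obtain ⟨σ⟩ : Nonempty (Fin (Fintype.card F + 2) ≃ Option (Option F)) :=
    ⟨(Fintype.equivFinOfCardEq hcard).symm⟩
  refine ⟨fun i => COE_u F (σ i), fun Y hY => ?_⟩
  have hq : 1 ≤ Fintype.card F := Fintype.card_pos
  obtain ⟨Y', hYY', hY'⟩ := Finset.exists_superset_card_eq hY (by
    rw [Fintype.card_fin]
    omega)
  refine LinearIndepOn.mono ?_ (Finset.coe_subset.2 hYY')
  obtain ⟨x, y, z, hxy, hxz, hyz, rfl⟩ := Finset.card_eq_three.1 hY'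
  have hinj : Function.Injective ![x, y, z] := by
    intro i j hij
    fin_cases i <;> fin_cases j <;> simp_all
  have hr : (({x, y, z} : Finset (Fin (Fintype.card F + 2))) : Set (Fin (Fintype.card F + 2))) =
      Set.range ![x, y, z] := by
    ext i
    simp [Matrix.range_cons]
    tauto
  rw [hr, linearIndepOn_range_iff hinj]
  have hdet := COE_det (σ x) (σ y) (σ z) (σ.injective.ne hxy) (σ.injective.ne hxz)
    (σ.injective.ne hyz)
  have h1 : LinearIndependent F ![COE_u F (σ x), COE_u F (σ y), COE_u F (σ z)] :=
    Matrix.linearIndependent_rows_of_det_ne_zero hdet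
  have e : (fun i => COE_u F (σ i)) ∘ ![x, y, z] = ![COE_u F (σ x), COE_u F (σ y), COE_u F (σ z)] := by
    funext i
    fin_cases i <;> rfl
  rw [e]
  exact h1

theorem no_arc_three {F : Type*} [Field F] [Fintype F] [DecidableEq F]
    (v : Fin (Fintype.card F + 3) → (Fin 3 → F)) : ¬ MDS.IsArc (F := F) v 3 := by
  classical
  intro hv
  obtain ⟨u, hu⟩ : ∃ u, u = v (Fin.last _) := ⟨_, rfl⟩
  have hu0 : u ≠ 0 := by
    have h1 := hv {Fin.last _} (by simp)
    rw [Finset.coe_singleton] at h1
    rw [hu]
    exact h1.ne_zero (Set.mem_singleton _)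
  have hfr : Module.finrank F ((Fin 3 → F) ⧸ Submodule.span F {u}) = Module.finrank F (Fin 2 → F) := by
    have h1 := Submodule.finrank_quotient_add_finrank (Submodule.span F {u})
    rw [finrank_span_singleton hu0, Module.finrank_fin_fun] at h1
    rw [Module.finrank_fin_fun]
    omega
  let φ := LinearEquiv.ofFinrankEq _ _ hfr
  let π : (Fin 3 → F) →ₗ[F] (Fin 2 → F) := φ.toLinearMap ∘ₗ (Submodule.span F {u}).mkQ
  have hπ : ∀ x, π x = 0 → ∃ c : F, c • u = x := by
    intro x hx
    have h1 : (Submodule.span F {u}).mkQ x = 0 := φ.map_eq_zero_iff.1 hx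
    rw [Submodule.mkQ_apply, Submodule.Quotient.mk_eq_zero] at h1
    exact Submodule.mem_span_singleton.1 h1
  refine MDS.no_arc_two (fun i => π (v i.castSucc)) fun Y hY => ?_
  rw [linearIndepOn_finset_iff]
  intro f hf
  have h1 : π (∑ i ∈ Y, f i • v i.castSucc) = 0 := by
    rw [map_sum, ← hf]
    exact Finset.sum_congr rfl fun i _ => map_smul _ _ _
  obtain ⟨c, hc⟩ := hπ _ h1
  have hlast : Fin.last (Fintype.card F + 2) ∉ Y.map Fin.castSuccEmb := by
    intro h
    obtain ⟨i, -, hi⟩ := Finset.mem_map.1 h
    exact (Fin.castSucc_lt_last i).ne hi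
  have h2 := hv (insert (Fin.last _) (Y.map Fin.castSuccEmb)) (by
    rw [Finset.card_insert_of_notMem hlast, Finset.card_map]
    omega)
  rw [linearIndepOn_finset_iff] at h2
  have h3 := h2 (fun j => if h : j = Fin.last _ then -c else f (j.castPred h)) (by
    rw [Finset.sum_insert hlast, Finset.sum_map, dif_pos rfl, ← hu, neg_smul, hc,
      neg_add_eq_zero]
    refine Finset.sum_congr rfl fun i _ => ?_
    have hne : Fin.castSuccEmb i ≠ Fin.last _ := (Fin.castSucc_lt_last i).ne
    rw [dif_neg hne]
    rfl)
  intro i hi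
  have h4 := h3 i.castSucc (Finset.mem_insert_of_mem (Finset.mem_map_of_mem _ hi))
  rw [dif_neg (Fin.castSucc_lt_last i).ne] at h4
  exact h4

end MDE
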