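import Pool.Agent.MDE.PEN

/-!
# MDE.CSB: the space `CS` of a projection of an arc is large

`v : ι → V` an arc, `finrank V = k`, `#ι + t + 1 = 2 m + k`, `#B + 3 = k`, `g : Fin 3 → Dual V` independent functionals
vanishing on `B`, `w x = (g i (v x))_i`, `x ∉ B`.
* `mem_CS`: for every functional `y` the function `x ↦ (y (v x)) ^ m` (`x ∉ B`) belongs to `CS w m`. Let `r ∉ B`;
  `A = insert r B`, `#A + 2 = k`. Choose `a`, `b` with `d3 (w r) a b = 1` (LIA.exists_basis1; `Arc3 w` by
  PRJ.proj_arc). `f x := dp b (cr (w r) (G x))`, `g' x := dp a (cr (w r) (G x))` with `G x = (g i x)_i`: linear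
  functionals (explicit combinations of the `g i`: `dp b (cr (w r) z) = dp (cr b (w r)) z`), vanishing on `B` and
  at `v r`, independent (`cr b (w r)`, `cr a (w r)` are independent vectors since `w r, a, b` are, and the `g i`
  are independent). PEN.pencil gives `P` with `(y (v x)) ^ m = eval ![f (v x), g' (v x)] P` for `x ∉ A`. The ternary
  form is `aeval ![lin b, lin a] P`, evaluated at `cr (w r) (w x)`.
* `CS_big`: let `y 1, .., y k` be a basis of the dual of `V`. The functions `c i : x ↦ (y i (v x)) ^ m` are linearly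
  independent: if `∑ α i • c i = 0`, write `α i = (β i) ^ m` (`β i = (α i) ^ 2`, `(α^2)^m = α^q = α`), then
  `(∑ β i (y i) (v x)) ^ m = 0` for all `x ∉ B` (additivity of `x ↦ x ^ m`), so `∑ β i • y i` vanishes at `v x`,
  `x ∉ B`, at least `k` vectors (`#ι - #B ≥ k`: `2 m + 2 - t ≥ t + 3`... here `hkN`), so it is `0` by
  PRJ.eq_zero_of_vanish, `β = 0`.
  So `k ≤ finrank (CS w m)` (`LinearIndependent.fintype_card_le_finrank`).
-/

set_option autoImplicit false

namespace MDE

open MvPolynomial Finset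

variable {F : Type*} [Field F] {V ι : Type*} [AddCommGroup V] [Module F V]

/-- The functional with coordinates `u` in terms of three given ones. -/
private def csbL (g : Fin 3 → Module.Dual F V) (u : Fin 3 → F) : Module.Dual F V :=
  u 0 • g 0 + u 1 • g 1 + u 2 • g 2

private theorem csbL_apply (g : Fin 3 → Module.Dual F V) (u : Fin 3 → F) (x : V) :
    csbL g u x = dp u (fun i => g i x) := by
  simp [csbL, dp]

private theorem csbL_eq_zero {g : Fin 3 → Module.Dual F V} (hg : LinearIndependent F g)
    {u : Fin 3 → F} (h : csbL g u = 0) : u = 0 := by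
  rw [Fintype.linearIndependent_iff] at hg
  have h1 := hg u (by
    rw [Fin.sum_univ_three]
    exact h)
  funext i
  exact h1 i

private theorem csb_triple (b r z : Fin 3 → F) : dp (cr b r) z = dp b (cr r z) := by
  have e0 : ∀ u v : Fin 3 → F, cr u v 0 = u 1 * v 2 - u 2 * v 1 := fun _ _ => rfl
  have e1 : ∀ u v : Fin 3 → F, cr u v 1 = u 2 * v 0 - u 0 * v 2 := fun _ _ => rfl
  have e2 : ∀ u v : Fin 3 → F, cr u v 2 = u 0 * v 1 - u 1 * v 0 := fun _ _ => rfl
  simp only [dp, e0, e1, e2]
  ring

theorem mem_CS [Fintype F] [CharP F 2] [FiniteDimensional F V] [Fintype ι] [DecidableEq ι]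
    {v : ι → V} {k e m t : ℕ} (hm : m = 2 ^ e) (hq : Fintype.card F = 2 * m) (hm2 : 2 ≤ m)
    (hk : Module.finrank F V = k) (hv : MDS.IsArc (F := F) v k)
    (hN : Fintype.card ι + t + 1 = 2 * m + k) (ht : t + 1 ≤ m)
    (B : Finset ι) (hB : B.card + 3 = k) (g : Fin 3 → Module.Dual F V)
    (hg : LinearIndependent F g) (h0 : ∀ i, ∀ b ∈ B, g i (v b) = 0) (y : Module.Dual F V) :
    (fun x : {x : ι // x ∉ B} => (y (v x)) ^ m) ∈
      CS (fun (x : {x : ι // x ∉ B}) (i : Fin 3) => g i (v x)) m := by
  have harc := proj_arc hk hv B hB g hg h0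
  set w : {x : ι // x ∉ B} → Fin 3 → F := fun x i => g i (v x) with hw
  intro r
  obtain ⟨a, b, hab⟩ := exists_basis1 (harc.ne r)
  have hA : (insert r.1 B).card + 2 = k := by
    rw [Finset.card_insert_of_notMem r.2]
    omega
  have hval : ∀ (u : Fin 3 → F) (x : {x : ι // x ∉ B}), csbL g u (v x) = dp u (w x) := fun u x =>
    csbL_apply g u (v x)
  have hvan : ∀ u : Fin 3 → F, dp u (w r) = 0 → ∀ c ∈ insert r.1 B, csbL g u (v c) = 0 := by
    intro u hu c hc
    rcases Finset.mem_insert.1 hc with rfl | hc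
    · rw [← hu, ← hval]
    · rw [csbL_apply]
      simp [dp, h0 _ c hc]
  have hzero : ∀ c : Fin 3 → F, dp (cr c (w r)) (w r) = 0 := by
    intro c
    rw [csb_triple, cr_self]
    simp [dp]
  have hind : LinearIndependent F ![csbL g (cr b (w r)), csbL g (cr a (w r))] := by
    rw [LinearIndependent.pair_iff]
    intro s t hst
    have h1 : csbL g (s • cr b (w r) + t • cr a (w r)) = 0 := by
      rw [← hst]
      simp only [csbL, Pi.add_apply, Pi.smul_apply, smul_eq_mul]
      module
    have h2 := csbL_eq_zero hg h1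
    have h3 : ∀ z : Fin 3 → F, s * dp (cr b (w r)) z + t * dp (cr a (w r)) z = 0 := by
      intro z
      have h4 : s * dp (cr b (w r)) z + t * dp (cr a (w r)) z =
          dp (s • cr b (w r) + t • cr a (w r)) z := by
        simp only [dp, Pi.add_apply, Pi.smul_apply, smul_eq_mul]
        ring
      rw [h4, h2]
      simp [dp]
    have ha := h3 a
    have hb := h3 b
    have e1 : dp (cr b (w r)) a = d3 (w r) a b := by
      rw [csb_triple, dp_cr_eq, d3_cyc b (w r) a]
    have e2 : dp (cr a (w r)) a = 0 := by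
      rw [csb_triple, dp_cr_right]
    have e3 : dp (cr a (w r)) b = - d3 (w r) a b := by
      rw [csb_triple, dp_cr_eq, d3_swap (w r) a b]
    have e4 : dp (cr b (w r)) b = 0 := by
      rw [csb_triple, dp_cr_right]
    rw [e1, e2, hab] at ha
    rw [e3, e4, hab] at hb
    constructor
    · simpa using ha
    · simpa using hb
  obtain ⟨P, hP, hPe⟩ := pencil hm hq hm2 hk hv hN ht (insert r.1 B) hA
    (csbL g (cr b (w r))) (csbL g (cr a (w r))) hind (hvan _ (hzero b)) (hvan _ (hzero a)) y
  refine ⟨aeval ![lin b, lin a] P, ?_, fun x hx => ?_⟩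
  · have h2 : ∀ i, ((![lin b, lin a] : Fin 2 → MvPolynomial (Fin 3) F) i).IsHomogeneous 1 := by
      intro i
      fin_cases i
      · exact lin_hom b
      · exact lin_hom a
    have := hP.aeval _ h2
    rwa [one_mul] at this
  · have hxA : x.1 ∉ insert r.1 B := by
      rw [Finset.mem_insert, not_or]
      exact ⟨fun h => hx (Subtype.ext h), x.2⟩
    refine (hPe x.1 hxA).trans ?_
    have h4 : (eval (cr (w r) (w x))).comp
        ((aeval ![lin b, lin a] : MvPolynomial (Fin 2) F →ₐ[F] MvPolynomial (Fin 3) F) :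
          MvPolynomial (Fin 2) F →+* MvPolynomial (Fin 3) F) =
        eval ![csbL g (cr b (w r)) (v x), csbL g (cr a (w r)) (v x)] := by
      refine ringHom_ext (fun c => ?_) fun i => ?_
      · simp
      · rw [RingHom.comp_apply]
        change eval _ (aeval _ (X i)) = _
        rw [aeval_X, eval_X]
        fin_cases i
        · change eval _ (lin b) = csbL g (cr b (w r)) (v x)
          rw [eval_lin, hval, csb_triple]
        · change eval _ (lin a) = csbL g (cr a (w r)) (v x)
          rw [eval_lin, hval, csb_triple]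
    exact (congrArg (fun φ => φ P) h4).symm

theorem CS_big [Fintype F] [CharP F 2] [FiniteDimensional F V] [Fintype ι] [DecidableEq ι]
    {v : ι → V} {k e m t : ℕ} (hm : m = 2 ^ e) (hq : Fintype.card F = 2 * m) (hm2 : 2 ≤ m)
    (hk : Module.finrank F V = k) (hv : MDS.IsArc (F := F) v k)
    (hN : Fintype.card ι + t + 1 = 2 * m + k) (ht : t + 1 ≤ m)
    (B : Finset ι) (hB : B.card + 3 = k) (hkN : k + B.card ≤ Fintype.card ι)
    (g : Fin 3 → Module.Dual F V) (hg : LinearIndependent F g)
    (h0 : ∀ i, ∀ b ∈ B, g i (v b) = 0) :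
    k ≤ Module.finrank F (CS (fun (x : {x : ι // x ∉ B}) (i : Fin 3) => g i (v x)) m) := by
  have hsum : ∀ (s : Finset (Fin k)) (z : Fin k → F), (∑ i ∈ s, z i) ^ m = ∑ i ∈ s, z i ^ m := by
    intro s z
    rw [hm]
    exact sum_pow_char_pow 2 e s z
  have hfr : Module.finrank F (Module.Dual F V) = k := by
    rw [Subspace.dual_finrank_eq, hk]
  let β := Module.finBasisOfFinrankEq F (Module.Dual F V) hfr
  have hmem := fun i => mem_CS hm hq hm2 hk hv hN ht B hB g hg h0 (β i)
  have hli : LinearIndependent F (fun i => (⟨_, hmem i⟩ :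
      CS (fun (x : {x : ι // x ∉ B}) (i : Fin 3) => g i (v x)) m)) := by
    rw [Fintype.linearIndependent_iff]
    intro α hα
    have h1 : ∀ x : {x : ι // x ∉ B}, ∑ i, α i * (β i (v x)) ^ m = 0 := by
      intro x
      have h2 := congrArg (fun c => (c.1 : {x : ι // x ∉ B} → F) x) hα
      simpa [Finset.sum_apply] using h2
    have hq1 : ∀ z : F, (z ^ 2) ^ m = z := by
      intro z
      rw [← pow_mul, ← hq, FiniteField.pow_card]
    have h2 : ∀ x : {x : ι // x ∉ B}, (∑ i, (α i ^ 2) • β i) (v x) = 0 := by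
      intro x
      have h3 : ((∑ i, (α i ^ 2) • β i) (v x)) ^ m = 0 := by
        rw [LinearMap.sum_apply]
        simp only [LinearMap.smul_apply, smul_eq_mul]
        rw [hsum, ← h1 x]
        refine Finset.sum_congr rfl fun i _ => ?_
        rw [mul_pow, hq1]
      exact pow_eq_zero_iff (by omega) |>.1 h3
    have h3 : (∑ i, (α i ^ 2) • β i) = 0 := by
      refine eq_zero_of_vanish hk hv Bᶜ ?_ _ (fun x hx => ?_)
      · rw [Finset.card_compl]
        omega
      · exact h2 ⟨x, Finset.mem_compl.1 hx⟩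
    have h4 := (Fintype.linearIndependent_iff.1 β.linearIndependent) _ h3
    intro i
    have h5 : α i ^ 2 = 0 := h4 i
    exact pow_eq_zero_iff (by norm_num) |>.1 h5
  have := hli.fintype_card_le_finrank
  simpa using this

end MDE
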