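import Pool.Agent.MDE.JDB

/-!
# MDE.JDM: the bound `finrank J_{d+1} ≤ d + 2`

`Pi` homogeneous of degree `D`, `(d + e) + D = 3 (m - 1)`, `d + 1 ≤ e`, `J_d = 0`. Then `finrank J_{d+1} ≤ d + 2`.
If `J_{d+1} = ⊥` it is clear. Otherwise take `G ≠ 0` in it and `u ≠ 0` with `¬ lin u ∣ G`, and `ρ s a b` from
RST.restrict. `W n := (JI Pi m n).map ρ.toLinearMap`, a space of binary forms of degree `n`; `lin a * J_n ⊆ J_{n+1}`
(IDX.mul_mem and `(lin_hom a).mul`), so `X 0 * W n ⊆ W (n + 1)`, `X 1 * W n ⊆ W (n + 1)`; `W (d+1) ≠ ⊥` as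
`ρ G ≠ 0`. GRW.grow_iter: `finrank W (d+1) + (e - (d+1)) ≤ finrank W e`.
Rank-nullity for `ρ` on `J_{d+1}` (`Submodule.finrank_map_add...` / `LinearMap.finrank_range_add_finrank_ker` of the
restricted map): `finrank J_{d+1} = finrank W (d+1) + finrank K`, `K = {G ∈ J_{d+1} : lin u ∣ G}`, and
`G' ↦ lin u * G'` maps `NJ Pi m d u` onto `K` (SPL.hom_dvd), so `finrank K ≤ finrank NJ ≤ e + 1 - finrank W e`
(JDB.dual_bound). Sum: `finrank J_{d+1} ≤ finrank W (d+1) + e + 1 - finrank W e ≤ d + 2`.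
-/

set_option autoImplicit false

namespace MDE

open MvPolynomial

variable {F : Type*} [Field F]

private theorem JDM_lin {Pi : MvPolynomial (Fin 3) F} {m n : ℕ} (a : Fin 3 → F)
    {f : MvPolynomial (Fin 3) F} (hf : f ∈ JI Pi m n) : lin a * f ∈ JI Pi m (n + 1) := by
  refine ⟨?_, fun α hα => ?_⟩
  · rw [add_comm n 1]
    exact (lin_hom a).mul hf.1
  · rw [mul_assoc]
    exact mul_mem (m := m) hf.2 _ _ hα

private theorem JDM_ker {Pi : MvPolynomial (Fin 3) F} {m d : ℕ} {u : Fin 3 → F} (hu : u ≠ 0)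
    (ρ : MvPolynomial (Fin 3) F →ₐ[F] MvPolynomial (Fin 2) F)
    (hker : ∀ P, ρ P = 0 ↔ lin u ∣ P) :
    Module.finrank F (JI Pi m (d + 1)) ≤
      Module.finrank F ((JI Pi m (d + 1)).map ρ.toLinearMap) + Module.finrank F (NJ Pi m d u) := by
  have hJ : FiniteDimensional F (JI Pi m (d + 1)) := fin_sub3 (n := d + 1) fun P hP => hP.1
  have hN : FiniteDimensional F (NJ Pi m d u) := fin_sub3 (n := d) fun P hP => hP.1
  have h1 := LinearMap.finrank_range_add_finrank_ker (ρ.toLinearMap.domRestrict (JI Pi m (d + 1)))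
  rw [LinearMap.range_domRestrict] at h1
  have h2 : Module.finrank F (LinearMap.ker (ρ.toLinearMap.domRestrict (JI Pi m (d + 1)))) ≤
      Module.finrank F (NJ Pi m d u) := by
    have h3 : (LinearMap.ker (ρ.toLinearMap.domRestrict (JI Pi m (d + 1)))).map
        (JI Pi m (d + 1)).subtype ≤ (NJ Pi m d u).map (LinearMap.mulLeft F (lin u)) := by
      rintro _ ⟨G, hG, rfl⟩
      have h4 : ρ (G : MvPolynomial (Fin 3) F) = 0 := hG
      obtain ⟨Q, hQ, hGQ⟩ := hom_dvd hu G.2.1 ((hker _).1 h4)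
      refine ⟨Q, ⟨hQ, ?_⟩, hGQ.symm⟩
      have h5 : lin u * Q ∈ JI Pi m (d + 1) := by
        rw [← hGQ]
        exact G.2
      exact h5
    have h4 := (Submodule.equivMapOfInjective _ (JI Pi m (d + 1)).injective_subtype
      (LinearMap.ker (ρ.toLinearMap.domRestrict (JI Pi m (d + 1))))).finrank_eq
    rw [h4]
    exact (Submodule.finrank_mono h3).trans (Submodule.finrank_map_le _ _)
  omega

theorem J_dim {Pi : MvPolynomial (Fin 3) F} {D m d e : ℕ} (hPi : Pi.IsHomogeneous D)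
    (hm : 1 ≤ m) (hsum : d + e + D = 3 * (m - 1)) (hde : d + 1 ≤ e) (h0 : JI Pi m d = ⊥)
    (hz : ∀ G ∈ JI Pi m (d + 1), G ≠ 0 → ∃ u : Fin 3 → F, u ≠ 0 ∧ ¬ lin u ∣ G) :
    Module.finrank F (JI Pi m (d + 1)) ≤ d + 2 := by
  by_cases hb : JI Pi m (d + 1) = ⊥
  · rw [hb, finrank_bot]
    omega
  obtain ⟨G, hG, hG0⟩ := (Submodule.ne_bot_iff _).1 hb
  obtain ⟨u, hu, hdvd⟩ := hz G hG hG0
  obtain ⟨ρ, s, a, b, ha, hb', hρs, hker, hρ, hs⟩ := restrict hu
  have h1 := dual_bound hPi hm hsum h0 hu ρ s hρs hker hρ hs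
  have h2 := JDM_ker (Pi := Pi) (m := m) (d := d) hu ρ hker
  have h3 : Module.finrank F ((JI Pi m (d + 1)).map ρ.toLinearMap) + (e - (d + 1)) ≤
      Module.finrank F ((JI Pi m e).map ρ.toLinearMap) := by
    refine grow_iter hde (fun n => (JI Pi m n).map ρ.toLinearMap) ?_ ?_ ?_ ?_
    · rintro n _ ⟨f, hf, rfl⟩
      exact hρ n f hf.1
    · rw [Submodule.ne_bot_iff]
      refine ⟨ρ G, ⟨G, hG, rfl⟩, fun h => hdvd ((hker G).1 h)⟩
    · rintro n _ ⟨f, hf, rfl⟩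
      refine ⟨lin a * f, JDM_lin a hf, ?_⟩
      rw [AlgHom.toLinearMap_apply, AlgHom.toLinearMap_apply, map_mul, ha]
    · rintro n _ ⟨f, hf, rfl⟩
      refine ⟨lin b * f, JDM_lin b hf, ?_⟩
      rw [AlgHom.toLinearMap_apply, AlgHom.toLinearMap_apply, map_mul, hb']
  omega

end MDE
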