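import Pool.Agent.MDE.SUB

/-!
# MDE.RES: syzygies of small degree on a line

Characteristic `2`, `m = 2 ^ e`. Notation `x' = fun i => (x i) ^ m`; `d3 r' a' b' = (d3 r a b) ^ m` and
`cr r' a' = (cr r a)'` (the Frobenius `x ↦ x ^ m` is a ring homomorphism: `add_pow_char_pow`,
`sub_pow_char_pow`).
* `lin_pow`: `lin x ^ m = ∑ i, C ((x i)^m) * X i ^ m`.
* `two_pow`: `X 0`-divisibility: if `X 0 ∣ A * X 1 ^ m + B * X 2 ^ m` with `A`, `B` homogeneous of degree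
  `n < m` then `X 0 ∣ A` and `X 0 ∣ B`: for a monomial `α` with `α 0 = 0`, `|α| = n`, the coefficient of
  `X 1 ^ m * X^α` in `B * X 2 ^ m` is zero as `α 2 ≤ n < m`.
* `two_pow_lin`: the same for `lin r`, `lin a`, `lin b` with `d3 r a b = 1` (pull back with SUB.sb_inv).
* `res_line`: let `d3 r a b = 1`. Put `A = ∑ i, C (..) * ψ i` the coordinates of the vector `ψ` in the basis
  `r', a', b'`: `A = d3 r' ψ b'`, `B = d3 r' a' ψ` (polynomial valued), `R = d3 ψ a' b'`, so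
  `ψ i = R r'_i + A a'_i + B b'_i` (Cramer) and `∑ X i ^ m * ψ i = R (lin r)^m + A (lin a)^m + B (lin b)^m`.
  As `lin r` divides this sum, it divides `A (lin a)^m + B (lin b)^m`, hence `A` and `B`, and
  `r'_i ψ_j - r'_j ψ_i = A (r'_i a'_j - r'_j a'_i) + B (r'_i b'_j - r'_j b'_i)`.
-/

set_option autoImplicit false

namespace MDE

open MvPolynomial

variable {F : Type*} [Field F]

theorem d3_pow [CharP F 2] (e : ℕ) (r a b : Fin 3 → F) :
    d3 (fun i => r i ^ (2 ^ e)) (fun i => a i ^ (2 ^ e)) (fun i => b i ^ (2 ^ e))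
      = (d3 r a b) ^ (2 ^ e) := by
  haveI : Fact (Nat.Prime 2) := ⟨Nat.prime_two⟩
  simp only [d3, dp, cr, Matrix.cons_val, add_pow_char_pow, sub_pow_char_pow, mul_pow]

theorem cr_pow [CharP F 2] (e : ℕ) (r a : Fin 3 → F) :
    cr (fun i => r i ^ (2 ^ e)) (fun i => a i ^ (2 ^ e)) = fun i => (cr r a i) ^ (2 ^ e) := by
  haveI : Fact (Nat.Prime 2) := ⟨Nat.prime_two⟩
  funext i
  fin_cases i <;> simp [cr, sub_pow_char_pow, mul_pow]

theorem lin_pow [CharP F 2] (e : ℕ) (x : Fin 3 → F) :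
    lin x ^ (2 ^ e) = ∑ i, C (x i ^ (2 ^ e)) * X i ^ (2 ^ e) := by
  haveI : Fact (Nat.Prime 2) := ⟨Nat.prime_two⟩
  rw [Fin.sum_univ_three]
  simp only [lin, add_pow_char_pow, mul_pow, C_pow]

private theorem res_X0 {P : MvPolynomial (Fin 3) F} :
    (X 0 : MvPolynomial (Fin 3) F) ∣ P ↔ ∀ α : Fin 3 →₀ ℕ, α 0 = 0 → coeff α P = 0 := by
  constructor
  · rintro ⟨Q, rfl⟩ α hα
    rw [coeff_X_mul', if_neg]
    rw [Finsupp.mem_support_iff]
    exact fun h => h hα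
  · intro h
    rw [X_dvd_iff_modMonomial_eq_zero]
    ext α
    rw [coeff_zero]
    by_cases h1 : Finsupp.single 0 1 ≤ α
    · exact coeff_modMonomial_of_le P h1
    · rw [coeff_modMonomial_of_not_le P h1]
      apply h
      by_contra h2
      apply h1
      rw [Finsupp.single_le_iff]
      omega

private theorem res_two {m n : ℕ} (hn : n < m) {A B : MvPolynomial (Fin 3) F}
    (hA : A.IsHomogeneous n) (i j : Fin 3) (hi : i ≠ 0) (hij : i ≠ j)
    (hd : (X 0 : MvPolynomial (Fin 3) F) ∣ A * X i ^ m + B * X j ^ m) :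
    (X 0 : MvPolynomial (Fin 3) F) ∣ A := by
  rw [res_X0] at hd ⊢
  intro α hα
  by_contra hne
  have h1 : Finsupp.degree α = n := by
    have := hA hne
    exact (DFunLike.congr_fun Finsupp.degree_eq_weight_one α).trans this
  have h2 := hd (α + Finsupp.single i m) (by
    rw [Finsupp.add_apply, hα, Finsupp.single_eq_of_ne (Ne.symm hi), add_zero])
  rw [coeff_add, X_pow_eq_monomial, X_pow_eq_monomial, coeff_mul_monomial, coeff_mul_monomial',
    if_neg, mul_one, add_zero] at h2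
  · exact hne h2
  · intro hle
    have h3 := hle j
    rw [Finsupp.add_apply, Finsupp.single_eq_same, Finsupp.single_eq_of_ne (Ne.symm hij)] at h3
    have h4 := Finsupp.le_degree j α
    omega

theorem two_pow_lin {r a b : Fin 3 → F} (h : d3 r a b = 1) {m n : ℕ} (hn : n < m)
    {A B : MvPolynomial (Fin 3) F} (hA : A.IsHomogeneous n) (hB : B.IsHomogeneous n)
    (hd : lin r ∣ A * lin a ^ m + B * lin b ^ m) : lin r ∣ A ∧ lin r ∣ B := by
  obtain ⟨a', b', c', -, h1, h2⟩ := sb_inv h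
  have hr : sb a' b' c' (lin r) = X 0 := by
    rw [← sb_X0 r a b, h2]
  have ha : sb a' b' c' (lin a) = X 1 := by
    rw [← sb_X1 r a b, h2]
  have hb : sb a' b' c' (lin b) = X 2 := by
    rw [← sb_X2 r a b, h2]
  have h3 := map_dvd (sb a' b' c') hd
  rw [map_add, map_mul, map_mul, map_pow, map_pow, hr, ha, hb] at h3
  have h4 : ∀ P, (X 0 : MvPolynomial (Fin 3) F) ∣ sb a' b' c' P → lin r ∣ P := by
    intro P hP
    have h5 := map_dvd (sb r a b) hP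
    rwa [sb_X0, h1] at h5
  refine ⟨h4 A (res_two hn (sb_hom _ _ _ hA) 1 2 (by decide) (by decide) h3),
    h4 B (res_two (B := sb a' b' c' A) hn (sb_hom _ _ _ hB) 2 1 (by decide) (by decide) ?_)⟩
  rw [add_comm]
  exact h3

theorem res_line [CharP F 2] (e : ℕ) {r : Fin 3 → F} (hr : r ≠ 0) {n : ℕ} (hn : n < 2 ^ e)
    {ψ : Fin 3 → MvPolynomial (Fin 3) F} (hψ : ∀ i, (ψ i).IsHomogeneous n)
    (hd : lin r ∣ ∑ i, X i ^ (2 ^ e) * ψ i) (i j : Fin 3) :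
    lin r ∣ C (r i ^ (2 ^ e)) * ψ j - C (r j ^ (2 ^ e)) * ψ i := by
  obtain ⟨a, b, hab⟩ := exists_basis1 hr
  have hab' := d3_pow e r a b
  rw [hab, one_pow] at hab'
  have hP : ∀ u : Fin 3 → F,
      (C (u 0) * ψ 0 + C (u 1) * ψ 1 + C (u 2) * ψ 2).IsHomogeneous n := by
    intro u
    have h1 : ∀ k, (C (u k) * ψ k).IsHomogeneous n := fun k => by
      simpa using (isHomogeneous_C (Fin 3) (u k)).mul (hψ k)
    exact ((h1 0).add (h1 1)).add (h1 2)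
  have hlr := lin_pow e r
  have hla := lin_pow e a
  have hlb := lin_pow e b
  rw [Fin.sum_univ_three] at hlr hla hlb hd
  have hm : 0 < 2 ^ e := by positivity
  have hrr : lin r ∣ lin r ^ (2 ^ e) := dvd_pow_self _ hm.ne'
  set r' : Fin 3 → F := fun i => r i ^ (2 ^ e) with hr'
  set a' : Fin 3 → F := fun i => a i ^ (2 ^ e) with ha'
  set b' : Fin 3 → F := fun i => b i ^ (2 ^ e) with hb'
  change lin r ∣ C (r' i) * ψ j - C (r' j) * ψ i
  change lin r ^ 2 ^ e = C (r' 0) * X 0 ^ 2 ^ e + C (r' 1) * X 1 ^ 2 ^ e + C (r' 2) * X 2 ^ 2 ^ e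
    at hlr
  change lin a ^ 2 ^ e = C (a' 0) * X 0 ^ 2 ^ e + C (a' 1) * X 1 ^ 2 ^ e + C (a' 2) * X 2 ^ 2 ^ e
    at hla
  change lin b ^ 2 ^ e = C (b' 0) * X 0 ^ 2 ^ e + C (b' 1) * X 1 ^ 2 ^ e + C (b' 2) * X 2 ^ 2 ^ e
    at hlb
  obtain ⟨R, hR⟩ : ∃ R, R = C (cr a' b' 0) * ψ 0 + C (cr a' b' 1) * ψ 1 + C (cr a' b' 2) * ψ 2 :=
    ⟨_, rfl⟩
  obtain ⟨A, hA⟩ : ∃ A, A = C (cr b' r' 0) * ψ 0 + C (cr b' r' 1) * ψ 1 + C (cr b' r' 2) * ψ 2 :=
    ⟨_, rfl⟩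
  obtain ⟨B, hB⟩ : ∃ B, B = C (cr r' a' 0) * ψ 0 + C (cr r' a' 1) * ψ 1 + C (cr r' a' 2) * ψ 2 :=
    ⟨_, rfl⟩
  have hAh : A.IsHomogeneous n := hA ▸ hP (cr b' r')
  have hBh : B.IsHomogeneous n := hB ▸ hP (cr r' a')
  have hC := congrArg (C : F → MvPolynomial (Fin 3) F) hab'
  have hψi : ∀ k, ψ k = R * C (r' k) + A * C (a' k) + B * C (b' k) := by
    rw [hR, hA, hB]
    simp only [d3, dp, cr, Matrix.cons_val, C_add, C_mul, C_sub, C_1] at hC ⊢
    rw [Fin.forall_fin_succ, Fin.forall_fin_two]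
    refine ⟨?_, ?_, ?_⟩
    · linear_combination (-ψ 0) * hC
    · change ψ 1 = _ * C (r' 1) + _ * C (a' 1) + _ * C (b' 1)
      linear_combination (-ψ 1) * hC
    · change ψ 2 = _ * C (r' 2) + _ * C (a' 2) + _ * C (b' 2)
      linear_combination (-ψ 2) * hC
  have hdd : lin r ∣ A * lin a ^ (2 ^ e) + B * lin b ^ (2 ^ e) := by
    have h1 : A * lin a ^ (2 ^ e) + B * lin b ^ (2 ^ e)
        = (X 0 ^ 2 ^ e * ψ 0 + X 1 ^ 2 ^ e * ψ 1 + X 2 ^ 2 ^ e * ψ 2)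
          - R * lin r ^ (2 ^ e) := by
      rw [hlr, hla, hlb]
      linear_combination (-X 0 ^ 2 ^ e) * hψi 0 + (-X 1 ^ 2 ^ e) * hψi 1
        + (-X 2 ^ 2 ^ e) * hψi 2
    rw [h1]
    exact dvd_sub hd (hrr.mul_left R)
  obtain ⟨⟨A', hA'⟩, ⟨B', hB'⟩⟩ := two_pow_lin hab hn hAh hBh hdd
  refine ⟨A' * (C (r' i) * C (a' j) - C (r' j) * C (a' i))
    + B' * (C (r' i) * C (b' j) - C (r' j) * C (b' i)), ?_⟩
  rw [hψi i, hψi j, hA', hB']
  ring

end MDE
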