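import Pool.Agent.MDE.GLU
import Pool.Agent.MDE.IDX
import Pool.Agent.MDE.RES

/-!
# MDE.JVN: `J_{t-3} = 0`

`m = 2 ^ e`, `#ι + t = 2 m + 2`, `j + 3 = t`, `m < #ι`. Let `G ∈ JI (PK v) m j`. `G * PK v` is homogeneous of
degree `j + #ι = 2 m - 1 = m + (m - 1)`, so (IDX.ideal_of_coeff) `G * PK v = ∑ X i ^ m * ψ i` with `ψ i`
homogeneous of degree `m - 1`. Every `lin (v r)` divides it, so (RES.res_line, `n = m - 1`)
`lin (v r) ∣ r'_i ψ_j - r'_j ψ_i`. At the node `l = cr (v r) (v s)` of two different lines the vector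
`y = (eval l (ψ i))` satisfies `r'_i y_j = r'_j y_i` and `s'_i y_j = s'_j y_i`, i.e. `cr r' y = 0`,
`cr s' y = 0`; if `y ≠ 0` then (LIA.smul_of_cr) `r'` and `s'` are multiples of `y` and `cr r' s' = 0`, but
`cr r' s' = (cr r s)' ≠ 0` (RES.cr_pow). So all `ψ i` vanish at all nodes; GLU.dvd_of_nodes
(`m - 1 + 1 < #ι`) and GLU.eq_zero_of_dvd_hom give `ψ i = 0`; so `G * PK v = 0`, `G = 0` (GLU.PK_ne).
-/

set_option autoImplicit false

namespace MDE

open MvPolynomial

variable {F : Type*} [Field F]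

private theorem jvn_zero [CharP F 2] (e : ℕ) {r s y : Fin 3 → F} (hrs : cr r s ≠ 0)
    (h1 : ∀ i j, r i ^ 2 ^ e * y j = r j ^ 2 ^ e * y i)
    (h2 : ∀ i j, s i ^ 2 ^ e * y j = s j ^ 2 ^ e * y i) : y = 0 := by
  by_contra hy
  have key : ∀ x : Fin 3 → F, (∀ i j, x i ^ 2 ^ e * y j = x j ^ 2 ^ e * y i) →
      ∃ c : F, (fun i => x i ^ 2 ^ e) = c • y := by
    intro x hx
    apply smul_of_cr hy
    funext i
    fin_cases i
    · simp only [cr, Fin.zero_eta, Matrix.cons_val, Pi.zero_apply]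
      linear_combination hx 2 1
    · simp only [cr, Fin.mk_one, Matrix.cons_val, Pi.zero_apply]
      linear_combination hx 0 2
    · simp only [cr, Fin.reduceFinMk, Matrix.cons_val, Pi.zero_apply]
      linear_combination hx 1 0
  obtain ⟨c, hc⟩ := key r h1
  obtain ⟨c', hc'⟩ := key s h2
  apply hrs
  have h3 := cr_pow e r s
  rw [hc, hc'] at h3
  funext i
  have h4 := congrFun h3 i
  have h5 : cr (c • y) (c' • y) i = 0 := by
    fin_cases i
    · simp only [cr, Fin.zero_eta, Matrix.cons_val, Pi.smul_apply, smul_eq_mul]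
      ring
    · simp only [cr, Fin.mk_one, Matrix.cons_val, Pi.smul_apply, smul_eq_mul]
      ring
    · simp only [cr, Fin.reduceFinMk, Matrix.cons_val, Pi.smul_apply, smul_eq_mul]
      ring
  rw [h5] at h4
  exact pow_eq_zero_iff (by positivity) |>.1 h4.symm

theorem J_zero [CharP F 2] {ι : Type*} [Fintype ι] {v : ι → Fin 3 → F} (hv : Arc3 v)
    (e m t j : ℕ) (hm : m = 2 ^ e) (hN : Fintype.card ι + t = 2 * m + 2)
    (hmι : m < Fintype.card ι) (hj : j + 3 = t) : JI (PK v) m j = ⊥ := by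
  rw [eq_bot_iff]
  rintro G ⟨hG, hc⟩
  rw [Submodule.mem_bot]
  have hm0 : 0 < m := by
    rw [hm]
    positivity
  have hdeg : (G * PK v).IsHomogeneous (m + (m - 1)) := by
    have h1 := hG.mul (PK_hom v)
    have h2 : j + Fintype.card ι = m + (m - 1) := by omega
    rwa [h2] at h1
  obtain ⟨ψ, hψ, hsum⟩ := ideal_of_coeff hdeg hc
  have hdvd : ∀ r, lin (v r) ∣ ∑ i, X i ^ (2 ^ e) * ψ i := by
    intro r
    rw [← hm, ← hsum]
    exact (Finset.dvd_prod_of_mem _ (Finset.mem_univ r)).mul_left G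
  have hn : m - 1 < 2 ^ e := by omega
  have hψ0 : ∀ i, ψ i = 0 := by
    intro i
    apply eq_zero_of_dvd_hom hv (hψ i) (by omega)
    intro r
    apply dvd_of_nodes hv r (hψ i) (by omega)
    intro s hs
    have key : ∀ x, dp (v x) (cr (v r) (v s)) = 0 → ∀ i j,
        v x i ^ 2 ^ e * eval (cr (v r) (v s)) (ψ j) = v x j ^ 2 ^ e * eval (cr (v r) (v s)) (ψ i) := by
      intro x hx i j
      have h1 := res_line e (hv.ne x) hn hψ (hdvd x) i j
      have h2 := eval_eq_of_dvd h1 hx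
      rwa [map_mul, map_mul, eval_C, eval_C] at h2
    exact congrFun (jvn_zero e (hv.two r s (Ne.symm hs))
      (y := fun i => eval (cr (v r) (v s)) (ψ i))
      (key r (dp_cr_left _ _)) (key s (dp_cr_right _ _))) i
  have h0 : G * PK v = 0 := by
    rw [hsum]
    exact Finset.sum_eq_zero fun i _ => by rw [hψ0 i, mul_zero]
  exact (mul_eq_zero.1 h0).resolve_right (PK_ne hv)

end MDE
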