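import Pool.Agent.MDE.CDM
import Pool.Agent.MDE.JDM
import Pool.Agent.MDE.JVN

/-!
# MDE.CSS: the space `CS` of a planar arc is small

`w` a planar arc of `2 m + 2 - t` vectors, `1 ≤ t ≤ m - 1`. For `p ∈ WS w m` the polynomial `L p = ∑ X j ^ m * p.2 j` is
homogeneous of degree `2 m` and divisible by all `lin (w r)`.
* `t = 1`: `2 m < #κ = 2 m + 1`: `L p = 0` (GLU.eq_zero_of_dvd_hom); `U = ⊥` in CDM.finrank_CS_le.
* `t ≥ 2`: `2 m = (t - 2) + #κ`: `L p = Q * PK w` with `Q` homogeneous of degree `t - 2` (GLU.dvd_PK_hom), and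
  `Q ∈ JI (PK w) m (t - 2)` by IDX.coeff_of_ideal. `U` = the image of `JI (PK w) m (t - 2)` by multiplication by `PK w`,
  `finrank U ≤ finrank (JI ..)` (`Submodule.finrank_map_le`), finite dimensional by GRW.fin_sub3.
  `t = 2`: `finrank (JI ..) ≤ 1` by GRW.finrank_hom3_zero.
  `t ≥ 3`: JDM.J_dim with `d = t - 3`, `e = m - 2`, `D = #κ` (`(t-3) + (m-2) + (2m+2-t) = 3 (m-1)`), `h0` from JVN.J_zero,
  `hz`: if all `lin (w r)` divided `G ≠ 0` of degree `t - 2 < #κ` then `G = 0` (GLU.eq_zero_of_dvd_hom).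
  So `finrank ≤ t - 1`.
-/

set_option autoImplicit false

namespace MDE

open MvPolynomial

variable {F : Type*} [Field F]

private theorem CSS_hom {κ : Type*} {w : κ → Fin 3 → F} {m : ℕ}
    {p : (κ → F) × (Fin 3 → MvPolynomial (Fin 3) F)} (hp : p ∈ WS w m) :
    (∑ j, X j ^ m * p.2 j : MvPolynomial (Fin 3) F).IsHomogeneous (2 * m) := by
  refine IsHomogeneous.sum _ _ _ fun j _ => ?_
  rw [two_mul]
  exact (isHomogeneous_X_pow j m).mul (hp.1 j)

private theorem CSS_dim {κ : Type*} [Fintype κ] [CharP F 2] {w : κ → Fin 3 → F}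
    (hw : Arc3 w) {e m t : ℕ} (hm : m = 2 ^ e) (hm2 : 2 ≤ m)
    (hN : Fintype.card κ + t = 2 * m + 2) (ht2 : 2 ≤ t) (ht : t + 1 ≤ m) :
    Module.finrank F (JI (PK w) m (t - 2)) ≤ t - 1 := by
  rcases Nat.lt_or_ge t 3 with h3 | h3
  · obtain rfl : t = 2 := by omega
    exact finrank_hom3_zero fun P hP => hP.1
  · obtain ⟨d, rfl⟩ : ∃ d, t = d + 3 := ⟨t - 3, by omega⟩
    have h1 : d + 3 - 2 = d + 1 := by omega
    rw [h1]
    have h2 := J_dim (F := F) (Pi := PK w) (D := Fintype.card κ) (m := m) (d := d) (e := m - 2)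
      (PK_hom w) (by omega) (by omega) (by omega)
      (J_zero hw e m (d + 3) d hm hN (by omega) rfl) (fun G hG hG0 => by
        by_contra hcon
        push Not at hcon
        exact hG0 (eq_zero_of_dvd_hom hw hG.1 (by omega) fun i => hcon (w i) (hw.ne i)))
    omega

theorem CS_small [Fintype F] [CharP F 2] {κ : Type*} [Fintype κ] {w : κ → Fin 3 → F}
    (hw : Arc3 w) {e m t : ℕ} (hm : m = 2 ^ e) (hq : Fintype.card F = 2 * m) (hm2 : 2 ≤ m)
    (hN : Fintype.card κ + t = 2 * m + 2) (ht1 : 1 ≤ t) (ht : t + 1 ≤ m) :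
    Module.finrank F (CS w m) ≤ t + 2 := by
  rcases Nat.lt_or_ge t 2 with h2 | h2
  · obtain rfl : t = 1 := by omega
    have h := finrank_CS_le hw hm hq hm2 hN ht ⊥ (fun p hp => by
      rw [Submodule.mem_bot]
      exact eq_zero_of_dvd_hom hw (CSS_hom hp) (by omega) hp.2.2)
    rw [finrank_bot] at h
    exact h
  · have hJ : FiniteDimensional F (JI (PK w) m (t - 2)) := fin_sub3 (n := t - 2) fun P hP => hP.1
    have h := finrank_CS_le hw hm hq hm2 hN ht
      ((JI (PK w) m (t - 2)).map (LinearMap.mulRight F (PK w))) (fun p hp => by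
        have hh := CSS_hom hp
        have he : 2 * m = t - 2 + Fintype.card κ := by omega
        rw [he] at hh
        obtain ⟨Q, hQ, hpQ⟩ := dvd_PK_hom hw hh hp.2.2
        refine ⟨Q, ⟨hQ, fun α hα => ?_⟩, ?_⟩
        · rw [← hpQ]
          exact coeff_of_ideal m p.2 α hα
        · rw [LinearMap.mulRight_apply]
          exact hpQ.symm)
    have h1 := Submodule.finrank_map_le (LinearMap.mulRight F (PK w)) (JI (PK w) m (t - 2))
    have h3 := CSS_dim hw hm hm2 hN h2 ht
    omega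

end MDE
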