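import Mathlib

/-!
# Project MDE: the main conjecture for MDS codes, even q. Definitions

Ternary forms over a field `F` are elements of `MvPolynomial (Fin 3) F`, homogeneous. A vector
`v : Fin 3 → F` gives the linear form `lin v`; the line `r` is the zero set of `lin r`;
the form `G` restricted to this line is `G` modulo `lin r`. Two lines `lin r`, `lin s` meet in the
point `cr r s` (the node).

Blueprint: /team-store/MDE_BLUEPRINT.md
-/

set_option autoImplicit false

namespace MDE

open MvPolynomial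

section
variable {F : Type*} [Field F]

/-- The linear form attached to a vector. -/
noncomputable def lin (v : Fin 3 → F) : MvPolynomial (Fin 3) F :=
  C (v 0) * X 0 + C (v 1) * X 1 + C (v 2) * X 2

/-- The cross product. -/
def cr (u v : Fin 3 → F) : Fin 3 → F :=
  ![u 1 * v 2 - u 2 * v 1, u 2 * v 0 - u 0 * v 2, u 0 * v 1 - u 1 * v 0]

/-- The dot product. -/
def dp (u v : Fin 3 → F) : F := u 0 * v 0 + u 1 * v 1 + u 2 * v 2

/-- The determinant. -/
def d3 (u v w : Fin 3 → F) : F := dp u (cr v w)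

/-- The dot product of `η` and of the cross product of `(X 0, X 1, X 2)` and
`(X 0 ^ q, X 1 ^ q, X 2 ^ q)`. -/
noncomputable def Dt (q : ℕ) (η : Fin 3 → F) : MvPolynomial (Fin 3) F :=
  C (η 0) * (X 1 * X 2 ^ q - X 2 * X 1 ^ q) + C (η 1) * (X 2 * X 0 ^ q - X 0 * X 2 ^ q)
    + C (η 2) * (X 0 * X 1 ^ q - X 1 * X 0 ^ q)

/-- Any three vectors of the family are linearly independent. -/
structure Arc3 {ι : Type*} (v : ι → Fin 3 → F) : Prop where
  ne : ∀ i, v i ≠ 0
  two : ∀ i j, i ≠ j → cr (v i) (v j) ≠ 0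
  three : ∀ i j k, i ≠ j → i ≠ k → j ≠ k → d3 (v i) (v j) (v k) ≠ 0

/-- The product of the linear forms of a family. -/
noncomputable def PK {ι : Type*} [Fintype ι] (v : ι → Fin 3 → F) : MvPolynomial (Fin 3) F :=
  ∏ i, lin (v i)

/-- Linear substitution `X 0 ↦ lin a`, `X 1 ↦ lin b`, `X 2 ↦ lin c`. -/
noncomputable def sb (a b c : Fin 3 → F) :
    MvPolynomial (Fin 3) F →ₐ[F] MvPolynomial (Fin 3) F :=
  aeval ![lin a, lin b, lin c]

/-- The form of degree `q + 2` whose mixed second derivatives are the `q`-th powers. -/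
noncomputable def Hq (F : Type*) [Field F] (q : ℕ) : MvPolynomial (Fin 3) F :=
  X 0 * X 1 * X 2 ^ q + X 1 * X 2 * X 0 ^ q + X 0 * X 2 * X 1 ^ q

/-- The functions `c` on a family `w` of vectors of the plane which are given, on the pencil of
every `w r`, by a form of degree `m`. -/
def CS {ι : Type*} (w : ι → Fin 3 → F) (m : ℕ) : Submodule F (ι → F) where
  carrier := {c | ∀ r, ∃ P : MvPolynomial (Fin 3) F, P.IsHomogeneous m ∧
    ∀ x, x ≠ r → c x = eval (cr (w r) (w x)) P}
  zero_mem' := fun r => ⟨0, isHomogeneous_zero _ _ _, fun x _ => by simp⟩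
  add_mem' := by
    intro c c' hc hc' r
    obtain ⟨P, hP, h⟩ := hc r
    obtain ⟨P', hP', h'⟩ := hc' r
    exact ⟨P + P', hP.add hP', fun x hx => by simp [h x hx, h' x hx]⟩
  smul_mem' := by
    intro a c hc r
    obtain ⟨P, hP, h⟩ := hc r
    exact ⟨C a * P, by simpa using (isHomogeneous_C (Fin 3) a).mul hP,
      fun x hx => by simp [h x hx]⟩

/-- The forms `G` of degree `j` such that `G * Pi` lies in the ideal `(X 0 ^ m, X 1 ^ m, X 2 ^ m)`:
all monomials of `G * Pi` have an exponent `≥ m`. -/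
def JI (Pi : MvPolynomial (Fin 3) F) (m j : ℕ) : Submodule F (MvPolynomial (Fin 3) F) where
  carrier := {G | G.IsHomogeneous j ∧ ∀ α : Fin 3 →₀ ℕ, (∀ i, α i < m) → coeff α (G * Pi) = 0}
  zero_mem' := ⟨isHomogeneous_zero _ _ _, fun α _ => by simp⟩
  add_mem' := by
    rintro G G' ⟨h1, h2⟩ ⟨h1', h2'⟩
    exact ⟨h1.add h1', fun α hα => by rw [add_mul, coeff_add, h2 α hα, h2' α hα, add_zero]⟩
  smul_mem' := by
    rintro a G ⟨h1, h2⟩
    refine ⟨?_, fun α hα => ?_⟩
    · rw [smul_eq_C_mul]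
      simpa using (isHomogeneous_C (Fin 3) a).mul h1
    · rw [smul_mul_assoc, coeff_smul, h2 α hα, smul_zero]

end

end MDE
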