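import Pool.Agent.MDE.TOP
import Pool.Agent.MDE.COE
import Pool.Agent.MDS.FIN
import Pool.Agent.MDS.K1

/-!
# MDE.FIN: the main conjecture for MDS codes in even characteristic

Assembled from the stubs.
-/

set_option autoImplicit false

namespace MDE

open Finset

variable {F : Type} [Field F] [Fintype F] [DecidableEq F]

/-- No arc of size `q + 2` in dimension `k`, `2 ≤ k < q`, `k ≠ 3`, `k ≠ q - 1`. -/
theorem no_arc_all [CharP F 2] {k : ℕ} (hk2 : 2 ≤ k) (hkq : k < Fintype.card F)
    (h3 : k ≠ 3) (h1 : k ≠ Fintype.card F - 1)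
    (v : Fin (Fintype.card F + 2) → (Fin k → F)) : ¬ MDS.IsArc (F := F) v k := by
  intro hv
  rcases Nat.eq_or_lt_of_le hk2 with h2 | h4
  · subst h2
    exact MDS.no_arc_two v hv
  · exact no_arc_even (by omega) (by omega) v hv

/-- No arc of size `q + 3` in dimension `3` or `q - 1`. -/
theorem no_arc_plus [CharP F 2] {k : ℕ} (hk2 : 2 ≤ k) (hkq : k < Fintype.card F)
    (h : k = 3 ∨ k = Fintype.card F - 1)
    (v : Fin (Fintype.card F + 3) → (Fin k → F)) : ¬ MDS.IsArc (F := F) v k := by
  intro hv
  rcases h with h | h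
  · subst h
    exact no_arc_three v hv
  · by_cases hq : Fintype.card F = 4
    · have : k = 3 := by omega
      subst this
      exact no_arc_three v hv
    · have h2 : Even (Fintype.card F) := by
        obtain ⟨n, hn⟩ := FiniteField.card F 2
        rw [hn.2]
        exact (Nat.even_pow.2 ⟨even_two, n.ne_zero⟩)
      have hq6 : 6 ≤ Fintype.card F := by
        obtain ⟨r, hr⟩ := h2
        omega
      have hd := MDS.arc_dual (show k ≤ Fintype.card F + 3 by omega) v hv
      have e4 : Fintype.card F + 3 - k = 4 := by omega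
      rw [e4] at hd
      obtain ⟨v', hv'⟩ := hd
      have hle : Fintype.card F + 2 ≤ Fintype.card F + 3 := by omega
      exact no_arc_even (k := 4) le_rfl (by omega) (v' ∘ Fin.castLE hle)
        (MDS.IsArc.comp hv' (Fin.castLE hle) (Fin.castLE_injective hle))

theorem main_even (h2 : Even (Fintype.card F)) (k : ℕ) (hk2 : 2 ≤ k)
    (hkq : k < Fintype.card F) :
    IsGreatest
      {n : ℕ | ∃ C : Submodule F (Fin n → F), Module.finrank F C = k ∧
        ∀ x ∈ C, x ≠ 0 → n - k + 1 ≤ hammingNorm x}
      (if k = 3 ∨ k = Fintype.card F - 1 then Fintype.card F + 2 else Fintype.card F + 1) := by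
  have : CharP F 2 := by
    obtain ⟨p, hpc⟩ := CharP.exists F
    have hpp : p.Prime := CharP.char_is_prime F p
    haveI : Fact p.Prime := ⟨hpp⟩
    obtain ⟨n, hn⟩ := FiniteField.card F p
    have : p = 2 := by
      rw [hn.2] at h2
      exact hpp.eq_two_or_odd'.resolve_right (fun ho => by
        have := ho.pow (n := (n : ℕ))
        exact (Nat.not_even_iff_odd.2 this) h2)
    subst this
    exact hpc
  by_cases h : k = 3 ∨ k = Fintype.card F - 1
  · rw [if_pos h]
    constructor
    · obtain ⟨v0, hv0⟩ := hyperoval (F := F)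
      rcases h with h | h
      · subst h
        exact code_of_arc (by omega) v0 hv0
      · have hd := MDS.arc_dual (show 3 ≤ Fintype.card F + 2 by omega) v0 hv0
        have e : Fintype.card F + 2 - 3 = k := by omega
        rw [e] at hd
        obtain ⟨v', hv'⟩ := hd
        exact code_of_arc (by omega) v' hv'
    · rintro n ⟨C, hC, hw⟩
      by_contra hn
      push Not at hn
      obtain ⟨v, hv⟩ := MDS.arc_of_code (N := Fintype.card F + 3) (by omega) C hC hw
      exact no_arc_plus hk2 hkq h v hv
  · rw [if_neg h]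
    push Not at h
    constructor
    · obtain ⟨C, hC, hw⟩ := MDS.rs_code (F := F) k (by omega) hkq.le
      exact ⟨C, hC, hw⟩
    · rintro n ⟨C, hC, hw⟩
      by_contra hn
      push Not at hn
      obtain ⟨v, hv⟩ := MDS.arc_of_code (N := Fintype.card F + 2) (by omega) C hC hw
      exact no_arc_all hk2 hkq h.1 h.2 v hv

end MDE
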