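import Pool.Agent.MDE.HLF
import Pool.Agent.MDE.RES

/-!
# MDE.GCM: the forms attached to the elements of `CS`

`m = 2 ^ e`, `q = 2 m`, `w : κ → F^3` an arc, `#κ + t = 2 m + 2`, `t + 1 ≤ m`. `WS w m` is the space of the pairs
`(c, ψ)`, `ψ 0, ψ 1, ψ 2` forms of degree `m` with `ψ j (cr (w r) (w s)) = c s (w r j)^m + c r (w s j)^m`, such
that all `lin (w r)` divide `∑ X j ^ m * ψ j`.
`exists_psi`: for `c ∈ CS w m` there is `ψ` with `(c, ψ) ∈ WS w m`.
Proof. For each `r` let `P r` be the form with `c x = eval (cr (w r) (w x)) (P r)` (`x ≠ r`), `a`, `b` with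
`d3 (w r) a b = 1` and `f` from HLF.half_gen: `(d3 (w x) a b) ^ m = eval (cr (w r) (w x)) f`. By LIA.expand
`w x = d3 (w x) a b • w r + d3 (w r) (w x) b • a + d3 (w r) a (w x) • b`, and at `l = cr (w r) (w x)`:
`d3 (w r) (w x) b = dp b l`, `d3 (w r) a (w x) = - dp a l = dp a l`. So with
`Y r j := f * C ((w r j)^m) + (lin b)^m * C ((a j)^m) + (lin a)^m * C ((b j)^m)`: `eval l (Y r j) = (w x j)^m`
(additivity of `x ↦ x ^ m`). `M r j := P r * C ((w r j)^m) + C (c r) * Y r j`, homogeneous of degree `m`,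
`eval l (M r j) = c x (w r j)^m + c r (w x j)^m`, symmetric in `r, x` (and `cr (w x) (w r) = cr (w r) (w x)`,
characteristic 2). GLU.glue (for each `j`) gives `ψ j` with `lin (w r) ∣ ψ j - M r j`. Finally
`∑ X j ^ m * M r j = (P r + C (c r) * f) * (lin (w r))^m + C (c r) * 2 (lin a)^m (lin b)^m` (RES.lin_pow), divisible by
`lin (w r)`.
-/

set_option autoImplicit false

namespace MDE

open MvPolynomial

variable {F : Type*} [Field F]

/-- The pairs `(c, ψ)`. -/
noncomputable def WS {κ : Type*} (w : κ → Fin 3 → F) (m : ℕ) :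
    Submodule F ((κ → F) × (Fin 3 → MvPolynomial (Fin 3) F)) where
  carrier := {p | (∀ j, (p.2 j).IsHomogeneous m) ∧
    (∀ r s, r ≠ s → ∀ j, eval (cr (w r) (w s)) (p.2 j)
      = p.1 s * (w r j) ^ m + p.1 r * (w s j) ^ m) ∧
    ∀ r, lin (w r) ∣ ∑ j, X j ^ m * p.2 j}
  zero_mem' := ⟨fun j => isHomogeneous_zero _ _ _, fun r s _ j => by simp, fun r => by simp⟩
  add_mem' := by
    rintro p p' ⟨h1, h2, h3⟩ ⟨h1', h2', h3'⟩
    refine ⟨fun j => (h1 j).add (h1' j), fun r s hrs j => ?_, fun r => ?_⟩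
    · simp only [Prod.snd_add, Prod.fst_add, Pi.add_apply, map_add, h2 r s hrs j, h2' r s hrs j]
      ring
    · have : ∑ j, X j ^ m * (p + p').2 j
          = (∑ j, X j ^ m * p.2 j) + ∑ j, X j ^ m * p'.2 j := by
        rw [← Finset.sum_add_distrib]
        exact Finset.sum_congr rfl fun j _ => by simp [mul_add]
      rw [this]
      exact dvd_add (h3 r) (h3' r)
  smul_mem' := by
    rintro a p ⟨h1, h2, h3⟩
    refine ⟨fun j => ?_, fun r s hrs j => ?_, fun r => ?_⟩
    · have : (a • p).2 j = C a * p.2 j := by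
        simp [smul_eq_C_mul]
      rw [this]
      simpa using (isHomogeneous_C (Fin 3) a).mul (h1 j)
    · have e1 : (a • p).2 j = C a * p.2 j := by
        simp [smul_eq_C_mul]
      have e2 : (a • p).1 s = a * p.1 s := rfl
      have e3 : (a • p).1 r = a * p.1 r := rfl
      rw [e1, e2, e3, map_mul, eval_C, h2 r s hrs j]
      ring
    · have : ∑ j, X j ^ m * (a • p).2 j = C a * ∑ j, X j ^ m * p.2 j := by
        rw [Finset.mul_sum]
        refine Finset.sum_congr rfl fun j _ => ?_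
        have e1 : (a • p).2 j = C a * p.2 j := by
          simp [smul_eq_C_mul]
        rw [e1]
        ring
      rw [this]
      exact Dvd.dvd.mul_left (h3 r) _

private theorem gcm_add [CharP F 2] (e : ℕ) (x y : F) :
    (x + y) ^ (2 ^ e) = x ^ (2 ^ e) + y ^ (2 ^ e) := by
  haveI : Fact (Nat.Prime 2) := ⟨Nat.prime_two⟩
  exact add_pow_char_pow x y 2 e

private theorem gcm_local [Fintype F] [CharP F 2] {κ : Type*} [Fintype κ] {w : κ → Fin 3 → F}
    (hw : Arc3 w) {e m t : ℕ} (hm : m = 2 ^ e) (hq : Fintype.card F = 2 * m) (hm2 : 2 ≤ m)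
    (hN : Fintype.card κ + t = 2 * m + 2) (ht : t + 1 ≤ m) {c : κ → F} (hc : c ∈ CS w m) (r : κ) :
    ∃ M : Fin 3 → MvPolynomial (Fin 3) F, (∀ j, (M j).IsHomogeneous m) ∧
      (∀ x, x ≠ r → ∀ j, eval (cr (w r) (w x)) (M j) = c x * (w r j) ^ m + c r * (w x j) ^ m) ∧
      lin (w r) ∣ ∑ j, X j ^ m * M j := by
  have h2 : (2 : F) = 0 := CharTwo.two_eq_zero
  have hC2 : (2 : MvPolynomial (Fin 3) F) = 0 := by
    have : (2 : MvPolynomial (Fin 3) F) = C (2 : F) := (map_ofNat C 2).symm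
    rw [this, h2, C_0]
  obtain ⟨P, hP, hPe⟩ := hc r
  obtain ⟨a, b, hab⟩ := exists_basis1 (hw.ne r)
  obtain ⟨f, hf, hfe⟩ := half_gen hw m t hq hm2 hN (by omega) r a b hab
  have hla : (lin a ^ m).IsHomogeneous m := by
    simpa using (lin_hom a).pow m
  have hlb : (lin b ^ m).IsHomogeneous m := by
    simpa using (lin_hom b).pow m
  have hC : ∀ (z : F) {Q : MvPolynomial (Fin 3) F}, Q.IsHomogeneous m →
      (Q * C z).IsHomogeneous m := by
    intro z Q hQ
    simpa using hQ.mul (isHomogeneous_C (Fin 3) z)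
  have hC' : ∀ (z : F) {Q : MvPolynomial (Fin 3) F}, Q.IsHomogeneous m →
      (C z * Q).IsHomogeneous m := by
    intro z Q hQ
    simpa using (isHomogeneous_C (Fin 3) z).mul hQ
  refine ⟨fun j => P * C ((w r j) ^ m) + C (c r) * (f * C ((w r j) ^ m)
    + lin b ^ m * C ((a j) ^ m) + lin a ^ m * C ((b j) ^ m)), ?_, ?_, ?_⟩
  · intro j
    exact (hC _ hP).add (hC' _ (((hC _ hf).add (hC _ hlb)).add (hC _ hla)))
  · intro x hx j
    have e1 : dp b (cr (w r) (w x)) = d3 (w r) (w x) b := by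
      rw [dp_cr_eq, d3_cyc]
    have e2 : dp a (cr (w r) (w x)) = d3 (w r) a (w x) := by
      rw [dp_cr_eq, d3_swap]
      linear_combination (- d3 (w r) a (w x)) * h2
    have e3 : w x j = d3 (w x) a b * w r j + d3 (w r) (w x) b * a j + d3 (w r) a (w x) * b j := by
      have := congrFun (expand hab (w x)) j
      simpa [Pi.add_apply, Pi.smul_apply, smul_eq_mul] using this
    have e4 : (w x j) ^ m = (d3 (w x) a b) ^ m * (w r j) ^ m
        + (d3 (w r) (w x) b) ^ m * (a j) ^ m + (d3 (w r) a (w x)) ^ m * (b j) ^ m := by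
      rw [e3, hm, gcm_add, gcm_add, mul_pow, mul_pow, mul_pow]
    simp only [map_add, map_mul, map_pow, eval_C, eval_lin]
    rw [e1, e2, ← hPe x hx, ← hfe x hx, e4]
  · have hs : ∀ v : Fin 3 → F, ∑ j, X j ^ m * C ((v j) ^ m) = lin v ^ m := by
      intro v
      rw [hm, lin_pow]
      exact Finset.sum_congr rfl fun j _ => mul_comm _ _
    have key : ∑ j, X j ^ m * (P * C ((w r j) ^ m) + C (c r) * (f * C ((w r j) ^ m)
        + lin b ^ m * C ((a j) ^ m) + lin a ^ m * C ((b j) ^ m)))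
        = (P + C (c r) * f) * lin (w r) ^ m := by
      have h3 : ∑ j, X j ^ m * (P * C ((w r j) ^ m) + C (c r) * (f * C ((w r j) ^ m)
        + lin b ^ m * C ((a j) ^ m) + lin a ^ m * C ((b j) ^ m)))
          = (P + C (c r) * f) * (∑ j, X j ^ m * C ((w r j) ^ m))
            + C (c r) * lin b ^ m * (∑ j, X j ^ m * C ((a j) ^ m))
            + C (c r) * lin a ^ m * (∑ j, X j ^ m * C ((b j) ^ m)) := by
        rw [Finset.mul_sum, Finset.mul_sum, Finset.mul_sum, ← Finset.sum_add_distrib,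
          ← Finset.sum_add_distrib]
        exact Finset.sum_congr rfl fun j _ => by ring
      rw [h3, hs, hs, hs]
      linear_combination (C (c r) * lin b ^ m * lin a ^ m) * hC2
    change lin (w r) ∣ ∑ j, X j ^ m * (P * C ((w r j) ^ m) + C (c r) * (f * C ((w r j) ^ m)
        + lin b ^ m * C ((a j) ^ m) + lin a ^ m * C ((b j) ^ m)))
    rw [key]
    exact Dvd.dvd.mul_left (dvd_pow_self _ (by omega)) _

theorem exists_psi [Fintype F] [CharP F 2] {κ : Type*} [Fintype κ] {w : κ → Fin 3 → F}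
    (hw : Arc3 w) {e m t : ℕ} (hm : m = 2 ^ e) (hq : Fintype.card F = 2 * m) (hm2 : 2 ≤ m)
    (hN : Fintype.card κ + t = 2 * m + 2) (ht : t + 1 ≤ m) {c : κ → F} (hc : c ∈ CS w m) :
    ∃ ψ, (c, ψ) ∈ WS w m := by
  classical
  have h2 : (2 : F) = 0 := CharTwo.two_eq_zero
  choose M hM hMe hMd using fun r => gcm_local hw hm hq hm2 hN ht hc r
  have hsw : ∀ r s, cr (w r) (w s) = cr (w s) (w r) := by
    intro r s
    rw [cr_swap]
    funext k
    rw [Pi.neg_apply]
    linear_combination (- cr (w s) (w r) k) * h2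
  have hg : ∀ j, ∃ Φ : MvPolynomial (Fin 3) F, Φ.IsHomogeneous m ∧
      ∀ i, lin (w i) ∣ Φ - M i j := by
    intro j
    refine glue hw m (fun i => M i j) (fun i => hM i j) ?_
    intro r s hrs
    rw [hMe r s (Ne.symm hrs) j, hsw r s, hMe s r hrs j]
    ring
  choose ψ hψ hψd using hg
  refine ⟨ψ, ?_, ?_, ?_⟩
  · exact hψ
  · intro r s hrs j
    have h1 := eval_eq_of_dvd (hψd j r) (dp_cr_left (w r) (w s))
    exact h1.trans (hMe r s (Ne.symm hrs) j)
  · intro r
    have h1 : ∑ j, X j ^ m * ψ j = (∑ j, X j ^ m * (ψ j - M r j)) + ∑ j, X j ^ m * M r j := by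
      rw [← Finset.sum_add_distrib]
      exact Finset.sum_congr rfl fun j _ => by ring
    change lin (w r) ∣ ∑ j, X j ^ m * ψ j
    rw [h1]
    refine dvd_add ?_ (hMd r)
    exact Finset.dvd_sum fun j _ => Dvd.dvd.mul_left (hψd j r) _

end MDE
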