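import Pool.Agent.MDE.VNN

/-!
# MDE.GLU: the gluing lemma, and divisibility by all the lines

* `dvd_PK`: if all `lin (v i)` divide `G` then their product divides `G`: induction on the finite set
  of lines: `G = (∏ i ∈ E, lin (v i)) * Q`, and the prime `lin (v j)` (SUB.lin_prime) divides no
  `lin (v i)` (SUB.lin_not_dvd), so it divides `Q` (`Prime.dvd_mul`, `Prime.dvd_finsetProd_iff`).
* `eq_zero_of_dvd`: total degree.
* `dvd_PK_hom`: the quotient is homogeneous by SPL.hom_div.
* `glue`: induction on a finite set `E` of indices (statement for the family restricted to `E`):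
  `E = ∅`: `Φ = 0`. `insert j E'`: given `Φ` for `E'`; `G j - Φ` vanishes at the nodes `cr (v j) (v i)`,
  `i ∈ E'` (`Φ` and `G i` agree there since `lin (v i) ∣ Φ - G i`, SUB.eval_eq_of_dvd; `cr (v j) (v i) =
  - cr (v i) (v j)`, and both lie on the line `i`). If `#E' ≤ d`: VNN.van gives `Q` with
  `lin (v j) ∣ (G j - Φ) - Q * ∏ i ∈ E', lin (v i)`; new `Φ' = Φ + Q * ∏ i ∈ E', lin (v i)`. If
  `d < #E'`: VNN.van_lt gives `lin (v j) ∣ G j - Φ`, keep `Φ`.
-/

set_option autoImplicit false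

namespace MDE

open MvPolynomial

variable {F : Type*} [Field F]

private theorem glu_prod_dvd {ι : Type*} {v : ι → Fin 3 → F} (hv : Arc3 v)
    {G : MvPolynomial (Fin 3) F} (E : Finset ι) (h : ∀ i ∈ E, lin (v i) ∣ G) :
    ∏ i ∈ E, lin (v i) ∣ G := by
  classical
  induction E using Finset.induction_on with
  | empty => simp
  | insert j E hj ih =>
    obtain ⟨Q, hQ⟩ := ih fun i hi => h i (Finset.mem_insert_of_mem hi)
    have hp : Prime (lin (v j)) := lin_prime (hv.ne j)
    have h1 : lin (v j) ∣ (∏ i ∈ E, lin (v i)) * Q := by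
      rw [← hQ]
      exact h j (Finset.mem_insert_self j E)
    rcases hp.dvd_or_dvd h1 with h2 | h2
    · obtain ⟨i, hi, hdvd⟩ := (hp.dvd_finsetProd_iff _).1 h2
      have hne : j ≠ i := by
        rintro rfl
        exact hj hi
      exact (lin_not_dvd (hv.two j i hne) hdvd).elim
    · obtain ⟨Q', hQ'⟩ := h2
      rw [Finset.prod_insert hj, hQ, hQ']
      exact ⟨Q', by ring⟩

theorem dvd_PK {ι : Type*} [Fintype ι] {v : ι → Fin 3 → F} (hv : Arc3 v)
    {G : MvPolynomial (Fin 3) F} (h : ∀ i, lin (v i) ∣ G) : PK v ∣ G :=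
  glu_prod_dvd hv Finset.univ fun i _ => h i

private theorem glu_prod_hom {ι : Type*} (v : ι → Fin 3 → F) (E : Finset ι) :
    (∏ i ∈ E, lin (v i)).IsHomogeneous E.card := by
  have h := IsHomogeneous.prod E (fun i => lin (v i)) (fun _ => 1) fun i _ => lin_hom (v i)
  simpa using h

theorem PK_hom {ι : Type*} [Fintype ι] (v : ι → Fin 3 → F) :
    (PK v).IsHomogeneous (Fintype.card ι) := glu_prod_hom v Finset.univ

theorem PK_ne {ι : Type*} [Fintype ι] {v : ι → Fin 3 → F} (hv : Arc3 v) : PK v ≠ 0 :=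
  Finset.prod_ne_zero_iff.2 fun i _ => lin_ne (hv.ne i)

/-- A polynomial of small total degree divisible by all the linear forms vanishes. -/
theorem eq_zero_of_dvd {ι : Type*} [Fintype ι] {v : ι → Fin 3 → F} (hv : Arc3 v)
    {G : MvPolynomial (Fin 3) F} (hd : G.totalDegree < Fintype.card ι)
    (h : ∀ i, lin (v i) ∣ G) : G = 0 := by
  by_contra hG
  obtain ⟨Q, hQ⟩ := dvd_PK hv h
  have hQ0 : Q ≠ 0 := by
    rintro rfl
    exact hG (by rw [hQ, mul_zero])
  have h1 : (PK v).totalDegree = Fintype.card ι := (PK_hom v).totalDegree (PK_ne hv)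
  rw [hQ, totalDegree_mul_of_isDomain (PK_ne hv) hQ0, h1] at hd
  omega

/-- The same for forms. -/
theorem eq_zero_of_dvd_hom {ι : Type*} [Fintype ι] {v : ι → Fin 3 → F} (hv : Arc3 v)
    {G : MvPolynomial (Fin 3) F} {d : ℕ} (hG : G.IsHomogeneous d) (hd : d < Fintype.card ι)
    (h : ∀ i, lin (v i) ∣ G) : G = 0 :=
  eq_zero_of_dvd hv (lt_of_le_of_lt hG.totalDegree_le hd) h

theorem dvd_PK_hom {ι : Type*} [Fintype ι] {v : ι → Fin 3 → F} (hv : Arc3 v)
    {G : MvPolynomial (Fin 3) F} {d : ℕ} (hG : G.IsHomogeneous (d + Fintype.card ι))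
    (h : ∀ i, lin (v i) ∣ G) : ∃ Q, Q.IsHomogeneous d ∧ G = Q * PK v := by
  obtain ⟨Q, hQ⟩ := dvd_PK hv h
  refine ⟨Q, hom_div (PK_hom v) (PK_ne hv) ?_, by rw [hQ, mul_comm]⟩
  rw [← hQ, add_comm]
  exact hG

/-- Forms on the lines which agree at the nodes come from a form on the plane. -/
theorem glue {ι : Type*} [Fintype ι] {v : ι → Fin 3 → F} (hv : Arc3 v) (d : ℕ)
    (G : ι → MvPolynomial (Fin 3) F) (hG : ∀ i, (G i).IsHomogeneous d)
    (hs : ∀ i j, i ≠ j → eval (cr (v i) (v j)) (G i) = eval (cr (v i) (v j)) (G j)) :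
    ∃ Φ : MvPolynomial (Fin 3) F, Φ.IsHomogeneous d ∧ ∀ i, lin (v i) ∣ Φ - G i := by
  classical
  have key : ∀ E : Finset ι, ∃ Φ : MvPolynomial (Fin 3) F, Φ.IsHomogeneous d ∧
      ∀ i ∈ E, lin (v i) ∣ Φ - G i := by
    intro E
    induction E using Finset.induction_on with
    | empty => exact ⟨0, isHomogeneous_zero _ _ _, by simp⟩
    | insert j E hj ih =>
      obtain ⟨Φ, hΦ, hE⟩ := ih
      have hne : ∀ i ∈ E, j ≠ i := by
        rintro i hi rfl
        exact hj hi
      have hH : (G j - Φ).IsHomogeneous d := (hG j).sub hΦ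
      have h0 : ∀ i ∈ E, eval (cr (v j) (v i)) (G j - Φ) = 0 := by
        intro i hi
        have h1 := eval_eq_of_dvd (hE i hi) (dp_cr_right (v j) (v i))
        rw [map_sub, h1, hs j i (hne i hi), sub_self]
      have h2 : ∀ i ∈ E, cr (v j) (v i) ≠ 0 := fun i hi => hv.two j i (hne i hi)
      have h3 : ∀ i ∈ E, ∀ k ∈ E, i ≠ k → d3 (v j) (v i) (v k) ≠ 0 :=
        fun i hi k hk hik => hv.three j i k (hne i hi) (hne k hk) hik
      by_cases hc : E.card ≤ d
      · have hH' : (G j - Φ).IsHomogeneous (d - E.card + E.card) := by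
          rw [Nat.sub_add_cancel hc]
          exact hH
        obtain ⟨Q, hQ, hdvd⟩ := van (v j) v E h2 h3 (d - E.card) (G j - Φ) hH' h0
        refine ⟨Φ + Q * ∏ i ∈ E, lin (v i), ?_, ?_⟩
        · have h4 := hQ.mul (glu_prod_hom v E)
          rw [Nat.sub_add_cancel hc] at h4
          exact hΦ.add h4
        · intro i hi
          rcases Finset.mem_insert.1 hi with rfl | hi
          · have h5 : Φ + Q * ∏ k ∈ E, lin (v k) - G i = -(G i - Φ - Q * ∏ k ∈ E, lin (v k)) := by
              ring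
            rw [h5]
            exact (dvd_neg).2 hdvd
          · have h5 : Φ + Q * ∏ k ∈ E, lin (v k) - G i = (Φ - G i) + Q * ∏ k ∈ E, lin (v k) := by
              ring
            rw [h5]
            exact dvd_add (hE i hi) (Dvd.dvd.mul_left (Finset.dvd_prod_of_mem _ hi) Q)
      · have hdvd := van_lt (v j) v E h2 h3 d (not_le.1 hc) (G j - Φ) hH h0
        refine ⟨Φ, hΦ, ?_⟩
        intro i hi
        rcases Finset.mem_insert.1 hi with rfl | hi
        · have h5 : Φ - G i = -(G i - Φ) := by ring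
          rw [h5]
          exact (dvd_neg).2 hdvd
        · exact hE i hi
  obtain ⟨Φ, hΦ, h⟩ := key Finset.univ
  exact ⟨Φ, hΦ, fun i => h i (Finset.mem_univ i)⟩

/-- A form of degree smaller than the number of nodes on a line is determined there by its values
at the nodes. -/
theorem dvd_of_nodes {ι : Type*} [Fintype ι] {v : ι → Fin 3 → F} (hv : Arc3 v) (r : ι)
    {G : MvPolynomial (Fin 3) F} {d : ℕ} (hG : G.IsHomogeneous d)
    (hd : d + 1 < Fintype.card ι) (h0 : ∀ i, i ≠ r → eval (cr (v r) (v i)) G = 0) :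
    lin (v r) ∣ G := by
  classical
  refine van_lt (v r) v (Finset.univ.erase r) ?_ ?_ d ?_ G hG ?_
  · intro i hi
    exact hv.two r i (Finset.ne_of_mem_erase hi).symm
  · intro i hi j hj hij
    exact hv.three r i j (Finset.ne_of_mem_erase hi).symm (Finset.ne_of_mem_erase hj).symm hij
  · rw [Finset.card_erase_of_mem (Finset.mem_univ r), Finset.card_univ]
    omega
  · intro i hi
    exact h0 i (Finset.ne_of_mem_erase hi)

end MDE
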