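import Mathlib

/-!
# MDE.GRW: spaces of binary forms (Mathlib only)

* `fin_sub`: `MvPolynomial.homogeneousSubmodule (Fin 2) F n` is finite dimensional of dimension `≤ n + 1`: it is
  spanned by the monomials `X 0 ^ a * X 1 ^ (n - a)`, `a ≤ n` (or `homogeneousSubmodule_eq_finsupp_supported`).
  So a submodule `W` of homogeneous elements of degree `n` is finite dimensional, `finrank W ≤ n + 1`
  (`Submodule.finrank_mono`, `FiniteDimensional` of a submodule: `Submodule.finiteDimensional_of_le`).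
* `grow`: let `W ≠ 0`. The map `P ↦ X 0 * P` is injective, its image `U` in `W'` has dimension `finrank W`. For
  `P ≠ 0` homogeneous let `ord P` be the largest exponent of `X 1` in `P` (`degreeOf 1 P`), `k` the maximum
  over the nonzero elements of `W` (`≤ n`), attained at `P0`. Then `X 1 * P0` has `degreeOf 1 = k + 1`, while
  `degreeOf 1 (X 0 * P) = degreeOf 1 P ≤ k` for `P ∈ W`; so `X 1 * P0 ∈ W'` is not in `U`, `U < W'` and
  `finrank U < finrank W'` (`Submodule.finrank_lt_finrank_of_lt`).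
-/

set_option autoImplicit false

namespace MDE

open MvPolynomial

variable {F : Type*} [Field F]

private noncomputable def GRW_f (F : Type*) [Field F] (n : ℕ) :
    homogeneousSubmodule (Fin 2) F n →ₗ[F] (Fin (n + 1) → F) where
  toFun P i := coeff (Finsupp.single 0 (i : ℕ) + Finsupp.single 1 (n - (i : ℕ))) (P : MvPolynomial (Fin 2) F)
  map_add' P Q := by
    funext i
    simp
  map_smul' c P := by
    funext i
    simp

private theorem GRW_inj (F : Type*) [Field F] (n : ℕ) : Function.Injective (GRW_f F n) := by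
  rw [← LinearMap.ker_eq_bot, LinearMap.ker_eq_bot']
  intro P hP
  apply Subtype.ext
  ext d
  rw [ZeroMemClass.coe_zero, coeff_zero]
  by_contra h
  have h1 : d.degree = n := by
    by_contra hcon
    exact h (((mem_homogeneousSubmodule n _).1 P.2).coeff_eq_zero hcon)
  rw [Finsupp.degree_eq_sum, Fin.sum_univ_two] at h1
  have h2 : d = Finsupp.single 0 (d 0) + Finsupp.single 1 (n - d 0) := by
    ext i
    fin_cases i
    · simp
    · simp
      omega
  have h3 := congrFun hP ⟨d 0, by omega⟩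
  apply h
  rw [h2]
  exact h3

instance fin_hom2 (n : ℕ) : FiniteDimensional F (homogeneousSubmodule (Fin 2) F n) :=
  Module.Finite.iff_fg.2 (homogeneousSubmodule_fg _ _ n)

theorem finrank_hom2 (n : ℕ) :
    Module.finrank F (homogeneousSubmodule (Fin 2) F n) ≤ n + 1 := by
  have h := LinearMap.finrank_le_finrank_of_injective (GRW_inj F n)
  rwa [Module.finrank_fin_fun] at h

instance fin_hom3 (n : ℕ) : FiniteDimensional F (homogeneousSubmodule (Fin 3) F n) :=
  Module.Finite.iff_fg.2 (homogeneousSubmodule_fg _ _ n)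

theorem fin_sub2 {n : ℕ} {W : Submodule F (MvPolynomial (Fin 2) F)}
    (hW : ∀ P ∈ W, P.IsHomogeneous n) : FiniteDimensional F W :=
  Submodule.finiteDimensional_of_le (S₂ := homogeneousSubmodule (Fin 2) F n) hW

theorem fin_sub3 {n : ℕ} {W : Submodule F (MvPolynomial (Fin 3) F)}
    (hW : ∀ P ∈ W, P.IsHomogeneous n) : FiniteDimensional F W :=
  Submodule.finiteDimensional_of_le (S₂ := homogeneousSubmodule (Fin 3) F n) hW

private noncomputable def GRW_c (W : Submodule F (MvPolynomial (Fin 3) F)) : W →ₗ[F] F where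
  toFun P := coeff 0 (P : MvPolynomial (Fin 3) F)
  map_add' P Q := by simp
  map_smul' c P := by simp

theorem finrank_hom3_zero {W : Submodule F (MvPolynomial (Fin 3) F)}
    (hW : ∀ P ∈ W, P.IsHomogeneous 0) : Module.finrank F W ≤ 1 := by
  have hinj : Function.Injective (GRW_c W) := by
    rw [← LinearMap.ker_eq_bot, LinearMap.ker_eq_bot']
    intro P hP
    apply Subtype.ext
    ext d
    rw [ZeroMemClass.coe_zero, coeff_zero]
    by_cases hd : d = 0
    · rw [hd]
      exact hP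
    · refine (hW P P.2).coeff_eq_zero ?_
      intro h
      exact hd ((Finsupp.degree_eq_zero_iff d).1 h)
  have h := LinearMap.finrank_le_finrank_of_injective hinj
  rwa [Module.finrank_self] at h

private theorem GRW_max {n : ℕ} {W : Submodule F (MvPolynomial (Fin 2) F)}
    (hW : ∀ P ∈ W, P.IsHomogeneous n) (h0 : W ≠ ⊥) :
    ∃ P0 ∈ W, P0 ≠ 0 ∧ ∀ P ∈ W, P ≠ 0 → degreeOf 1 P ≤ degreeOf 1 P0 := by
  obtain ⟨Q, hQ, hQ0⟩ := (Submodule.ne_bot_iff _).1 h0
  obtain ⟨S, hS⟩ : ∃ S : Set ℕ, S = {k | ∃ P ∈ W, P ≠ 0 ∧ degreeOf 1 P = k} := ⟨_, rfl⟩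
  have hne : S.Nonempty := ⟨_, by rw [hS]; exact ⟨Q, hQ, hQ0, rfl⟩⟩
  have hbd : BddAbove S := by
    refine ⟨n, ?_⟩
    intro k hk
    rw [hS] at hk
    obtain ⟨P, hP, _, rfl⟩ := hk
    exact (degreeOf_le_totalDegree P 1).trans (hW P hP).totalDegree_le
  have h1 := Nat.sSup_mem hne hbd
  have h1' := h1
  rw [hS] at h1'
  obtain ⟨P0, hP0, hP00, hk⟩ := h1'
  refine ⟨P0, hP0, hP00, fun P hP hP' => ?_⟩
  rw [hk, ← hS]
  exact le_csSup hbd (by rw [hS]; exact ⟨P, hP, hP', rfl⟩)

theorem grow {n : ℕ} {W W' : Submodule F (MvPolynomial (Fin 2) F)}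
    (hW : ∀ P ∈ W, P.IsHomogeneous n) (hW' : ∀ P ∈ W', P.IsHomogeneous (n + 1)) (h0 : W ≠ ⊥)
    (hx : ∀ P ∈ W, X 0 * P ∈ W') (hy : ∀ P ∈ W, X 1 * P ∈ W') :
    Module.finrank F W + 1 ≤ Module.finrank F W' := by
  have hf' : FiniteDimensional F W' := fin_sub2 hW'
  obtain ⟨P0, hP0, hP00, hmax⟩ := GRW_max hW h0
  have hinj : Function.Injective (LinearMap.mulLeft F (X 0 : MvPolynomial (Fin 2) F)) := by
    intro P Q h
    exact mul_left_cancel₀ (X_ne_zero _) h
  have hle : W.map (LinearMap.mulLeft F (X 0 : MvPolynomial (Fin 2) F)) ≤ W' := by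
    rintro _ ⟨P, hP, rfl⟩
    exact hx P hP
  have hnot : X 1 * P0 ∉ W.map (LinearMap.mulLeft F (X 0 : MvPolynomial (Fin 2) F)) := by
    rintro ⟨P, hP, hPe⟩
    rw [LinearMap.mulLeft_apply] at hPe
    have hPne : P ≠ 0 := by
      rintro rfl
      rw [mul_zero] at hPe
      exact mul_ne_zero (X_ne_zero _) hP00 hPe.symm
    have h1 : degreeOf 1 (X 0 * P) = degreeOf 1 P := by
      rw [mul_comm]
      exact degreeOf_mul_X_of_ne P (by decide)
    have h2 : degreeOf 1 (X 1 * P0) = degreeOf 1 P0 + 1 := by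
      rw [mul_comm]
      exact (degreeOf_mul_X_eq_degreeOf_add_one_iff 1 P0).2 hP00
    have h3 := hmax P hP hPne
    rw [hPe, h2] at h1
    omega
  have hlt : W.map (LinearMap.mulLeft F (X 0 : MvPolynomial (Fin 2) F)) < W' :=
    lt_of_le_of_ne hle fun h => hnot (by rw [h]; exact hy P0 hP0)
  have h1 := Submodule.finrank_lt_finrank_of_lt hlt
  rw [← (Submodule.equivMapOfInjective _ hinj W).finrank_eq] at h1
  exact h1

/-- Iterated form. -/
theorem grow_iter {d e : ℕ} (hde : d ≤ e) (W : ℕ → Submodule F (MvPolynomial (Fin 2) F))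
    (hW : ∀ n, ∀ P ∈ W n, P.IsHomogeneous n) (h0 : W d ≠ ⊥)
    (hx : ∀ n, ∀ P ∈ W n, X 0 * P ∈ W (n + 1)) (hy : ∀ n, ∀ P ∈ W n, X 1 * P ∈ W (n + 1)) :
    Module.finrank F (W d) + (e - d) ≤ Module.finrank F (W e) := by
  have key : W e ≠ ⊥ ∧ Module.finrank F (W d) + (e - d) ≤ Module.finrank F (W e) := by
    induction e, hde using Nat.le_induction with
    | base => exact ⟨h0, by simp⟩
    | succ e he ih =>
      obtain ⟨h1, h2⟩ := ih
      have h3 := grow (hW e) (hW (e + 1)) h1 (hx e) (hy e)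
      refine ⟨?_, by omega⟩
      intro hb
      rw [hb, finrank_bot] at h3
      omega
  exact key.2

end MDE
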