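import Pool.Agent.MDE.STR

/-!
# MDE.HLF: the half Frobenius property

`half`: `v i0 = e0 = ![1,0,0]`, `lin (v i0) = X 0`. By STR.structure_thm `Φ * PK v = Hq + ψ ^ 2`. `X 0`
divides `PK v` and `Hq F q` (`q = 2 m ≥ 2`), so `X 0 ∣ ψ`, `ψ = X 0 * f`; `ψ ^ 2` is homogeneous of degree
`2 (m + 1)`, so (SQR.hom_sq, SPL.hom_dvd) `f` is homogeneous of degree `m`. So
`(*) Φ * PK v = X0 (X1 X2^q + X1^q X2) + X1 X2 X0^q + X0^2 f^2`.
Let `x = v i`, `i ≠ i0`, `A = lin x`; `A ∣ PK v`. `cr e0 x = ![0, x 2, x 1]` (characteristic 2) is nonzero.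
Characteristic 2, `x_j ^ q = x_j`, `A^q = x0 X0^q + x1 X1^q + x2 X2^q` (TAN.lin_pow_card). Modulo `A`:
`x1 (X1 X2^q + X1^q X2) ≡ x0 (X0 X2^q + X0^q X2)` and `x2 (X1 X2^q + X1^q X2) ≡ x0 (X0 X1^q + X0^q X1)`.
* If `x 1 ≠ 0`: multiply (*) by `x1`: `0 ≡ X0^2 (x0 (X2^q + X0^(q-2) * X0 * X2) + x1 X1 X2 X0^(q-2) + x1 f^2)`
  modulo `A` (`q ≥ 4`). `A` is prime and does not divide `X 0 = lin e0`, so `A` divides the bracket;
  evaluate at `l = ![0, x 2, x 1]`: `x0 x1^q + x1 f(l)^2 = 0`, so `x0 = f(l)^2`.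
* If `x 1 = 0` then `x 2 ≠ 0`: the same with the other congruence.
Then `(x 0)^m = f(l)^(2 m) = f(l)^q = f(l)`.
`half_gen`: apply `half` to the family `w i = ![d3 (v i) a b, d3 (v i0) (v i) b, d3 (v i0) a (v i)]` of
coordinates in the basis `(v i0, a, b)`: `w i0 = ![1, 0, 0]`, `Arc3 w` by LIA.d3_coords (for `two`:
`cr (w i) (w j) ≠ 0`, use a vector `c` with `d3 (v i) (v j) c = 1`, LIA.exists_basis2, LIA.d3_coords and
LIA.cr_ne_of_d3; similarly `ne`). The form is `f' = aeval ![0, lin a, lin b] f` (up to signs, which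
do not matter in characteristic 2): at `cr (v i0) (v i)` its value is
`eval ![0, d3 a (v i0) (v i), d3 b (v i0) (v i)] f`, and `w i 2 = d3 (v i0) a (v i)`,
`w i 1 = d3 (v i0) (v i) b`.
-/

set_option autoImplicit false

namespace MDE

open MvPolynomial

variable {F : Type*} [Field F]

private theorem hlf_X0 : lin (![1, 0, 0] : Fin 3 → F) = X 0 := by
  simp [lin]

private theorem hlf_key [Fintype F] [CharP F 2] {x : Fin 3 → F} {f : MvPolynomial (Fin 3) F}
    (m : ℕ) (hq : Fintype.card F = 2 * m) (hm2 : 2 ≤ m) (i j : Fin 3)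
    (hij : (i = 1 ∧ j = 2) ∨ (i = 2 ∧ j = 1))
    (hA : lin x ∣ Hq F (2 * m) + (X 0 * f) ^ 2) (hx : x i ≠ 0) :
    (x 0) ^ m = eval ![0, x 2, x 1] f := by
  have h2 : (2 : F) = 0 := CharTwo.two_eq_zero
  have hC2 : (2 : MvPolynomial (Fin 3) F) = 0 := by
    have : (2 : MvPolynomial (Fin 3) F) = C (2 : F) := (map_ofNat C 2).symm
    rw [this, h2, C_0]
  have hpow : lin x ^ (2 * m) = C (x 0) * X 0 ^ (2 * m) + C (x 1) * X 1 ^ (2 * m)
      + C (x 2) * X 2 ^ (2 * m) := by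
    have := lin_pow_card x
    rwa [hq] at this
  obtain ⟨n, hn⟩ : ∃ n, 2 * m = n + 2 := ⟨2 * m - 2, by omega⟩
  have hn1 : n ≠ 0 := by omega
  have hx0 : x ≠ 0 := by
    rintro rfl
    simp at hx
  have hAprime := lin_prime hx0
  have hfr : ∀ c : F, c ^ (2 * m) = c := by
    intro c
    rw [← hq]
    exact FiniteField.pow_card c
  -- the main divisibility
  have hdvd : lin x ∣ (X 0 : MvPolynomial (Fin 3) F) ^ 2 *
      (C (x 0) * (X j ^ (2 * m) + X 0 ^ n * X 0 * X j) + C (x i) * X 1 * X 2 * X 0 ^ n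
        + C (x i) * f ^ 2) := by
    obtain ⟨Q, hQ⟩ := hA
    have e1 : (2 * m - 1) + 1 = 2 * m := by omega
    have hpow' : lin x * lin x ^ (2 * m - 1) = C (x 0) * X 0 ^ (2 * m) + C (x 1) * X 1 ^ (2 * m)
      + C (x 2) * X 2 ^ (2 * m) := by
      rw [← hpow, ← pow_succ', e1]
    rcases hij with ⟨rfl, rfl⟩ | ⟨rfl, rfl⟩
    · refine ⟨C (x 1) * Q + X 0 * X 2 ^ (2 * m) + lin x ^ (2 * m - 1) * (X 0 * X 2), ?_⟩
      have hl : lin x = C (x 0) * X 0 + C (x 1) * X 1 + C (x 2) * X 2 := rfl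
      have : lin x * (C (x 1) * Q + X 0 * X 2 ^ (2 * m) + lin x ^ (2 * m - 1) * (X 0 * X 2))
          = C (x 1) * (lin x * Q) + lin x * (X 0 * X 2 ^ (2 * m))
            + (lin x * lin x ^ (2 * m - 1)) * (X 0 * X 2) := by ring
      rw [this, hpow', ← hQ, hl, Hq]
      rw [hn]
      linear_combination (- X 0 * C (x 1) * X 1 * X 2 ^ (n + 2)
        - X 0 * C (x 1) * X 1 ^ (n + 2) * X 2 - X 0 * C (x 2) * X 2 ^ (n + 3)) * hC2
    · refine ⟨C (x 2) * Q + X 0 * X 1 ^ (2 * m) + lin x ^ (2 * m - 1) * (X 0 * X 1), ?_⟩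
      have hl : lin x = C (x 0) * X 0 + C (x 1) * X 1 + C (x 2) * X 2 := rfl
      have : lin x * (C (x 2) * Q + X 0 * X 1 ^ (2 * m) + lin x ^ (2 * m - 1) * (X 0 * X 1))
          = C (x 2) * (lin x * Q) + lin x * (X 0 * X 1 ^ (2 * m))
            + (lin x * lin x ^ (2 * m - 1)) * (X 0 * X 1) := by ring
      rw [this, hpow', ← hQ, hl, Hq]
      rw [hn]
      linear_combination (- X 0 * C (x 2) * X 2 * X 1 ^ (n + 2)
        - X 0 * C (x 2) * X 2 ^ (n + 2) * X 1 - X 0 * C (x 1) * X 1 ^ (n + 3)) * hC2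
  have hnot : ¬ lin x ∣ (X 0 : MvPolynomial (Fin 3) F) ^ 2 := by
    intro h
    have h' := hAprime.dvd_of_dvd_pow h
    rw [← hlf_X0] at h'
    refine lin_not_dvd ?_ h'
    intro hc
    rcases hij with ⟨rfl, rfl⟩ | ⟨rfl, rfl⟩
    · have := congrFun hc 2
      simp [cr] at this
      exact hx this
    · have := congrFun hc 1
      simp [cr] at this
      exact hx this
  have hB := (hAprime.dvd_mul.mp hdvd).resolve_left hnot
  have hev : eval ![0, x 2, x 1] (C (x 0) * (X j ^ (2 * m) + X 0 ^ n * X 0 * X j)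
      + C (x i) * X 1 * X 2 * X 0 ^ n + C (x i) * f ^ 2) = 0 := by
    have h1 : lin x ∣ (C (x 0) * (X j ^ (2 * m) + X 0 ^ n * X 0 * X j)
      + C (x i) * X 1 * X 2 * X 0 ^ n + C (x i) * f ^ 2) - 0 := by rwa [sub_zero]
    have h3 := eval_eq_of_dvd (l := ![0, x 2, x 1]) h1 (by
      simp only [dp, Matrix.cons_val_zero, Matrix.cons_val_one, Matrix.cons_val]
      linear_combination (x 1 * x 2) * h2)
    rw [h3, map_zero]
  set y := eval ![0, x 2, x 1] f with hy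
  have hxy : x 0 = y ^ 2 := by
    have hji : (![0, x 2, x 1] : Fin 3 → F) j = x i := by
      rcases hij with ⟨rfl, rfl⟩ | ⟨rfl, rfl⟩ <;> simp
    have h4 : x 0 * x i + x i * y ^ 2 = 0 := by
      simp only [map_add, map_mul, map_pow, eval_C, eval_X] at hev
      rw [hji, hfr] at hev
      simp only [Matrix.cons_val_zero, zero_pow hn1] at hev
      rw [← hy] at hev
      linear_combination hev
    have h5 : x i * (x 0 - y ^ 2) = 0 := by
      linear_combination h4 - (x i * y ^ 2) * h2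
    have := (mul_eq_zero.mp h5).resolve_left hx
    exact sub_eq_zero.mp this
  rw [hxy, ← pow_mul, hfr]

theorem half [Fintype F] [CharP F 2] {ι : Type*} [Fintype ι]
    {v : ι → Fin 3 → F} (hv : Arc3 v) (m t : ℕ) (hq : Fintype.card F = 2 * m) (hm2 : 2 ≤ m)
    (hN : Fintype.card ι + t = 2 * m + 2) (hm : m < Fintype.card ι) (i0 : ι)
    (h0 : v i0 = ![1, 0, 0]) :
    ∃ f : MvPolynomial (Fin 3) F, f.IsHomogeneous m ∧
      ∀ i, i ≠ i0 → (v i 0) ^ m = eval ![0, v i 2, v i 1] f := by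
  classical
  obtain ⟨Φ, ψ, hΦ, hst⟩ := structure_thm hv m t hq hN hm
  have he0 : (![1, 0, 0] : Fin 3 → F) ≠ 0 := by
    intro h
    have := congrFun h 0
    simp at this
  have hX0p : Prime (X 0 : MvPolynomial (Fin 3) F) := by
    rw [← hlf_X0]
    exact lin_prime he0
  have hPKd : ∀ i, lin (v i) ∣ PK v := fun i => Finset.dvd_prod_of_mem _ (Finset.mem_univ i)
  have hψ0 : (X 0 : MvPolynomial (Fin 3) F) ∣ ψ := by
    have h1 : (X 0 : MvPolynomial (Fin 3) F) ∣ Φ * PK v := by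
      have := hPKd i0
      rw [h0, hlf_X0] at this
      exact this.mul_left _
    have h2 : (X 0 : MvPolynomial (Fin 3) F) ∣ Hq F (2 * m) := by
      obtain ⟨n, hn⟩ : ∃ n, 2 * m = n + 1 := ⟨2 * m - 1, by omega⟩
      rw [Hq, hn]
      exact ⟨X 1 * X 2 ^ (n + 1) + X 1 * X 2 * X 0 ^ n + X 2 * X 1 ^ (n + 1), by ring⟩
    rw [hst] at h1
    exact hX0p.dvd_of_dvd_pow ((dvd_add_right h2).mp h1)
  have hψh : ψ.IsHomogeneous (m + 1) := by
    apply hom_sq
    have e : ψ ^ 2 = Φ * PK v - Hq F (2 * m) := by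
      rw [hst]; ring
    rw [e]
    have e2 : 2 * (m + 1) = t + Fintype.card ι := by omega
    refine IsHomogeneous.sub ?_ ?_
    · rw [e2]
      exact hΦ.mul (PK_hom v)
    · have := Hq_hom (F := F) (2 * m)
      have e3 : 2 * (m + 1) = 2 * m + 2 := by ring
      rwa [e3]
  rw [← hlf_X0] at hψ0
  obtain ⟨f, hf, hψf⟩ := hom_dvd he0 hψh hψ0
  rw [hlf_X0] at hψf
  refine ⟨f, hf, ?_⟩
  intro i hi
  have hA : lin (v i) ∣ Hq F (2 * m) + (X 0 * f) ^ 2 := by
    rw [← hψf, ← hst]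
    exact (hPKd i).mul_left _
  have htwo := hv.two i0 i (Ne.symm hi)
  rw [h0] at htwo
  by_cases h1 : v i 1 = 0
  · have h2' : v i 2 ≠ 0 := by
      intro h2'
      apply htwo
      funext k
      fin_cases k <;> simp [cr, h1, h2']
    exact hlf_key m hq hm2 2 1 (Or.inr ⟨rfl, rfl⟩) hA h2'
  · exact hlf_key m hq hm2 1 2 (Or.inl ⟨rfl, rfl⟩) hA h1

theorem half_gen [Fintype F] [CharP F 2] {ι : Type*} [Fintype ι]
    {v : ι → Fin 3 → F} (hv : Arc3 v) (m t : ℕ) (hq : Fintype.card F = 2 * m) (hm2 : 2 ≤ m)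
    (hN : Fintype.card ι + t = 2 * m + 2) (hm : m < Fintype.card ι) (i0 : ι)
    (a b : Fin 3 → F) (h0 : d3 (v i0) a b = 1) :
    ∃ f : MvPolynomial (Fin 3) F, f.IsHomogeneous m ∧
      ∀ i, i ≠ i0 → (d3 (v i) a b) ^ m = eval (cr (v i0) (v i)) f := by
  classical
  have h2 : (2 : F) = 0 := CharTwo.two_eq_zero
  set co : (Fin 3 → F) → (Fin 3 → F) := fun x =>
    ![d3 x a b, d3 (v i0) x b, d3 (v i0) a x] with hco
  have hcoord : ∀ x y z, d3 (co x) (co y) (co z) = d3 x y z := fun x y z => d3_coords h0 x y z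
  have hw : Arc3 (fun i => co (v i)) := by
    refine ⟨?_, ?_, ?_⟩
    · intro i
      obtain ⟨a', b', hab⟩ := exists_basis1 (hv.ne i)
      have h3 : d3 (co (v i)) (co a') (co b') ≠ 0 := by
        rw [hcoord, hab]
        exact one_ne_zero
      intro h4
      change co (v i) = 0 at h4
      rw [h4] at h3
      exact h3 (by simp [d3, dp])
    · intro i j hij
      obtain ⟨b', hb⟩ := exists_basis2 (hv.two i j hij)
      have h3 : d3 (co (v i)) (co (v j)) (co b') ≠ 0 := by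
        rw [hcoord, hb]
        exact one_ne_zero
      exact cr_ne_of_d3 h3
    · intro i j k hij hik hjk
      change d3 (co (v i)) (co (v j)) (co (v k)) ≠ 0
      rw [hcoord]
      exact hv.three i j k hij hik hjk
  have hw0 : (fun i => co (v i)) i0 = ![1, 0, 0] := by
    simp only [hco]
    rw [h0, d3_self_left, d3_self_out]
  obtain ⟨f, hf, hfe⟩ := half hw m t hq hm2 hN hm i0 hw0
  refine ⟨sb 0 a b f, sb_hom 0 a b hf, ?_⟩
  intro i hi
  have h5 := hfe i hi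
  simp only [hco, Matrix.cons_val_zero, Matrix.cons_val_one, Matrix.cons_val] at h5
  rw [h5, eval_sb]
  have e0 : dp 0 (cr (v i0) (v i)) = 0 := by simp [dp]
  have e1 : dp a (cr (v i0) (v i)) = d3 (v i0) a (v i) := by
    rw [dp_cr_eq, d3_swap]
    linear_combination (- d3 (v i0) a (v i)) * h2
  have e2 : dp b (cr (v i0) (v i)) = d3 (v i0) (v i) b := by
    rw [dp_cr_eq, d3_cyc]
  rw [e0, e1, e2]

end MDE
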