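import Pool.Agent.MDE.TAN

/-!
# MDE.HSS: the Hessian of `lin v * Dt q η`

Characteristic `2`, `q = |F|` (so `(q : F) = 0` and `pderiv i (X i ^ q) = 0`).
* `hess`: with `A := lin v`, `D := Dt q η`, for `i ≠ j` and `k` the third index:
  `∂_i ∂_j (A * D) = v_i ∂_j D + v_j ∂_i D + A ∂_i ∂_j D`,
  `∂_j D = η_k X_i^q + η_i X_k^q`, `∂_i D = η_k X_j^q + η_j X_k^q` (characteristic 2), so
  `v_i ∂_j D + v_j ∂_i D = (v_i η_i + v_j η_j) X_k^q + η_k (v_i X_i^q + v_j X_j^q)`, which is (using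
  `dp η v = 1`, `v_i^q = v_i` and `TAN.lin_pow_card`) `X_k^q + η_k A^q`; and `∂_i ∂_j Hq = X_k^q`.
  So `∂_i ∂_j (A * D - Hq) = η_k A^q + A ∂_i ∂_j D`.
* `hess_sq`: `∂_i ∂_j (A^2 * W) = A^2 ∂_i ∂_j W` for `i ≠ j` in characteristic two (`∂_i (A^2) = 0`).
-/

set_option autoImplicit false

namespace MDE

open MvPolynomial

variable {F : Type*} [Field F]

private theorem HSS_two [CharP F 2] : (2 : MvPolynomial (Fin 3) F) = 0 := by
  have h : (2 : F) = 0 := by
    have := CharP.cast_eq_zero F 2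
    exact_mod_cast this
  have h2 : (2 : MvPolynomial (Fin 3) F) = C (2 : F) := by
    rw [map_ofNat]
  rw [h2, h, C_0]

theorem hess_sq [CharP F 2] {v : Fin 3 → F} {P : MvPolynomial (Fin 3) F}
    (h : lin v ^ 2 ∣ P) (i j : Fin 3) : lin v ∣ pderiv i (pderiv j P) := by
  obtain ⟨W, rfl⟩ := h
  have h2 := HSS_two (F := F)
  have hd : ∀ (k : Fin 3) (V : MvPolynomial (Fin 3) F),
      pderiv k (lin v ^ 2 * V) = lin v ^ 2 * pderiv k V := by
    intro k V
    rw [pow_two, Derivation.leibniz, Derivation.leibniz]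
    simp only [smul_eq_mul]
    linear_combination V * lin v * pderiv k (lin v) * h2
  rw [hd, hd, pow_two, mul_assoc]
  exact dvd_mul_right _ _

private theorem HSS_dec : (0 : Fin 3) ≠ 1 ∧ (0 : Fin 3) ≠ 2 ∧ (1 : Fin 3) ≠ 0 ∧ (1 : Fin 3) ≠ 2 ∧
    (2 : Fin 3) ≠ 0 ∧ (2 : Fin 3) ≠ 1 := by decide

private theorem HSS_Q [Fintype F] (i j : Fin 3) :
    pderiv i (X j ^ Fintype.card F : MvPolynomial (Fin 3) F) = 0 := by
  have h : ((Fintype.card F : ℕ) : MvPolynomial (Fin 3) F) = 0 := by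
    rw [← map_natCast (C : F →+* MvPolynomial (Fin 3) F), FiniteField.cast_card_eq_zero, C_0]
  rw [Derivation.leibniz_pow, nsmul_eq_mul, h, zero_mul]

private theorem HSS_lin (v : Fin 3 → F) (i : Fin 3) : pderiv i (lin v) = C (v i) := by
  fin_cases i <;> simp [lin, pderiv_X]

private theorem HSS_D0 [Fintype F] (η : Fin 3 → F) : pderiv 0 (Dt (Fintype.card F) η) =
    C (η 2) * X 1 ^ Fintype.card F - C (η 1) * X 2 ^ Fintype.card F := by
  have h := HSS_Q (F := F)
  rw [Dt]
  simp only [map_add, map_sub, Derivation.leibniz, h, smul_eq_mul, pderiv_C, pderiv_X, Pi.single_apply]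
  norm_num [HSS_dec]
  try ring

private theorem HSS_D1 [Fintype F] (η : Fin 3 → F) : pderiv 1 (Dt (Fintype.card F) η) =
    C (η 0) * X 2 ^ Fintype.card F - C (η 2) * X 0 ^ Fintype.card F := by
  have h := HSS_Q (F := F)
  rw [Dt]
  simp only [map_add, map_sub, Derivation.leibniz, h, smul_eq_mul, pderiv_C, pderiv_X, Pi.single_apply]
  norm_num [HSS_dec]
  try ring

private theorem HSS_D2 [Fintype F] (η : Fin 3 → F) : pderiv 2 (Dt (Fintype.card F) η) =
    C (η 1) * X 0 ^ Fintype.card F - C (η 0) * X 1 ^ Fintype.card F := by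
  have h := HSS_Q (F := F)
  rw [Dt]
  simp only [map_add, map_sub, Derivation.leibniz, h, smul_eq_mul, pderiv_C, pderiv_X, Pi.single_apply]
  norm_num [HSS_dec]
  try ring

private theorem HSS_DD [Fintype F] (η : Fin 3 → F) (i j : Fin 3) :
    pderiv i (pderiv j (Dt (Fintype.card F) η)) = 0 := by
  have h := HSS_Q (F := F)
  fin_cases j
  · change pderiv i (pderiv 0 (Dt (Fintype.card F) η)) = 0
    rw [HSS_D0]
    simp [Derivation.leibniz, h]
  · change pderiv i (pderiv 1 (Dt (Fintype.card F) η)) = 0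
    rw [HSS_D1]
    simp [Derivation.leibniz, h]
  · change pderiv i (pderiv 2 (Dt (Fintype.card F) η)) = 0
    rw [HSS_D2]
    simp [Derivation.leibniz, h]

private theorem HSS_H0 [Fintype F] : pderiv 0 (Hq F (Fintype.card F)) =
    X 1 * X 2 ^ Fintype.card F + X 2 * X 1 ^ Fintype.card F := by
  have h := HSS_Q (F := F)
  rw [Hq]
  simp only [map_add, Derivation.leibniz, h, smul_eq_mul, pderiv_X, Pi.single_apply]
  norm_num [HSS_dec]
  try ring

private theorem HSS_H1 [Fintype F] : pderiv 1 (Hq F (Fintype.card F)) =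
    X 0 * X 2 ^ Fintype.card F + X 2 * X 0 ^ Fintype.card F := by
  have h := HSS_Q (F := F)
  rw [Hq]
  simp only [map_add, Derivation.leibniz, h, smul_eq_mul, pderiv_X, Pi.single_apply]
  norm_num [HSS_dec]
  try ring

private theorem HSS_H2 [Fintype F] : pderiv 2 (Hq F (Fintype.card F)) =
    X 1 * X 0 ^ Fintype.card F + X 0 * X 1 ^ Fintype.card F := by
  have h := HSS_Q (F := F)
  rw [Hq]
  simp only [map_add, Derivation.leibniz, h, smul_eq_mul, pderiv_X, Pi.single_apply]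
  norm_num [HSS_dec]
  try ring

private theorem HSS_AD [Fintype F] (v η : Fin 3 → F) (i j : Fin 3) :
    pderiv i (pderiv j (lin v * Dt (Fintype.card F) η)) =
      C (v j) * pderiv i (Dt (Fintype.card F) η) + C (v i) * pderiv j (Dt (Fintype.card F) η) := by
  rw [Derivation.leibniz, map_add]
  simp only [smul_eq_mul]
  rw [Derivation.leibniz, Derivation.leibniz, HSS_lin, HSS_lin, HSS_DD, pderiv_C]
  simp only [smul_eq_mul]
  ring

theorem hess [Fintype F] [CharP F 2] {v η : Fin 3 → F} (h : dp η v = 1) (i j : Fin 3)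
    (hij : i ≠ j) : lin v ∣ pderiv i (pderiv j
      (lin v * Dt (Fintype.card F) η - Hq F (Fintype.card F))) := by
  have h2 := HSS_two (F := F)
  have hQ := HSS_Q (F := F)
  have hη : C (η 0) * C (v 0) + C (η 1) * C (v 1) + C (η 2) * C (v 2) = (1 : MvPolynomial (Fin 3) F) := by
    rw [← C_mul, ← C_mul, ← C_mul, ← C_add, ← C_add]
    change C (dp η v) = 1
    rw [h, C_1]
  have hq : Fintype.card F ≠ 0 := Fintype.card_ne_zero
  rw [map_sub, map_sub, HSS_AD]
  have hdiv : ∀ c : F, lin v ∣ C c * lin v ^ Fintype.card F := fun c =>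
    Dvd.dvd.mul_left (dvd_pow_self _ hq) _
  have hpw := lin_pow_card (F := F) v
  have hc01 : C (v 1) * pderiv 0 (Dt (Fintype.card F) η) + C (v 0) * pderiv 1 (Dt (Fintype.card F) η)
      - X 2 ^ Fintype.card F = C (η 2) * lin v ^ Fintype.card F := by
    rw [HSS_D0, HSS_D1, hpw]
    linear_combination X 2 ^ Fintype.card F * hη - (X 2 ^ Fintype.card F * (C (v 1) * C (η 1) +
      C (v 2) * C (η 2)) + C (η 2) * C (v 0) * X 0 ^ Fintype.card F) * h2
  have hc02 : C (v 2) * pderiv 0 (Dt (Fintype.card F) η) + C (v 0) * pderiv 2 (Dt (Fintype.card F) η)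
      - X 1 ^ Fintype.card F = C (η 1) * lin v ^ Fintype.card F := by
    rw [HSS_D0, HSS_D2, hpw]
    linear_combination X 1 ^ Fintype.card F * hη - (X 1 ^ Fintype.card F * (C (v 0) * C (η 0) +
      C (v 1) * C (η 1)) + C (η 1) * C (v 2) * X 2 ^ Fintype.card F) * h2
  have hc12 : C (v 2) * pderiv 1 (Dt (Fintype.card F) η) + C (v 1) * pderiv 2 (Dt (Fintype.card F) η)
      - X 0 ^ Fintype.card F = C (η 0) * lin v ^ Fintype.card F := by
    rw [HSS_D1, HSS_D2, hpw]
    linear_combination X 0 ^ Fintype.card F * hη - (X 0 ^ Fintype.card F * (C (v 2) * C (η 2) +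
      C (v 0) * C (η 0)) + C (η 0) * C (v 1) * X 1 ^ Fintype.card F) * h2
  have e10 : pderiv 1 (pderiv 0 (Hq F (Fintype.card F))) = X 2 ^ Fintype.card F := by
    rw [HSS_H0]
    simp [Derivation.leibniz, hQ, pderiv_X]
  have e01 : pderiv 0 (pderiv 1 (Hq F (Fintype.card F))) = X 2 ^ Fintype.card F := by
    rw [HSS_H1]
    simp [Derivation.leibniz, hQ, pderiv_X]
  have e20 : pderiv 2 (pderiv 0 (Hq F (Fintype.card F))) = X 1 ^ Fintype.card F := by
    rw [HSS_H0]
    simp [Derivation.leibniz, hQ, pderiv_X]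
  have e02 : pderiv 0 (pderiv 2 (Hq F (Fintype.card F))) = X 1 ^ Fintype.card F := by
    rw [HSS_H2]
    simp [Derivation.leibniz, hQ, pderiv_X]
  have e12 : pderiv 1 (pderiv 2 (Hq F (Fintype.card F))) = X 0 ^ Fintype.card F := by
    rw [HSS_H2]
    simp [Derivation.leibniz, hQ, pderiv_X]
  have e21 : pderiv 2 (pderiv 1 (Hq F (Fintype.card F))) = X 0 ^ Fintype.card F := by
    rw [HSS_H1]
    simp [Derivation.leibniz, hQ, pderiv_X]
  fin_cases i <;> fin_cases j
  · exact absurd rfl hij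
  · change lin v ∣ C (v 1) * pderiv 0 (Dt (Fintype.card F) η) + C (v 0) * pderiv 1 (Dt (Fintype.card F) η)
      - pderiv 0 (pderiv 1 (Hq F (Fintype.card F)))
    rw [e01, hc01]
    exact hdiv _
  · change lin v ∣ C (v 2) * pderiv 0 (Dt (Fintype.card F) η) + C (v 0) * pderiv 2 (Dt (Fintype.card F) η)
      - pderiv 0 (pderiv 2 (Hq F (Fintype.card F)))
    rw [e02, hc02]
    exact hdiv _
  · change lin v ∣ C (v 0) * pderiv 1 (Dt (Fintype.card F) η) + C (v 1) * pderiv 0 (Dt (Fintype.card F) η)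
      - pderiv 1 (pderiv 0 (Hq F (Fintype.card F)))
    rw [e10, add_comm (C (v 0) * _), hc01]
    exact hdiv _
  · exact absurd rfl hij
  · change lin v ∣ C (v 2) * pderiv 1 (Dt (Fintype.card F) η) + C (v 1) * pderiv 2 (Dt (Fintype.card F) η)
      - pderiv 1 (pderiv 2 (Hq F (Fintype.card F)))
    rw [e12, hc12]
    exact hdiv _
  · change lin v ∣ C (v 0) * pderiv 2 (Dt (Fintype.card F) η) + C (v 2) * pderiv 0 (Dt (Fintype.card F) η)
      - pderiv 2 (pderiv 0 (Hq F (Fintype.card F)))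
    rw [e20, add_comm (C (v 0) * _), hc02]
    exact hdiv _
  · change lin v ∣ C (v 1) * pderiv 2 (Dt (Fintype.card F) η) + C (v 2) * pderiv 1 (Dt (Fintype.card F) η)
      - pderiv 2 (pderiv 1 (Hq F (Fintype.card F)))
    rw [e21, add_comm (C (v 1) * _), hc12]
    exact hdiv _
  · exact absurd rfl hij

theorem Hq_hom (q : ℕ) : (Hq F q).IsHomogeneous (q + 2) := by
  have hX : ∀ i : Fin 3, (X i : MvPolynomial (Fin 3) F).IsHomogeneous 1 := fun i => isHomogeneous_X F i
  have hP : ∀ i : Fin 3, (X i ^ q : MvPolynomial (Fin 3) F).IsHomogeneous q := by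
    intro i
    have h := (hX i).pow q
    rwa [one_mul] at h
  have hM : ∀ i j k : Fin 3, (X i * X j * X k ^ q : MvPolynomial (Fin 3) F).IsHomogeneous (q + 2) := by
    intro i j k
    have h := ((hX i).mul (hX j)).mul (hP k)
    have e : 1 + 1 + q = q + 2 := by ring
    rwa [e] at h
  rw [Hq]
  exact ((hM 0 1 2).add (hM 1 2 0)).add (hM 0 2 1)

end MDE
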