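import Pool.Agent.MDE.SUB

/-!
# MDE.SPL: forms vanishing at a node; homogeneous quotients

* `split`: choose `b` with `d3 r s b = 1`, pull back by `sb r s b` (SUB.sb_inv, SUB.sb_hom, SUB.eval_sb):
  it is enough to treat `r = e0`, `s = e1`, where the node is `cr e0 e1 = e2 = ![0,0,1]` (for
  `P' = sb a' b' c' G`, `G = sb r s b P'`, `eval (cr r s) G = eval ![dp r l, dp s l, dp b l] P'` with
  `l = cr r s`, i.e. `![0, 0, 1]`). A form `P'` of degree `d + 1` with `eval ![0,0,1] P' = 0` has zero
  coefficient at `X 2 ^ (d+1)`, so `P' = X 0 * P1 + X 1 * P2` (use `divMonomial` / `modMonomial` by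
  `Finsupp.single 0 1`, then by `Finsupp.single 1 1`, or write `P'` as the sum of its monomials).
* `hom_div`: if a product of a nonzero form of degree `a` and of a polynomial `Q` is homogeneous of
  degree `a + b` then `Q` is homogeneous of degree `b`: compare homogeneous components
  (`MvPolynomial.homogeneousComponent`, `P * Q = ∑ P * Q_n`, so `P * Q_n = 0` for `n ≠ b`). Perhaps
  Mathlib has it (`IsHomogeneous.of_mul_left` or so; look in RingTheory/MvPolynomial/Homogeneous).
* `hom_dvd`: the quotient by `lin v`.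
-/

set_option autoImplicit false

namespace MDE

open MvPolynomial

variable {F : Type*} [Field F]

private theorem SPL_comp {P : MvPolynomial (Fin 3) F} {a : ℕ} (hP : P.IsHomogeneous a)
    (Q : MvPolynomial (Fin 3) F) (m : ℕ) :
    homogeneousComponent m (P * Q) =
      ∑ i ∈ Finset.range (Q.totalDegree + 1), if m = a + i then P * homogeneousComponent i Q else 0 := by
  conv_lhs => rw [← sum_homogeneousComponent Q, Finset.mul_sum, map_sum]
  refine Finset.sum_congr rfl (fun i _ => ?_)
  exact homogeneousComponent_of_mem (hP.mul (homogeneousComponent_isHomogeneous i Q))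

theorem hom_div {P Q : MvPolynomial (Fin 3) F} {a b : ℕ} (hP : P.IsHomogeneous a) (hP0 : P ≠ 0)
    (h : (P * Q).IsHomogeneous (a + b)) : Q.IsHomogeneous b := by
  have h1 := homogeneousComponent_eq_self h
  rw [SPL_comp hP] at h1
  have h2 : (∑ i ∈ Finset.range (Q.totalDegree + 1), if a + b = a + i then P * homogeneousComponent i Q else 0)
      = P * homogeneousComponent b Q := by
    by_cases hb : b ∈ Finset.range (Q.totalDegree + 1)
    · rw [Finset.sum_eq_single b]
      · rw [if_pos rfl]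
      · intro i _ hi
        rw [if_neg (fun hc => hi (by omega))]
      · intro hc
        exact absurd hb hc
    · rw [Finset.sum_eq_zero]
      · rw [homogeneousComponent_eq_zero, mul_zero]
        rw [Finset.mem_range] at hb
        omega
      · intro i hi
        rw [if_neg (fun hc => hb (by
          have : i = b := by omega
          rwa [← this]))]
  rw [h2] at h1
  have h3 : homogeneousComponent b Q = Q := mul_left_cancel₀ hP0 h1
  rw [← h3]
  exact homogeneousComponent_isHomogeneous b Q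

theorem hom_div_lt {P Q : MvPolynomial (Fin 3) F} {a d : ℕ} (hP : P.IsHomogeneous a)
    (hP0 : P ≠ 0) (h : (P * Q).IsHomogeneous d) (hd : d < a) : Q = 0 := by
  have h1 := homogeneousComponent_eq_self h
  rw [SPL_comp hP, Finset.sum_eq_zero] at h1
  · exact (mul_eq_zero.1 h1.symm).resolve_left hP0
  · intro i _
    rw [if_neg (by omega)]

theorem hom_dvd {v : Fin 3 → F} (hv : v ≠ 0) {G : MvPolynomial (Fin 3) F} {d : ℕ}
    (hG : G.IsHomogeneous (d + 1)) (h : lin v ∣ G) : ∃ Q, Q.IsHomogeneous d ∧ G = lin v * Q := by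
  obtain ⟨Q, rfl⟩ := h
  refine ⟨Q, ?_, rfl⟩
  rw [add_comm] at hG
  exact hom_div (lin_hom v) (lin_ne hv) hG

theorem hom_zero_eval {G : MvPolynomial (Fin 3) F} (hG : G.IsHomogeneous 0) {l : Fin 3 → F}
    (h : eval l G = 0) : G = 0 := by
  have h1 := totalDegree_eq_zero_iff_eq_C.1 ((totalDegree_zero_iff_isHomogeneous (Fin 3)).2 hG)
  rw [h1, eval_C] at h
  rw [h1, h, C_0]

private theorem SPL_std {P : MvPolynomial (Fin 3) F} {d : ℕ} (hP : P.IsHomogeneous (d + 1))
    (h0 : eval ![0, 0, 1] P = 0) :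
    ∃ P1 P2 : MvPolynomial (Fin 3) F, P1.IsHomogeneous d ∧ P2.IsHomogeneous d ∧ P = X 0 * P1 + X 1 * P2 := by
  have hc : ∀ α : Fin 3 →₀ ℕ, coeff α P ≠ 0 → α.degree = d + 1 := by
    intro α hα
    by_contra hcon
    exact hα (hP.coeff_eq_zero hcon)
  set e0 : Fin 3 →₀ ℕ := Finsupp.single 0 1 with he0
  set e1 : Fin 3 →₀ ℕ := Finsupp.single 1 1 with he1
  set P1 := P.divMonomial e0 with hP1
  set M := P.modMonomial e0 with hM
  set P2 := M.divMonomial e1 with hP2
  set N := M.modMonomial e1 with hN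
  have hPM : P = X 0 * P1 + M := (divMonomial_add_modMonomial_single P 0).symm
  have hMN : M = X 1 * P2 + N := (divMonomial_add_modMonomial_single M 1).symm
  have hMc : ∀ α : Fin 3 →₀ ℕ, coeff α M ≠ 0 → coeff α P ≠ 0 ∧ α 0 = 0 := by
    intro α hα
    by_cases hle : e0 ≤ α
    · exact absurd (coeff_modMonomial_of_le P hle) hα
    · rw [hM, coeff_modMonomial_of_not_le P hle] at hα
      refine ⟨hα, ?_⟩
      by_contra h1
      exact hle (Finsupp.single_le_iff.2 (Nat.one_le_iff_ne_zero.2 h1))
  have hNc : ∀ α : Fin 3 →₀ ℕ, coeff α N ≠ 0 → coeff α P ≠ 0 ∧ α 0 = 0 ∧ α 1 = 0 := by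
    intro α hα
    by_cases hle : e1 ≤ α
    · exact absurd (coeff_modMonomial_of_le M hle) hα
    · rw [hN, coeff_modMonomial_of_not_le M hle] at hα
      obtain ⟨h1, h2⟩ := hMc α hα
      refine ⟨h1, h2, ?_⟩
      by_contra h1
      exact hle (Finsupp.single_le_iff.2 (Nat.one_le_iff_ne_zero.2 h1))
  have hhom : ∀ (Q : MvPolynomial (Fin 3) F) (i : Fin 3),
      (∀ α : Fin 3 →₀ ℕ, coeff α Q ≠ 0 → α.degree = d + 1) →
      (Q.divMonomial (Finsupp.single i 1)).IsHomogeneous d := by
    intro Q i hQ α hα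
    rw [coeff_divMonomial] at hα
    have h1 := hQ _ hα
    rw [map_add, Finsupp.degree_single] at h1
    have h2 : Finsupp.weight (1 : Fin 3 → ℕ) α = α.degree := by
      rw [Finsupp.degree_eq_weight_one]
      rfl
    show Finsupp.weight (1 : Fin 3 → ℕ) α = d
    rw [h2]
    omega
  have hN0 : N = monomial (Finsupp.single 2 (d + 1)) (coeff (Finsupp.single 2 (d + 1)) N) := by
    ext α
    rw [coeff_monomial]
    split_ifs with h1
    · rw [h1]
    · by_contra h2
      obtain ⟨h3, h4, h5⟩ := hNc α h2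
      apply h1
      have h6 := hc α h3
      rw [Finsupp.degree_eq_sum, Fin.sum_univ_three, h4, h5] at h6
      ext i
      fin_cases i
      · show (Finsupp.single (2 : Fin 3) (d + 1) : Fin 3 →₀ ℕ) 0 = α 0
        rw [h4, Finsupp.single_eq_of_ne (by decide)]
      · show (Finsupp.single (2 : Fin 3) (d + 1) : Fin 3 →₀ ℕ) 1 = α 1
        rw [h5, Finsupp.single_eq_of_ne (by decide)]
      · show (Finsupp.single (2 : Fin 3) (d + 1) : Fin 3 →₀ ℕ) 2 = α 2
        rw [Finsupp.single_eq_same]
        omega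
  have hev : coeff (Finsupp.single 2 (d + 1)) N = 0 := by
    have h1 := h0
    rw [hPM, hMN, hN0] at h1
    have h2 : (Finsupp.single (2 : Fin 3) (d + 1)).prod (fun n e => (![0, 0, 1] : Fin 3 → F) n ^ e) = 1 := by
      rw [Finsupp.prod_single_index (by simp)]
      simp
    rw [map_add, map_add, map_mul, map_mul, eval_X, eval_X, eval_monomial, h2] at h1
    simp only [Matrix.cons_val] at h1
    rw [zero_mul, zero_mul, zero_add, zero_add, mul_one] at h1
    exact h1
  have hN1 : N = 0 := by
    rw [hN0, hev, monomial_zero]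
  refine ⟨P1, P2, hhom P 0 hc, hhom M 1 (fun α hα => hc α (hMc α hα).1), ?_⟩
  rw [hN1, add_zero] at hMN
  conv_lhs => rw [hPM]
  rw [← hMN]

/-- A form of positive degree which vanishes at the node of two lines lies in their ideal. -/
theorem split {r s : Fin 3 → F} (h : cr r s ≠ 0) {G : MvPolynomial (Fin 3) F} {d : ℕ}
    (hG : G.IsHomogeneous (d + 1)) (h0 : eval (cr r s) G = 0) :
    ∃ G1 G2 : MvPolynomial (Fin 3) F, G1.IsHomogeneous d ∧ G2.IsHomogeneous d ∧
      G = lin r * G1 + lin s * G2 := by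
  obtain ⟨b, hb⟩ := exists_basis2 h
  obtain ⟨a', b', c', _, h1, _⟩ := sb_inv hb
  have h2 := sb_hom a' b' c' hG
  have h3 : eval ![0, 0, 1] (sb a' b' c' G) = 0 := by
    have h4 := eval_sb r s b (cr r s) (sb a' b' c' G)
    rw [h1, h0, dp_cr_left, dp_cr_right, dp_cr_eq, ← d3_cyc r s b |>.trans (d3_cyc s b r), hb] at h4
    exact h4.symm
  obtain ⟨P1, P2, hP1, hP2, hP⟩ := SPL_std h2 h3
  refine ⟨sb r s b P1, sb r s b P2, sb_hom r s b hP1, sb_hom r s b hP2, ?_⟩
  rw [← h1 G, hP, map_add, map_mul, map_mul, sb_X0, sb_X1]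

end MDE
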