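import Pool.Agent.MDE.SUB
import Pool.Agent.MDE.SPL

/-!
# MDE.RST: restriction of ternary forms to a line

`u ≠ 0`; choose `a`, `b` with `d3 u a b = 1` (LIA.exists_basis1) and the inverse substitution `τ = sb a' b' c'` of
`σ = sb u a b` (SUB.sb_inv). `ρ = κ ∘ τ` with `κ = aeval ![0, X 0, X 1]`, `s = aeval ![lin a, lin b]`.
* `ρ (lin a) = κ (τ (σ (X 1))) = X 0`, `ρ (lin b) = X 1`, so `ρ ∘ s = id` (on the generators).
* `ρ P = 0 ↔ X 0 ∣ τ P ↔ lin u ∣ P` (`κ Q = 0 → X 0 ∣ Q`: monomials with exponent `0` at `0` go to different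
  monomials).
* homogeneity: `τ` by SUB.sb_hom; `κ`, `s` send variables to forms of degree one (or zero)
  (`IsHomogeneous.aeval` or `IsHomogeneous.eval₂`).
-/

set_option autoImplicit false

namespace MDE

open MvPolynomial

variable {F : Type*} [Field F]

private noncomputable def rstK (F : Type*) [Field F] :
    MvPolynomial (Fin 3) F →ₐ[F] MvPolynomial (Fin 2) F := aeval ![0, X 0, X 1]

private noncomputable def rstI (F : Type*) [Field F] :
    MvPolynomial (Fin 2) F →ₐ[F] MvPolynomial (Fin 3) F := aeval ![X 1, X 2]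

private theorem rst_K0 : rstK F (X 0) = 0 := by simp [rstK]

private theorem rst_K1 : rstK F (X 1) = X 0 := by simp [rstK]

private theorem rst_K2 : rstK F (X 2) = X 1 := by simp [rstK]

private theorem rst_I0 : rstI F (X 0) = X 1 := by simp [rstI]

private theorem rst_I1 : rstI F (X 1) = X 2 := by simp [rstI]

private theorem rst_KI (P : MvPolynomial (Fin 2) F) : rstK F (rstI F P) = P := by
  have h : (rstK F).comp (rstI F) = AlgHom.id F _ := by
    apply MvPolynomial.algHom_ext
    intro i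
    fin_cases i
    · show rstK F (rstI F (X 0)) = X 0
      rw [rst_I0, rst_K1]
    · show rstK F (rstI F (X 1)) = X 1
      rw [rst_I1, rst_K2]
  exact congrArg (fun f : MvPolynomial (Fin 2) F →ₐ[F] MvPolynomial (Fin 2) F => f P) h

private theorem rst_sub (Q : MvPolynomial (Fin 3) F) :
    (X 0 : MvPolynomial (Fin 3) F) ∣ Q - rstI F (rstK F Q) := by
  induction Q using MvPolynomial.induction_on with
  | C a =>
    have h : rstI F (rstK F (C a)) = C a := by
      rw [← MvPolynomial.algebraMap_eq, AlgHom.commutes, AlgHom.commutes]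
    rw [h, sub_self]
    exact dvd_zero _
  | add p q hp hq =>
    have h : p + q - rstI F (rstK F (p + q)) = (p - rstI F (rstK F p)) + (q - rstI F (rstK F q)) := by
      rw [map_add, map_add]
      ring
    rw [h]
    exact dvd_add hp hq
  | mul_X p i hp =>
    have h : p * X i - rstI F (rstK F (p * X i)) = (p - rstI F (rstK F p)) * X i +
        rstI F (rstK F p) * (X i - rstI F (rstK F (X i))) := by
      rw [map_mul, map_mul]
      ring
    rw [h]
    refine dvd_add (hp.mul_right _) (Dvd.dvd.mul_left ?_ _)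
    fin_cases i
    · show (X 0 : MvPolynomial (Fin 3) F) ∣ X 0 - rstI F (rstK F (X 0))
      rw [rst_K0, map_zero, sub_zero]
    · show (X 0 : MvPolynomial (Fin 3) F) ∣ X 1 - rstI F (rstK F (X 1))
      rw [rst_K1, rst_I0, sub_self]
      exact dvd_zero _
    · show (X 0 : MvPolynomial (Fin 3) F) ∣ X 2 - rstI F (rstK F (X 2))
      rw [rst_K2, rst_I1, sub_self]
      exact dvd_zero _

private theorem rst_K_zero (Q : MvPolynomial (Fin 3) F) :
    rstK F Q = 0 ↔ (X 0 : MvPolynomial (Fin 3) F) ∣ Q := by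
  constructor
  · intro h
    have h1 := rst_sub Q
    rwa [h, map_zero, sub_zero] at h1
  · rintro ⟨R, rfl⟩
    rw [map_mul, rst_K0, zero_mul]

private theorem rst_K_hom {n : ℕ} {P : MvPolynomial (Fin 3) F} (h : P.IsHomogeneous n) :
    (rstK F P).IsHomogeneous n := by
  have h1 := h.aeval (![0, X 0, X 1] : Fin 3 → MvPolynomial (Fin 2) F) (n := 1) (by
    intro i
    fin_cases i
    · exact isHomogeneous_zero _ _ _
    · exact isHomogeneous_X _ _
    · exact isHomogeneous_X _ _)
  rwa [one_mul] at h1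

private theorem rst_I_hom {n : ℕ} {P : MvPolynomial (Fin 2) F} (h : P.IsHomogeneous n) :
    (rstI F P).IsHomogeneous n := by
  have h1 := h.aeval (![X 1, X 2] : Fin 2 → MvPolynomial (Fin 3) F) (n := 1) (by
    intro i
    fin_cases i
    · exact isHomogeneous_X _ _
    · exact isHomogeneous_X _ _)
  rwa [one_mul] at h1

theorem restrict {u : Fin 3 → F} (hu : u ≠ 0) :
    ∃ (ρ : MvPolynomial (Fin 3) F →ₐ[F] MvPolynomial (Fin 2) F)
      (s : MvPolynomial (Fin 2) F →ₐ[F] MvPolynomial (Fin 3) F) (a b : Fin 3 → F),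
      ρ (lin a) = X 0 ∧ ρ (lin b) = X 1 ∧ (∀ P, ρ (s P) = P) ∧
      (∀ P, ρ P = 0 ↔ lin u ∣ P) ∧
      (∀ (n : ℕ) (P : MvPolynomial (Fin 3) F), P.IsHomogeneous n → (ρ P).IsHomogeneous n) ∧
      (∀ (n : ℕ) (P : MvPolynomial (Fin 2) F), P.IsHomogeneous n → (s P).IsHomogeneous n) := by
  obtain ⟨a, b, hab⟩ := exists_basis1 hu
  obtain ⟨a', b', c', _, h1, h2⟩ := sb_inv hab
  refine ⟨(rstK F).comp (sb a' b' c'), (sb u a b).comp (rstI F), a, b, ?_, ?_, ?_, ?_, ?_, ?_⟩
  · rw [AlgHom.comp_apply, ← sb_X1 u a b, h2, rst_K1]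
  · rw [AlgHom.comp_apply, ← sb_X2 u a b, h2, rst_K2]
  · intro P
    rw [AlgHom.comp_apply, AlgHom.comp_apply, h2, rst_KI]
  · intro P
    rw [AlgHom.comp_apply, rst_K_zero]
    constructor
    · rintro ⟨R, hR⟩
      refine ⟨sb u a b R, ?_⟩
      rw [← h1 P, hR, map_mul, sb_X0]
    · rintro ⟨R, hR⟩
      refine ⟨sb a' b' c' R, ?_⟩
      rw [hR, map_mul, ← sb_X0 u a b, h2]
  · intro n P hP
    exact rst_K_hom (sb_hom a' b' c' hP)
  · intro n P hP
    exact sb_hom u a b (rst_I_hom hP)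

end MDE
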