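import Pool.Agent.MDE.GRW
import Pool.Agent.MDE.RST
import Pool.Agent.MDE.IDX

/-!
# MDE.JDB: the duality bound

`Pi` homogeneous of degree `D`, `(d + e) + D = 3 (m - 1)` (so here `d` stands for `d - 1` of the blueprint, and
the socle degree is `d + e`), `1 ≤ m`. `N` is the space of the forms `G'` of degree `d` with
`lin u * G' ∈ JI Pi m (d + 1)`; `W` is the image of `JI Pi m e` by the restriction `ρ` to the line `u`.
Assume `JI Pi m d = ⊥`. Then `finrank N + finrank W ≤ e + 1`.

Proof. `μ = (m-1, m-1, m-1)`. For `G' ∈ N` let `φ_{G'} : homogeneousSubmodule (Fin 2) F e → F`,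
`P ↦ coeff μ (G' * s P * Pi)` (`ρ`, `s` as in RST.restrict), linear in `G'` and `P`.
(a) `φ_{G'}` vanishes on `W`: `P = ρ f`, `f ∈ JI Pi m e`: `ρ (s P - f) = 0`, so `s P = f + lin u * f'` with `f'`
  homogeneous of degree `e - 1` or zero; `coeff μ (G' * f * Pi) = 0` (IDX.mul_mem, as all monomials of
  `f * Pi` have an exponent `≥ m`), `coeff μ (f' * (lin u * G' * Pi)) = 0` for the same reason.
(b) if `φ_{G'} = 0` then `G' = 0`: for every `f` homogeneous of degree `e`, `f = s (ρ f) + lin u * f'`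
  (`ρ (f - s (ρ f)) = 0`), so `coeff μ (G' * f * Pi) = 0`; let `α` with all `α i < m`. If `|α| ≠ d + D` then
  `coeff α (G' * Pi) = 0` by homogeneity; otherwise take `f = monomial (μ - α) 1` (degree
  `3 (m - 1) - d - D = e`): `coeff μ (G' * Pi * f) = coeff α (G' * Pi)`. So `G' ∈ JI Pi m d = ⊥`.
So `G' ↦ φ_{G'}` is an injective linear map from `N` to the annihilator of `W` (comap to
`homogeneousSubmodule (Fin 2) F e`) in the dual, of dimension `≤ e + 1 - finrank W`
(`Subspace.finrank_add_finrank_dualAnnihilator_eq` or finrank of the quotient; GRW.finrank_hom2).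
-/

set_option autoImplicit false

namespace MDE

open MvPolynomial

variable {F : Type*} [Field F]

/-- The forms `G` of degree `d` with `lin u * G ∈ JI Pi m (d + 1)`. -/
noncomputable def NJ (Pi : MvPolynomial (Fin 3) F) (m d : ℕ) (u : Fin 3 → F) :
    Submodule F (MvPolynomial (Fin 3) F) :=
  homogeneousSubmodule (Fin 3) F d ⊓
    (JI Pi m (d + 1)).comap (LinearMap.mulLeft F (lin u))

private noncomputable def JDB_mu (m : ℕ) : Fin 3 →₀ ℕ := Finsupp.equivFunOnFinite.symm fun _ => m - 1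

private theorem JDB_mu_apply (m : ℕ) (i : Fin 3) : JDB_mu m i = m - 1 := rfl

/-- the pairing -/
private noncomputable def JDB_phi (Pi : MvPolynomial (Fin 3) F) (m d e : ℕ) (u : Fin 3 → F)
    (s : MvPolynomial (Fin 2) F →ₐ[F] MvPolynomial (Fin 3) F) :
    NJ Pi m d u →ₗ[F] Module.Dual F (homogeneousSubmodule (Fin 2) F e) :=
  LinearMap.mk₂ F (fun G P => coeff (JDB_mu m) ((G : MvPolynomial (Fin 3) F) *
      s (P : MvPolynomial (Fin 2) F) * Pi))
    (fun G G' P => by rw [Submodule.coe_add, add_mul, add_mul, coeff_add])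
    (fun c G P => by rw [Submodule.coe_smul, smul_mul_assoc, smul_mul_assoc, coeff_smul])
    (fun G P P' => by rw [Submodule.coe_add, map_add, mul_add, add_mul, coeff_add])
    (fun c G P => by rw [Submodule.coe_smul, map_smul, mul_smul_comm, smul_mul_assoc, coeff_smul])

private theorem JDB_phi_apply (Pi : MvPolynomial (Fin 3) F) (m d e : ℕ) (u : Fin 3 → F)
    (s : MvPolynomial (Fin 2) F →ₐ[F] MvPolynomial (Fin 3) F) (G : NJ Pi m d u)
    (P : homogeneousSubmodule (Fin 2) F e) :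
    JDB_phi Pi m d e u s G P = coeff (JDB_mu m) ((G : MvPolynomial (Fin 3) F) *
      s (P : MvPolynomial (Fin 2) F) * Pi) := rfl

/-- multiples of `lin u` pair to zero -/
private theorem JDB_zero {Pi : MvPolynomial (Fin 3) F} {m d : ℕ} (hm : 1 ≤ m) {u : Fin 3 → F}
    (G : NJ Pi m d u) (f' : MvPolynomial (Fin 3) F) :
    coeff (JDB_mu m) ((G : MvPolynomial (Fin 3) F) * (lin u * f') * Pi) = 0 := by
  have h1 : (G : MvPolynomial (Fin 3) F) * (lin u * f') * Pi =
      f' * (lin u * (G : MvPolynomial (Fin 3) F) * Pi) := by ring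
  rw [h1]
  refine mul_mem (m := m) ?_ _ _ (fun i => by rw [JDB_mu_apply]; omega)
  exact G.2.2.2

private theorem JDB_lift {u : Fin 3 → F} (ρ : MvPolynomial (Fin 3) F →ₐ[F] MvPolynomial (Fin 2) F)
    (s : MvPolynomial (Fin 2) F →ₐ[F] MvPolynomial (Fin 3) F) (hρs : ∀ P, ρ (s P) = P)
    (hker : ∀ P, ρ P = 0 ↔ lin u ∣ P) (f : MvPolynomial (Fin 3) F) :
    ∃ f', s (ρ f) = f + lin u * f' := by
  have h1 : ρ (s (ρ f) - f) = 0 := by rw [map_sub, hρs, sub_self]
  obtain ⟨f', hf'⟩ := (hker _).1 h1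
  exact ⟨f', by rw [← hf']; ring⟩

private theorem JDB_inj {Pi : MvPolynomial (Fin 3) F} {D m d e : ℕ} (hPi : Pi.IsHomogeneous D)
    (hm : 1 ≤ m) (hsum : d + e + D = 3 * (m - 1)) (h0 : JI Pi m d = ⊥) {u : Fin 3 → F}
    (ρ : MvPolynomial (Fin 3) F →ₐ[F] MvPolynomial (Fin 2) F)
    (s : MvPolynomial (Fin 2) F →ₐ[F] MvPolynomial (Fin 3) F) (hρs : ∀ P, ρ (s P) = P)
    (hker : ∀ P, ρ P = 0 ↔ lin u ∣ P)
    (hρ : ∀ (n : ℕ) (P : MvPolynomial (Fin 3) F), P.IsHomogeneous n → (ρ P).IsHomogeneous n) :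
    Function.Injective (JDB_phi Pi m d e u s) := by
  rw [← LinearMap.ker_eq_bot, LinearMap.ker_eq_bot']
  intro G hG
  have hGh : (G : MvPolynomial (Fin 3) F).IsHomogeneous d := G.2.1
  have h1 : ∀ f : MvPolynomial (Fin 3) F, f.IsHomogeneous e →
      coeff (JDB_mu m) ((G : MvPolynomial (Fin 3) F) * f * Pi) = 0 := by
    intro f hf
    obtain ⟨f', hf'⟩ := JDB_lift ρ s hρs hker f
    have h2 := LinearMap.congr_fun hG ⟨ρ f, hρ e f hf⟩
    rw [JDB_phi_apply, LinearMap.zero_apply, hf', mul_add, add_mul, coeff_add, JDB_zero hm G,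
      add_zero] at h2
    exact h2
  have h3 : (G : MvPolynomial (Fin 3) F) ∈ JI Pi m d := by
    refine ⟨hGh, fun α hα => ?_⟩
    by_cases hd : α.degree = d + D
    · have hle : α ≤ JDB_mu m := by
        intro i
        rw [JDB_mu_apply]
        have := hα i
        omega
      have h4 : (monomial (JDB_mu m - α) (1 : F)).IsHomogeneous e := by
        refine isHomogeneous_monomial _ ?_
        have h5 : (JDB_mu m - α).degree + α.degree = 3 * (m - 1) := by
          rw [← map_add, tsub_add_cancel_of_le hle, Finsupp.degree_eq_sum, Fin.sum_univ_three,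
            JDB_mu_apply, JDB_mu_apply, JDB_mu_apply]
          ring
        omega
      have h6 := h1 _ h4
      have h7 : (G : MvPolynomial (Fin 3) F) * monomial (JDB_mu m - α) (1 : F) * Pi =
          (G : MvPolynomial (Fin 3) F) * Pi * monomial (JDB_mu m - α) (1 : F) := by ring
      have h8 : JDB_mu m = α + (JDB_mu m - α) := (add_tsub_cancel_of_le hle).symm
      rw [h7] at h6
      conv_lhs at h6 => rw [h8]
      rw [add_tsub_cancel_left] at h6
      rw [coeff_mul_monomial, mul_one] at h6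
      exact h6
    · exact (hGh.mul hPi).coeff_eq_zero hd
  rw [h0, Submodule.mem_bot] at h3
  exact Subtype.ext h3

theorem dual_bound {Pi : MvPolynomial (Fin 3) F} {D m d e : ℕ} (hPi : Pi.IsHomogeneous D)
    (hm : 1 ≤ m) (hsum : d + e + D = 3 * (m - 1)) (h0 : JI Pi m d = ⊥) {u : Fin 3 → F}
    (hu : u ≠ 0) (ρ : MvPolynomial (Fin 3) F →ₐ[F] MvPolynomial (Fin 2) F)
    (s : MvPolynomial (Fin 2) F →ₐ[F] MvPolynomial (Fin 3) F) (hρs : ∀ P, ρ (s P) = P)
    (hker : ∀ P, ρ P = 0 ↔ lin u ∣ P)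
    (hρ : ∀ (n : ℕ) (P : MvPolynomial (Fin 3) F), P.IsHomogeneous n → (ρ P).IsHomogeneous n)
    (hs : ∀ (n : ℕ) (P : MvPolynomial (Fin 2) F), P.IsHomogeneous n → (s P).IsHomogeneous n) :
    Module.finrank F (NJ Pi m d u) + Module.finrank F ((JI Pi m e).map ρ.toLinearMap)
      ≤ e + 1 := by
  have hle : (JI Pi m e).map ρ.toLinearMap ≤ homogeneousSubmodule (Fin 2) F e := by
    rintro _ ⟨f, hf, rfl⟩
    exact hρ e f hf.1
  obtain ⟨WV, hWV⟩ : ∃ WV : Submodule F (homogeneousSubmodule (Fin 2) F e),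
      WV = ((JI Pi m e).map ρ.toLinearMap).comap (homogeneousSubmodule (Fin 2) F e).subtype :=
    ⟨_, rfl⟩
  have h1 : Module.finrank F WV = Module.finrank F ((JI Pi m e).map ρ.toLinearMap) := by
    rw [hWV]
    exact (Submodule.comapSubtypeEquivOfLe hle).finrank_eq
  have h2 : ∀ G : NJ Pi m d u, JDB_phi Pi m d e u s G ∈ WV.dualAnnihilator := by
    intro G
    rw [Submodule.mem_dualAnnihilator]
    intro P hP
    rw [hWV] at hP
    obtain ⟨f, hf, hfP⟩ := hP
    have hfP' : ρ f = (P : MvPolynomial (Fin 2) F) := hfP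
    obtain ⟨f', hf'⟩ := JDB_lift ρ s hρs hker f
    rw [JDB_phi_apply, ← hfP', hf', mul_add, add_mul, coeff_add, JDB_zero hm G, add_zero, mul_assoc]
    exact mul_mem (m := m) hf.2 _ _ (fun i => by rw [JDB_mu_apply]; omega)
  have h3 : Module.finrank F (NJ Pi m d u) ≤ Module.finrank F WV.dualAnnihilator := by
    have hinj := JDB_inj hPi hm hsum h0 ρ s hρs hker hρ
    refine LinearMap.finrank_le_finrank_of_injective
      (f := (JDB_phi Pi m d e u s).codRestrict WV.dualAnnihilator h2) ?_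
    intro G G' h
    exact hinj (congrArg Subtype.val h)
  have h4 := Subspace.finrank_add_finrank_dualAnnihilator_eq WV
  have h5 := finrank_hom2 (F := F) e
  omega

end MDE
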