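import Pool.Agent.MDE.Defs

/-!
# MDE.LIA: elementary API of `lin`, `cr`, `dp`, `d3`

Everything is by unfolding and `ring` / `linear_combination` on the three coordinates.
* `exists_basis2`: `cr r s ≠ 0` has a nonzero coordinate `i`; take `b` the `i`-th unit vector divided
  by it (`d3 r s b = d3 b r s = dp b (cr r s)`).
* `exists_basis1`: if `r i ≠ 0`, say `r 0 ≠ 0`: `a = ![0, 1, 0]`, `b = ![0, 0, (r 0)⁻¹]`, etc.
* `expand`: Cramer; each coordinate: `d3 r a b * x i = d3 x a b * r i + ...` is an identity (`ring`).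
* `smul_of_cr`: if `cr v w = 0`, `v ≠ 0`, then `w` is a multiple of `v`.
-/

set_option autoImplicit false

namespace MDE

open MvPolynomial

variable {F : Type*} [Field F]

theorem lin_add (v w : Fin 3 → F) : lin (v + w) = lin v + lin w := by
  simp only [lin, Pi.add_apply, C_add]
  ring

theorem lin_smul (c : F) (v : Fin 3 → F) : lin (c • v) = C c * lin v := by
  simp only [lin, Pi.smul_apply, smul_eq_mul, C_mul]
  ring

theorem lin_zero : lin (0 : Fin 3 → F) = 0 := by
  simp [lin]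

theorem lin_neg (v : Fin 3 → F) : lin (-v) = - lin v := by
  simp only [lin, Pi.neg_apply, C_neg]
  ring

theorem eval_lin (l v : Fin 3 → F) : eval l (lin v) = dp v l := by
  simp [lin, dp]

theorem lin_hom (v : Fin 3 → F) : (lin v).IsHomogeneous 1 := by
  have h : ∀ i : Fin 3, (C (v i) * X i : MvPolynomial (Fin 3) F).IsHomogeneous 1 := by
    intro i
    have := (isHomogeneous_C (Fin 3) (v i)).mul (isHomogeneous_X F i)
    simpa using this
  exact ((h 0).add (h 1)).add (h 2)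

theorem lin_ne {v : Fin 3 → F} (h : v ≠ 0) : lin v ≠ 0 := by
  intro h0
  apply h
  funext i
  have h1 : ∀ l : Fin 3 → F, dp v l = 0 := by
    intro l
    rw [← eval_lin, h0, map_zero]
  fin_cases i
  · simpa [dp] using h1 ![1, 0, 0]
  · simpa [dp] using h1 ![0, 1, 0]
  · simpa [dp] using h1 ![0, 0, 1]

theorem dp_comm (u v : Fin 3 → F) : dp u v = dp v u := by
  simp only [dp]
  ring

private theorem cr0 (u v : Fin 3 → F) : cr u v 0 = u 1 * v 2 - u 2 * v 1 := rfl

private theorem cr1 (u v : Fin 3 → F) : cr u v 1 = u 2 * v 0 - u 0 * v 2 := rfl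

private theorem cr2 (u v : Fin 3 → F) : cr u v 2 = u 0 * v 1 - u 1 * v 0 := rfl

theorem dp_cr_left (u v : Fin 3 → F) : dp u (cr u v) = 0 := by
  simp only [dp, cr0, cr1, cr2]
  ring

theorem dp_cr_right (u v : Fin 3 → F) : dp v (cr u v) = 0 := by
  simp only [dp, cr0, cr1, cr2]
  ring

theorem cr_swap (u v : Fin 3 → F) : cr v u = - cr u v := by
  funext i
  fin_cases i
  · show v 1 * u 2 - v 2 * u 1 = -(u 1 * v 2 - u 2 * v 1)
    ring
  · show v 2 * u 0 - v 0 * u 2 = -(u 2 * v 0 - u 0 * v 2)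
    ring
  · show v 0 * u 1 - v 1 * u 0 = -(u 0 * v 1 - u 1 * v 0)
    ring

theorem cr_self (u : Fin 3 → F) : cr u u = 0 := by
  funext i
  fin_cases i
  · show u 1 * u 2 - u 2 * u 1 = 0
    ring
  · show u 2 * u 0 - u 0 * u 2 = 0
    ring
  · show u 0 * u 1 - u 1 * u 0 = 0
    ring

theorem d3_cyc (u v w : Fin 3 → F) : d3 u v w = d3 v w u := by
  simp only [d3, dp, cr0, cr1, cr2]
  ring

theorem d3_swap (u v w : Fin 3 → F) : d3 v u w = - d3 u v w := by
  simp only [d3, dp, cr0, cr1, cr2]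
  ring

theorem d3_swap' (u v w : Fin 3 → F) : d3 u w v = - d3 u v w := by
  simp only [d3, dp, cr0, cr1, cr2]
  ring

theorem d3_self_left (u w : Fin 3 → F) : d3 u u w = 0 := by
  simp only [d3, dp, cr0, cr1, cr2]
  ring

theorem d3_self_right (u w : Fin 3 → F) : d3 u w w = 0 := by
  simp only [d3, dp, cr0, cr1, cr2]
  ring

theorem d3_self_out (u w : Fin 3 → F) : d3 u w u = 0 := by
  simp only [d3, dp, cr0, cr1, cr2]
  ring

theorem dp_cr_eq (w r s : Fin 3 → F) : dp w (cr r s) = d3 w r s := rfl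

theorem cr_ne_of_d3 {r s b : Fin 3 → F} (h : d3 r s b ≠ 0) : cr r s ≠ 0 := by
  intro h0
  apply h
  rw [d3_cyc, d3_cyc, d3, h0]
  simp [dp]

theorem ne_of_cr {r s : Fin 3 → F} (h : cr r s ≠ 0) : r ≠ 0 ∧ s ≠ 0 := by
  constructor
  · rintro rfl
    apply h
    funext i
    fin_cases i <;> simp [cr]
  · rintro rfl
    apply h
    funext i
    fin_cases i <;> simp [cr]

theorem expand {r a b : Fin 3 → F} (h : d3 r a b = 1) (x : Fin 3 → F) :
    x = d3 x a b • r + d3 r x b • a + d3 r a x • b := by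
  simp only [d3, dp, cr0, cr1, cr2] at h
  funext i
  simp only [Pi.add_apply, Pi.smul_apply, smul_eq_mul, d3, dp, cr0, cr1, cr2]
  fin_cases i
  · simp only [Fin.zero_eta]
    linear_combination (-x 0) * h
  · simp only [Fin.mk_one]
    linear_combination (-x 1) * h
  · simp only [Fin.reduceFinMk]
    linear_combination (-x 2) * h

theorem lin_expand {r a b : Fin 3 → F} (h : d3 r a b = 1) (x : Fin 3 → F) :
    lin x = C (d3 x a b) * lin r + C (d3 r x b) * lin a + C (d3 r a x) * lin b := by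
  conv_lhs => rw [expand h x]
  rw [lin_add, lin_add, lin_smul, lin_smul, lin_smul]

theorem exists_basis1 {r : Fin 3 → F} (h : r ≠ 0) : ∃ a b : Fin 3 → F, d3 r a b = 1 := by
  obtain ⟨i, hi⟩ := Function.ne_iff.1 h
  simp only [Pi.zero_apply] at hi
  fin_cases i
  · refine ⟨![0, 1, 0], ![0, 0, (r 0)⁻¹], ?_⟩
    simp only [Fin.zero_eta] at hi
    simp [d3, dp, cr, hi]
  · refine ⟨![0, 0, 1], ![(r 1)⁻¹, 0, 0], ?_⟩
    simp only [Fin.mk_one] at hi
    simp [d3, dp, cr, hi]
  · refine ⟨![1, 0, 0], ![0, (r 2)⁻¹, 0], ?_⟩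
    simp only [Fin.reduceFinMk] at hi
    simp [d3, dp, cr, hi]

theorem exists_basis2 {r s : Fin 3 → F} (h : cr r s ≠ 0) : ∃ b : Fin 3 → F, d3 r s b = 1 := by
  obtain ⟨i, hi⟩ := Function.ne_iff.1 h
  simp only [Pi.zero_apply] at hi
  have key : ∀ b : Fin 3 → F, d3 r s b = dp b (cr r s) := fun b => by
    rw [dp_cr_eq, d3_cyc b r s]
  fin_cases i
  · refine ⟨![(cr r s 0)⁻¹, 0, 0], ?_⟩
    simp only [Fin.zero_eta] at hi
    rw [key]
    simp [dp, hi]
  · refine ⟨![0, (cr r s 1)⁻¹, 0], ?_⟩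
    simp only [Fin.mk_one] at hi
    rw [key]
    simp [dp, hi]
  · refine ⟨![0, 0, (cr r s 2)⁻¹], ?_⟩
    simp only [Fin.reduceFinMk] at hi
    rw [key]
    simp [dp, hi]

theorem smul_of_cr {v w : Fin 3 → F} (hv : v ≠ 0) (h : cr v w = 0) : ∃ c : F, w = c • v := by
  obtain ⟨a, b, hab⟩ := exists_basis1 hv
  refine ⟨d3 w a b, ?_⟩
  have h1 : d3 v w b = 0 := by
    rw [d3_cyc, d3_cyc, d3, h]
    simp [dp]
  have h2 : d3 v a w = 0 := by
    rw [d3_swap', d3_cyc, d3_cyc, d3, h]
    simp [dp]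
  have h3 := expand hab w
  rw [h1, h2, zero_smul, zero_smul, add_zero, add_zero] at h3
  exact h3

/-- Three linear combinations of three independent vectors: multiplicativity of the determinant,
in the form used for coordinates. -/
theorem d3_coords {r a b : Fin 3 → F} (h : d3 r a b = 1) (x y z : Fin 3 → F) :
    d3 ![d3 x a b, d3 r x b, d3 r a x] ![d3 y a b, d3 r y b, d3 r a y]
      ![d3 z a b, d3 r z b, d3 r a z] = d3 x y z := by
  have key : ∀ a0 a1 a2 b0 b1 b2 c0 c1 c2 : F,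
      d3 (a0 • r + a1 • a + a2 • b) (b0 • r + b1 • a + b2 • b) (c0 • r + c1 • a + c2 • b) =
        d3 ![a0, a1, a2] ![b0, b1, b2] ![c0, c1, c2] * d3 r a b := by
    intro a0 a1 a2 b0 b1 b2 c0 c1 c2
    simp only [d3, dp, cr0, cr1, cr2, Pi.add_apply, Pi.smul_apply, smul_eq_mul,
      Matrix.cons_val_zero, Matrix.cons_val_one, Matrix.cons_val]
    ring
  have := key (d3 x a b) (d3 r x b) (d3 r a x) (d3 y a b) (d3 r y b) (d3 r a y)
    (d3 z a b) (d3 r z b) (d3 r a z)
  rw [← expand h x, ← expand h y, ← expand h z, h, mul_one] at this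
  exact this.symm

/-- The point of intersection of two lines is unique up to a scalar. -/
theorem smul_cr_of_dp {r s l : Fin 3 → F} (h : cr r s ≠ 0) (hr : dp r l = 0) (hs : dp s l = 0) :
    ∃ c : F, l = c • cr r s := by
  apply smul_of_cr h
  funext i
  simp only [dp] at hr hs
  fin_cases i
  · show (cr r s) 1 * l 2 - (cr r s) 2 * l 1 = 0
    simp only [cr0, cr1, cr2]
    linear_combination (-r 0) * hs + s 0 * hr
  · show (cr r s) 2 * l 0 - (cr r s) 0 * l 2 = 0
    simp only [cr0, cr1, cr2]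
    linear_combination (-r 1) * hs + s 1 * hr
  · show (cr r s) 0 * l 1 - (cr r s) 1 * l 0 = 0
    simp only [cr0, cr1, cr2]
    linear_combination (-r 2) * hs + s 2 * hr

end MDE
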