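import Pool.Agent.MDE.LIA
import Pool.Agent.MDS.Defs

/-!
# MDE.PRJ: projection of an arc to the plane

`v : ι → V` an arc (`MDS.IsArc v k`, any at most `k` vectors are independent), `finrank V = k`, `#B + 3 = k`,
`g : Fin 3 → Dual V` independent functionals vanishing on `v b`, `b ∈ B`. Then `x ↦ (g i (v x))_i`,
`x ∉ B`, is an `Arc3`.
Proof (dual form). The functionals vanishing on `v b`, `b ∈ B`, form a space of dimension `3`, spanned by
the `g i` (`ann_span`). The dual functionals `e x` (`x` in a set of at most three indices outside `B`)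
which vanish on `v b` are therefore combinations of the `g i`; so there are vectors `α` with
`dp α (w x) = 1` and `dp α (w y) = 0` for the other `y`.
* `dual_basis_exists`: `A` with `#A ≤ k`: functionals `e a` with `e a (v a) = 1`, `e a (v a') = 0` (`a' ≠ a`).
* `exists_ann`: `n + #B ≤ k`: `n` independent functionals vanishing on `v b`, `b ∈ B` (dimension of the
  annihilator is at least `k - #B`).
* `eq_zero_of_vanish`: a functional vanishing at `v x` for `x` in a set of at least `k` elements is `0`.
-/

set_option autoImplicit false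

namespace MDE

open Finset

variable {F : Type*} [Field F] {V ι : Type*} [AddCommGroup V] [Module F V]

theorem dual_basis_exists [FiniteDimensional F V] [DecidableEq ι] {v : ι → V} {k : ℕ}
    (hv : MDS.IsArc (F := F) v k) (A : Finset ι) (hA : A.card ≤ k) :
    ∃ e : ι → Module.Dual F V, ∀ a ∈ A, ∀ a' ∈ A, e a (v a') = if a = a' then 1 else 0 := by
  have hli : LinearIndependent F (fun a : (A : Set ι) => v a) := hv A hA
  have key : ∀ a : ι, ∃ f : Module.Dual F V, a ∈ A →
      ∀ a' ∈ A, f (v a') = if a = a' then 1 else 0 := by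
    intro a
    by_cases ha : a ∈ A
    · obtain ⟨f, hf⟩ := LinearMap.exists_extend
        ((Finsupp.lapply (⟨a, ha⟩ : (A : Set ι)) : ((A : Set ι) →₀ F) →ₗ[F] F) ∘ₗ hli.repr)
      refine ⟨f, fun _ a' ha' => ?_⟩
      have hm : v a' ∈ Submodule.span F (Set.range (fun a : (A : Set ι) => v a)) :=
        Submodule.subset_span ⟨⟨a', ha'⟩, rfl⟩
      have h1 : f (v a') = ((Finsupp.lapply (⟨a, ha⟩ : (A : Set ι)) : ((A : Set ι) →₀ F) →ₗ[F] F) ∘ₗ
          hli.repr) ⟨v a', hm⟩ := by
        rw [← hf]
        rfl
      rw [h1, LinearMap.comp_apply, hli.repr_eq_single ⟨a', ha'⟩ ⟨v a', hm⟩ rfl,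
        Finsupp.lapply_apply, Finsupp.single_apply]
      by_cases h : a = a'
      · subst h
        simp
      · rw [if_neg h, if_neg]
        intro h'
        exact h (Subtype.ext_iff.mp h').symm
    · exact ⟨0, fun h => absurd h ha⟩
  choose e he using key
  exact ⟨e, fun a ha a' ha' => he a ha a' ha'⟩

theorem exists_indep_of_finrank {U : Type*} [AddCommGroup U] [Module F U] [FiniteDimensional F U]
    (W : Submodule F U) (n : ℕ) (h : n ≤ Module.finrank F W) :
    ∃ g : Fin n → U, LinearIndependent F g ∧ ∀ i, g i ∈ W := by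
  have bs := Module.finBasis F W
  refine ⟨fun i => ((bs (Fin.castLE h i) : W) : U), ?_, ?_⟩
  · have h4 : LinearIndependent F (fun i : Fin n => bs (Fin.castLE h i)) :=
      bs.linearIndependent.comp _ (Fin.castLE_injective h)
    exact h4.map' W.subtype (Submodule.ker_subtype _)
  · intro i
    exact (bs (Fin.castLE h i)).2

theorem exists_ann [FiniteDimensional F V] {v : ι → V} {k : ℕ}
    (hk : Module.finrank F V = k) (B : Finset ι) (n : ℕ) (hB : B.card + n ≤ k) :
    ∃ g : Fin n → Module.Dual F V, LinearIndependent F g ∧ ∀ i, ∀ b ∈ B, g i (v b) = 0 := by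
  classical
  have h1 : Module.finrank F (Submodule.span F ((B.image v : Finset V) : Set V)) ≤ B.card :=
    (finrank_span_finset_le_card (R := F) (B.image v)).trans Finset.card_image_le
  have h2 := Subspace.finrank_add_finrank_dualAnnihilator_eq
    (Submodule.span F ((B.image v : Finset V) : Set V))
  have h3 : n ≤ Module.finrank F
      (Submodule.span F ((B.image v : Finset V) : Set V)).dualAnnihilator := by omega
  obtain ⟨g, hg, hgW⟩ := exists_indep_of_finrank _ n h3
  refine ⟨g, hg, fun i b hb => ?_⟩
  have h5 := hgW i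
  rw [Submodule.mem_dualAnnihilator] at h5
  exact h5 _ (Submodule.subset_span (by
    rw [Finset.coe_image]
    exact ⟨b, hb, rfl⟩))

theorem eq_zero_of_vanish [FiniteDimensional F V] {v : ι → V} {k : ℕ}
    (hk : Module.finrank F V = k) (hv : MDS.IsArc (F := F) v k) (Y : Finset ι)
    (hY : k ≤ Y.card) (y : Module.Dual F V) (h : ∀ x ∈ Y, y (v x) = 0) : y = 0 := by
  classical
  obtain ⟨Z, hZY, hZ⟩ := Finset.exists_subset_card_eq hY
  have hli : LinearIndependent F (fun a : (Z : Set ι) => v a) := hv Z hZ.le
  have hsp : Submodule.span F (Set.range (fun a : (Z : Set ι) => v a)) = ⊤ := by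
    apply hli.span_eq_top_of_card_eq_finrank'
    rw [hk]
    simpa using hZ
  apply LinearMap.ext
  intro u
  have hu : u ∈ Submodule.span F (Set.range (fun a : (Z : Set ι) => v a)) := by
    rw [hsp]
    exact Submodule.mem_top
  have hle : Submodule.span F (Set.range (fun a : (Z : Set ι) => v a)) ≤ LinearMap.ker y := by
    rw [Submodule.span_le]
    rintro _ ⟨a, rfl⟩
    exact h a (hZY a.2)
  exact hle hu

/-- The functionals vanishing on `B`, `#B + n = k`, are the combinations of `n` given independent
ones. -/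
theorem ann_span [FiniteDimensional F V] {v : ι → V} {k n : ℕ}
    (hk : Module.finrank F V = k) (hv : MDS.IsArc (F := F) v k) (B : Finset ι)
    (hB : B.card + n = k) (g : Fin n → Module.Dual F V) (hg : LinearIndependent F g)
    (h0 : ∀ i, ∀ b ∈ B, g i (v b) = 0) (y : Module.Dual F V) (hy : ∀ b ∈ B, y (v b) = 0) :
    ∃ α : Fin n → F, y = ∑ i, α i • g i := by
  classical
  have hli : LinearIndependent F (fun a : (B : Set ι) => v a) := hv B (by omega)
  set W : Submodule F V := Submodule.span F (Set.range (fun a : (B : Set ι) => v a)) with hW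
  have h1 : Module.finrank F W = B.card := by
    rw [hW, finrank_span_eq_card hli]
    simp
  have h2 := Subspace.finrank_add_finrank_dualAnnihilator_eq W
  have h3 : Module.finrank F W.dualAnnihilator = n := by omega
  have hmem : ∀ f : Module.Dual F V, (∀ b ∈ B, f (v b) = 0) → f ∈ W.dualAnnihilator := by
    intro f hf
    rw [Submodule.mem_dualAnnihilator]
    intro w hw
    have hle : W ≤ LinearMap.ker f := by
      rw [hW, Submodule.span_le]
      rintro _ ⟨a, rfl⟩
      exact hf a a.2
    exact hle hw
  have hspan : Submodule.span F (Set.range g) = W.dualAnnihilator := by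
    apply Submodule.eq_of_le_of_finrank_eq
    · rw [Submodule.span_le]
      rintro _ ⟨i, rfl⟩
      exact hmem _ (h0 i)
    · rw [finrank_span_eq_card hg, h3]
      simp
  have hyW : y ∈ Submodule.span F (Set.range g) := by
    rw [hspan]
    exact hmem y hy
  rw [Submodule.mem_span_range_iff_exists_fun] at hyW
  obtain ⟨c, hc⟩ := hyW
  exact ⟨c, hc.symm⟩

/-- A functional vanishing on `A`, `#A + 2 = k`, is a combination of two given independent ones. -/
theorem ann_two [FiniteDimensional F V] {v : ι → V} {k : ℕ}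
    (hk : Module.finrank F V = k) (hv : MDS.IsArc (F := F) v k) (A : Finset ι)
    (hA : A.card + 2 = k) (f g y : Module.Dual F V) (hfg : LinearIndependent F ![f, g])
    (hf : ∀ a ∈ A, f (v a) = 0) (hg : ∀ a ∈ A, g (v a) = 0) (hy : ∀ a ∈ A, y (v a) = 0) :
    ∃ α β : F, y = α • f + β • g := by
  obtain ⟨c, hc⟩ := ann_span hk hv A hA ![f, g] hfg (by
    intro i
    fin_cases i
    · exact hf
    · exact hg) y hy
  refine ⟨c 0, c 1, ?_⟩
  rw [hc, Fin.sum_univ_two]
  rfl

theorem proj_arc [FiniteDimensional F V] [DecidableEq ι] {v : ι → V} {k : ℕ}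
    (hk : Module.finrank F V = k) (hv : MDS.IsArc (F := F) v k) (B : Finset ι)
    (hB : B.card + 3 = k) (g : Fin 3 → Module.Dual F V) (hg : LinearIndependent F g)
    (h0 : ∀ i, ∀ b ∈ B, g i (v b) = 0) :
    Arc3 (fun (x : {x : ι // x ∉ B}) (i : Fin 3) => g i (v x)) := by
  have key : ∀ Y : Finset ι, Disjoint Y B → Y.card ≤ 3 → ∀ x ∈ Y, ∃ α : Fin 3 → F,
      ∀ y ∈ Y, dp α (fun i => g i (v y)) = if x = y then 1 else 0 := by
    intro Y hYB hY x hx
    obtain ⟨e, he⟩ := dual_basis_exists hv (Y ∪ B) (by
      have := Finset.card_union_le Y B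
      omega)
    have hxB : x ∉ B := Finset.disjoint_left.mp hYB hx
    obtain ⟨α, hα⟩ := ann_span hk hv B hB g hg h0 (e x) (by
      intro b hb
      rw [he x (Finset.mem_union_left _ hx) b (Finset.mem_union_right _ hb), if_neg]
      rintro rfl
      exact hxB hb)
    refine ⟨α, fun y hy => ?_⟩
    have h1 : e x (v y) = α 0 * g 0 (v y) + α 1 * g 1 (v y) + α 2 * g 2 (v y) := by
      rw [hα, Fin.sum_univ_three]
      rfl
    rw [← he x (Finset.mem_union_left _ hx) y (Finset.mem_union_left _ hy), h1]
    rfl
  refine ⟨?_, ?_, ?_⟩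
  · rintro ⟨x, hx⟩ h
    obtain ⟨α, hα⟩ := key {x} (by simpa using hx) (by simp) x (by simp)
    have h1 := hα x (by simp)
    rw [if_pos rfl] at h1
    have h2 : (fun i => g i (v x)) = 0 := h
    rw [h2] at h1
    simp [dp] at h1
  · rintro ⟨x, hx⟩ ⟨y, hy⟩ hxy h
    have hxy' : x ≠ y := fun hh => hxy (Subtype.ext hh)
    have hdis : Disjoint ({x, y} : Finset ι) B := by
      rw [Finset.disjoint_left]
      intro z hz
      rw [Finset.mem_insert, Finset.mem_singleton] at hz
      rcases hz with rfl | rfl
      · exact hx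
      · exact hy
    have hcard : ({x, y} : Finset ι).card ≤ 3 := Finset.card_le_two.trans (by norm_num)
    obtain ⟨α, hα⟩ := key {x, y} hdis hcard x (by simp)
    obtain ⟨β, hβ⟩ := key {x, y} hdis hcard y (by simp)
    have a1 := hα x (by simp)
    have a2 := hα y (by simp)
    have b1 := hβ x (by simp)
    have b2 := hβ y (by simp)
    rw [if_pos rfl] at a1 b2
    rw [if_neg hxy'] at a2
    rw [if_neg hxy'.symm] at b1
    have h2 : cr (fun i => g i (v x)) (fun i => g i (v y)) = 0 := h
    generalize (fun i => g i (v x)) = p at *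
    generalize (fun i => g i (v y)) = r at *
    have hBC : dp (cr α β) (cr p r) = dp α p * dp β r - dp α r * dp β p := by
      simp only [dp, cr, Matrix.cons_val_zero, Matrix.cons_val_one, Matrix.cons_val]
      ring
    rw [h2, a1, a2, b1, b2] at hBC
    simp [dp] at hBC
  · rintro ⟨x, hx⟩ ⟨y, hy⟩ ⟨z, hz⟩ hxy hxz hyz h
    have hxy' : x ≠ y := fun hh => hxy (Subtype.ext hh)
    have hxz' : x ≠ z := fun hh => hxz (Subtype.ext hh)
    have hyz' : y ≠ z := fun hh => hyz (Subtype.ext hh)
    have hdis : Disjoint ({x, y, z} : Finset ι) B := by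
      rw [Finset.disjoint_left]
      intro u hu
      rw [Finset.mem_insert, Finset.mem_insert, Finset.mem_singleton] at hu
      rcases hu with rfl | rfl | rfl
      · exact hx
      · exact hy
      · exact hz
    have hcard : ({x, y, z} : Finset ι).card ≤ 3 := Finset.card_le_three
    obtain ⟨α, hα⟩ := key {x, y, z} hdis hcard x (by simp)
    obtain ⟨β, hβ⟩ := key {x, y, z} hdis hcard y (by simp)
    obtain ⟨γ, hγ⟩ := key {x, y, z} hdis hcard z (by simp)
    have a1 := hα x (by simp)
    have a2 := hα y (by simp)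
    have a3 := hα z (by simp)
    have b1 := hβ x (by simp)
    have b2 := hβ y (by simp)
    have b3 := hβ z (by simp)
    have c1 := hγ x (by simp)
    have c2 := hγ y (by simp)
    have c3 := hγ z (by simp)
    rw [if_pos rfl] at a1 b2 c3
    rw [if_neg hxy'] at a2
    rw [if_neg hxz'] at a3
    rw [if_neg hxy'.symm] at b1
    rw [if_neg hyz'] at b3
    rw [if_neg hxz'.symm] at c1
    rw [if_neg hyz'.symm] at c2
    have h2 : d3 (fun i => g i (v x)) (fun i => g i (v y)) (fun i => g i (v z)) = 0 := h
    generalize (fun i => g i (v x)) = p at *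
    generalize (fun i => g i (v y)) = r at *
    generalize (fun i => g i (v z)) = s at *
    have hdet : d3 α β γ * d3 p r s =
        dp α p * (dp β r * dp γ s - dp β s * dp γ r)
        - dp α r * (dp β p * dp γ s - dp β s * dp γ p)
        + dp α s * (dp β p * dp γ r - dp β r * dp γ p) := by
      simp only [d3, dp, cr, Matrix.cons_val_zero, Matrix.cons_val_one, Matrix.cons_val]
      ring
    rw [h2, a1, a2, a3, b1, b2, b3, c1, c2, c3] at hdet
    simp at hdet

end MDE
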