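import Pool.Agent.MDE.HLF
import Pool.Agent.MDE.PRJ

/-!
# MDE.PEN: square roots of coordinates are forms of degree `m` on every pencil

`q = |F| = 2 m`, characteristic 2; `v : ι → V` an arc, `finrank V = k`, `#ι + t + 1 = 2 m + k`, `t + 1 ≤ m`.
`A ⊆ ι`, `#A + 2 = k`, `f`, `g` independent functionals vanishing on `A`.
* `pencil_one`: `a ∈ A`, `e0` vanishing on `A.erase a`, `e0 (v a) = 1`. Put `B = A.erase a` (`#B + 3 = k`), the
  functionals `![e0, f, g]` are independent (evaluate at `v a`), `w x = ![e0 (v x), f (v x), g (v x)]`,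
  `x ∉ B`, is an `Arc3` (PRJ.proj_arc) with `#{x ∉ B} + t = 2 m + 2`, `m < #{x ∉ B}`, and `w a = ![1,0,0]`. HLF.half
  gives `P'` with `(e0 (v x)) ^ m = eval ![0, g (v x), f (v x)] P'` for `x ∉ A`; `P = aeval ![0, X 1, X 0] P'`.
* `pencil`: the set of `y` for which the statement holds is closed under addition and scalars (`x ↦ x ^ m`
  is additive: `hm : m = 2 ^ e`, `add_pow_char_pow`; `(α x)^m = α^m x^m`), contains `f` (`P = X 0 ^ m`), `g`, and the
  dual basis `e a` of PRJ.dual_basis_exists (each `e a` vanishes on `A.erase a`). For any `y`,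
  `y - ∑ a ∈ A, y (v a) • e a` vanishes on `A`, so is a combination of `f` and `g` (PRJ.ann_two).
-/

set_option autoImplicit false

namespace MDE

open MvPolynomial Finset

variable {F : Type*} [Field F] {V ι : Type*} [AddCommGroup V] [Module F V]

/-- Sums under the power `m`. -/
private theorem pen_add_pow [CharP F 2] (e : ℕ) (x y : F) :
    (x + y) ^ 2 ^ e = x ^ 2 ^ e + y ^ 2 ^ e := add_pow_char_pow x y 2 e

theorem pencil_one [Fintype F] [CharP F 2] [FiniteDimensional F V] [Fintype ι] [DecidableEq ι]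
    {v : ι → V} {k m t : ℕ} (hq : Fintype.card F = 2 * m) (hm2 : 2 ≤ m)
    (hk : Module.finrank F V = k) (hv : MDS.IsArc (F := F) v k)
    (hN : Fintype.card ι + t + 1 = 2 * m + k) (ht : t + 1 ≤ m)
    (A : Finset ι) (hA : A.card + 2 = k) (f g : Module.Dual F V)
    (hfg : LinearIndependent F ![f, g]) (hf : ∀ a ∈ A, f (v a) = 0) (hg : ∀ a ∈ A, g (v a) = 0)
    (a : ι) (ha : a ∈ A) (e0 : Module.Dual F V) (h1 : e0 (v a) = 1)
    (h0 : ∀ a' ∈ A, a' ≠ a → e0 (v a') = 0) :
    ∃ P : MvPolynomial (Fin 2) F, P.IsHomogeneous m ∧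
      ∀ x, x ∉ A → (e0 (v x)) ^ m = eval ![f (v x), g (v x)] P := by
  have hBc : (A.erase a).card + 1 = A.card := Finset.card_erase_add_one ha
  set B := A.erase a with hBdef
  have hB : B.card + 3 = k := by omega
  have hind : LinearIndependent F ![e0, f, g] := by
    refine linearIndependent_finCons.2 ⟨hfg, fun hmem => ?_⟩
    have hle : Submodule.span F (Set.range ![f, g]) ≤ LinearMap.ker (Module.Dual.eval F V (v a)) := by
      rw [Submodule.span_le]
      rintro _ ⟨i, rfl⟩
      rw [SetLike.mem_coe, LinearMap.mem_ker]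
      fin_cases i
      · exact hf a ha
      · exact hg a ha
    have h2 := hle hmem
    rw [LinearMap.mem_ker] at h2
    exact one_ne_zero (h1.symm.trans h2)
  have hz : ∀ i, ∀ b ∈ B, (![e0, f, g] : Fin 3 → Module.Dual F V) i (v b) = 0 := by
    intro i b hb
    have hbA : b ∈ A := Finset.mem_of_mem_erase hb
    have hba : b ≠ a := Finset.ne_of_mem_erase hb
    fin_cases i
    · exact h0 b hbA hba
    · exact hf b hbA
    · exact hg b hbA
  have harc := proj_arc hk hv B hB _ hind hz
  have hcard : Fintype.card {x : ι // x ∉ B} + B.card = Fintype.card ι := by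
    rw [Fintype.card_subtype_compl, Fintype.card_coe]
    exact Nat.sub_add_cancel (Finset.card_le_univ B)
  have haB : a ∉ B := Finset.notMem_erase a A
  obtain ⟨P', hP', hP'e⟩ := half harc m t hq hm2 (by omega) (by omega) ⟨a, haB⟩ (by
    funext i
    fin_cases i
    · exact h1
    · exact hf a ha
    · exact hg a ha)
  refine ⟨aeval ![0, X 1, X 0] P', ?_, fun x hx => ?_⟩
  · have h2 : ∀ i, ((![0, X 1, X 0] : Fin 3 → MvPolynomial (Fin 2) F) i).IsHomogeneous 1 := by
      intro i
      fin_cases i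
      · exact isHomogeneous_zero _ _ _
      · exact isHomogeneous_X _ _
      · exact isHomogeneous_X _ _
    have := hP'.aeval _ h2
    rwa [one_mul] at this
  · have hxB : x ∉ B := fun h => hx (Finset.mem_of_mem_erase h)
    have hxa : (⟨x, hxB⟩ : {x : ι // x ∉ B}) ≠ ⟨a, haB⟩ := by
      intro h
      have : x = a := congrArg Subtype.val h
      exact hx (this ▸ ha)
    have h2 := hP'e ⟨x, hxB⟩ hxa
    have h3 : eval ![f (v x), g (v x)] (aeval ![0, X 1, X 0] P') =
        eval ![0, g (v x), f (v x)] P' := by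
      have h4 : (eval ![f (v x), g (v x)]).comp
          ((aeval ![0, X 1, X 0] : MvPolynomial (Fin 3) F →ₐ[F] MvPolynomial (Fin 2) F) :
            MvPolynomial (Fin 3) F →+* MvPolynomial (Fin 2) F) = eval ![0, g (v x), f (v x)] := by
        refine ringHom_ext (fun c => ?_) fun i => ?_
        · simp
        · rw [RingHom.comp_apply]
          change eval _ (aeval _ (X i)) = _
          rw [aeval_X]
          fin_cases i <;> simp
      exact congrArg (fun φ => φ P') h4
    rw [h3]
    exact h2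

theorem pencil [Fintype F] [CharP F 2] [FiniteDimensional F V] [Fintype ι] [DecidableEq ι]
    {v : ι → V} {k e m t : ℕ} (hm : m = 2 ^ e) (hq : Fintype.card F = 2 * m) (hm2 : 2 ≤ m)
    (hk : Module.finrank F V = k) (hv : MDS.IsArc (F := F) v k)
    (hN : Fintype.card ι + t + 1 = 2 * m + k) (ht : t + 1 ≤ m)
    (A : Finset ι) (hA : A.card + 2 = k) (f g : Module.Dual F V)
    (hfg : LinearIndependent F ![f, g]) (hf : ∀ a ∈ A, f (v a) = 0) (hg : ∀ a ∈ A, g (v a) = 0)
    (y : Module.Dual F V) :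
    ∃ P : MvPolynomial (Fin 2) F, P.IsHomogeneous m ∧
      ∀ x, x ∉ A → (y (v x)) ^ m = eval ![f (v x), g (v x)] P := by
  have hadd : ∀ x y : F, (x + y) ^ m = x ^ m + y ^ m := by
    intro x y
    rw [hm]
    exact pen_add_pow e x y
  let S : Submodule F (Module.Dual F V) :=
    { carrier := {y | ∃ P : MvPolynomial (Fin 2) F, P.IsHomogeneous m ∧
        ∀ x, x ∉ A → (y (v x)) ^ m = eval ![f (v x), g (v x)] P}
      zero_mem' := ⟨0, isHomogeneous_zero _ _ _, fun x _ => by
        rw [LinearMap.zero_apply, map_zero, zero_pow (by omega)]⟩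
      add_mem' := by
        rintro y y' ⟨P, hP, h⟩ ⟨P', hP', h'⟩
        refine ⟨P + P', hP.add hP', fun x hx => ?_⟩
        rw [LinearMap.add_apply, hadd, h x hx, h' x hx, map_add]
      smul_mem' := by
        rintro c y ⟨P, hP, h⟩
        refine ⟨C (c ^ m) * P, ?_, fun x hx => ?_⟩
        · simpa using (isHomogeneous_C (Fin 2) (c ^ m)).mul hP
        · rw [LinearMap.smul_apply, smul_eq_mul, mul_pow, h x hx, map_mul, eval_C] }
  have hfS : f ∈ S := ⟨X 0 ^ m, by simpa using (isHomogeneous_X F (0 : Fin 2)).pow m, fun x _ => by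
    simp⟩
  have hgS : g ∈ S := ⟨X 1 ^ m, by simpa using (isHomogeneous_X F (1 : Fin 2)).pow m, fun x _ => by
    simp⟩
  obtain ⟨ε, hε⟩ := dual_basis_exists hv A (by omega)
  have hεS : ∀ a ∈ A, ε a ∈ S := by
    intro a ha
    refine pencil_one hq hm2 hk hv hN ht A hA f g hfg hf hg a ha (ε a) ?_ ?_
    · rw [hε a ha a ha, if_pos rfl]
    · intro a' ha' hne
      rw [hε a ha a' ha', if_neg (Ne.symm hne)]
  have hsum : (∑ a ∈ A, y (v a) • ε a) ∈ S := by
    refine Submodule.sum_mem _ fun a ha => Submodule.smul_mem _ _ (hεS a ha)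
  obtain ⟨α, β, hαβ⟩ := ann_two hk hv A hA f g (y - ∑ a ∈ A, y (v a) • ε a) hfg hf hg (by
    intro a' ha'
    rw [LinearMap.sub_apply, LinearMap.sum_apply]
    simp only [LinearMap.smul_apply, smul_eq_mul]
    rw [Finset.sum_congr rfl (g := fun a => if a = a' then y (v a) else 0) (fun a ha => by
      rw [hε a ha a' ha']
      split_ifs <;> simp), Finset.sum_ite_eq' A a', if_pos ha', sub_self])
  have hy : y ∈ S := by
    have h1 : y = α • f + β • g + ∑ a ∈ A, y (v a) • ε a := by
      rw [← hαβ, sub_add_cancel]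
    rw [h1]
    exact Submodule.add_mem _ (Submodule.add_mem _ (Submodule.smul_mem _ _ hfS)
      (Submodule.smul_mem _ _ hgS)) hsum
  exact hy

end MDE
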