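import Pool.Agent.MDE.Defs

/-!
# MDE.SQR: squares of polynomials in characteristic two

`F` is a finite field of characteristic `2`.
* `sq_of_even`: if all exponents of all monomials of `P` are even then `P = E ^ 2`:
  `E = ∑ α ∈ P.support, monomial (half of α) (square root of coeff α P)` (`FiniteField.isSquare_of_char_two`
  or surjectivity of the Frobenius), and `(∑)^2 = ∑ ( )^2` (`sum_pow_char` / CharTwo).
* `sq_of_pderiv`: if all first derivatives vanish then all exponents are even: the coefficient of
  `pderiv i P` at `α - e_i` is `α i * coeff α P`, which is `coeff α P` for odd `α i`.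
* `sq_of_mixed`: `P` homogeneous of even degree; a monomial of `P` with two odd exponents `i ≠ j` would
  give a monomial of `pderiv i (pderiv j P)`; the number of odd exponents (among three) is even since
  the degree is even, so it is `0`.
* `pderiv3`: the parity: a monomial of even degree cannot have three odd exponents.
* `pderiv_pderiv_self`: `n (n - 1) = 0` in characteristic two.
* `hom_sq`, `deg_sq`.
-/

set_option autoImplicit false

namespace MDE

open MvPolynomial

variable {F : Type*} [Field F]

private theorem SQR_cast [CharP F 2] {k : ℕ} : (k : F) = 0 ↔ Even k := by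
  rw [CharP.cast_eq_zero_iff F 2 k, even_iff_two_dvd]

private theorem SQR_coeff (i : Fin 3) (P : MvPolynomial (Fin 3) F) (β : Fin 3 →₀ ℕ) :
    coeff β (pderiv i P) = coeff (β + Finsupp.single i 1) P * ((β i + 1 : ℕ) : F) := by
  rw [coeff_pderiv, Nat.cast_add, Nat.cast_one]

theorem sq_of_even [Finite F] [CharP F 2] {P : MvPolynomial (Fin 3) F}
    (h : ∀ α : Fin 3 →₀ ℕ, coeff α P ≠ 0 → ∀ i, Even (α i)) :
    ∃ E : MvPolynomial (Fin 3) F, P = E ^ 2 := by
  have hsq : ∀ a : F, ∃ b : F, b ^ 2 = a := fun a => by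
    obtain ⟨b, hb⟩ := FiniteField.isSquare_of_char_two (ringChar.eq_iff.2 ‹CharP F 2›) a
    exact ⟨b, by rw [hb, sq]⟩
  choose rt hrt using hsq
  refine ⟨∑ α ∈ P.support, monomial (α.mapRange (fun n => n / 2) rfl) (rt (coeff α P)), ?_⟩
  rw [CharTwo.sum_sq]
  conv_lhs => rw [P.as_sum]
  refine Finset.sum_congr rfl (fun α hα => ?_)
  rw [monomial_pow, hrt]
  have h1 : 2 • (α.mapRange (fun n => n / 2) rfl : Fin 3 →₀ ℕ) = α := by
    ext i
    obtain ⟨k, hk⟩ := h α (mem_support_iff.1 hα) i
    rw [Finsupp.smul_apply, Finsupp.mapRange_apply, smul_eq_mul]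
    omega
  rw [h1]

theorem sq_of_pderiv [Finite F] [CharP F 2] {P : MvPolynomial (Fin 3) F}
    (h : ∀ i, pderiv i P = 0) : ∃ E : MvPolynomial (Fin 3) F, P = E ^ 2 := by
  refine sq_of_even (fun α hα i => ?_)
  by_contra hodd
  have h1 : 1 ≤ α i := by
    rcases Nat.eq_zero_or_pos (α i) with h2 | h2
    · rw [h2] at hodd
      exact absurd (Even.zero) hodd
    · exact h2
  have h3 : (α - Finsupp.single i 1) + Finsupp.single i 1 = α :=
    tsub_add_cancel_of_le (Finsupp.single_le_iff.2 h1)
  have h4 := SQR_coeff i P (α - Finsupp.single i 1)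
  rw [h i, coeff_zero, h3] at h4
  have h5 : (α - Finsupp.single i 1 : Fin 3 →₀ ℕ) i + 1 = α i := by
    rw [Finsupp.tsub_apply, Finsupp.single_eq_same]
    omega
  rw [h5] at h4
  rcases mul_eq_zero.1 h4.symm with h6 | h6
  · exact hα h6
  · exact hodd (SQR_cast.1 h6)

theorem sq_of_mixed [Finite F] [CharP F 2] {P : MvPolynomial (Fin 3) F} {n : ℕ}
    (hP : P.IsHomogeneous (2 * n)) (h : ∀ i j, i ≠ j → pderiv i (pderiv j P) = 0) :
    ∃ E : MvPolynomial (Fin 3) F, P = E ^ 2 := by
  refine sq_of_even (fun α hα => ?_)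
  have hdeg : α 0 + α 1 + α 2 = 2 * n := by
    by_contra hcon
    apply hα
    apply hP.coeff_eq_zero
    rw [Finsupp.degree_eq_sum, Fin.sum_univ_three]
    exact hcon
  have hpair : ∀ i j, i ≠ j → ¬ (Odd (α i) ∧ Odd (α j)) := by
    rintro i j hij ⟨hi, hj⟩
    have hi1 : 1 ≤ α i := hi.pos
    have hj1 : 1 ≤ α j := hj.pos
    have hle : Finsupp.single i 1 + Finsupp.single j 1 ≤ α := by
      intro l
      rw [Finsupp.add_apply]
      by_cases h1 : l = i
      · subst h1
        rw [Finsupp.single_eq_same, Finsupp.single_eq_of_ne hij]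
        exact hi1
      · rw [Finsupp.single_eq_of_ne h1, zero_add]
        by_cases h2 : l = j
        · subst h2
          rw [Finsupp.single_eq_same]
          exact hj1
        · rw [Finsupp.single_eq_of_ne h2]
          exact Nat.zero_le _
    obtain ⟨β, hβ⟩ := exists_add_of_le hle
    have h3 := SQR_coeff i (pderiv j P) β
    rw [h i j hij, coeff_zero, SQR_coeff j P] at h3
    have h4 : β + Finsupp.single i 1 + Finsupp.single j 1 = α := by
      rw [hβ]
      abel
    have h5 : (β + Finsupp.single i 1 : Fin 3 →₀ ℕ) j + 1 = α j := by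
      rw [← h4, Finsupp.add_apply (β + Finsupp.single i 1), Finsupp.single_eq_same]
    have h6 : β i + 1 = α i := by
      rw [← h4, Finsupp.add_apply, Finsupp.add_apply, Finsupp.single_eq_same, Finsupp.single_eq_of_ne hij,
        add_zero]
    rw [h4, h5, h6] at h3
    rcases mul_eq_zero.1 h3.symm with h7 | h7
    · rcases mul_eq_zero.1 h7 with h8 | h8
      · exact hα h8
      · exact (Nat.not_even_iff_odd.2 hj) (SQR_cast.1 h8)
    · exact (Nat.not_even_iff_odd.2 hi) (SQR_cast.1 h7)
  have h01 := hpair 0 1 (by decide)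
  have h02 := hpair 0 2 (by decide)
  have h12 := hpair 1 2 (by decide)
  simp only [Nat.odd_iff] at h01 h02 h12
  intro i
  rw [Nat.even_iff]
  fin_cases i
  · show α 0 % 2 = 0
    omega
  · show α 1 % 2 = 0
    omega
  · show α 2 % 2 = 0
    omega

theorem pderiv_self [CharP F 2] (i : Fin 3) (P : MvPolynomial (Fin 3) F) :
    pderiv i (pderiv i P) = 0 := by
  ext β
  rw [coeff_zero, SQR_coeff, SQR_coeff, Finsupp.add_apply, Finsupp.single_eq_same, mul_assoc, ← Nat.cast_mul]
  have h1 : Even ((β i + 1 + 1) * (β i + 1)) := by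
    rw [mul_comm]
    exact Nat.even_mul_succ_self _
  rw [SQR_cast.2 h1, mul_zero]

theorem pderiv3 [CharP F 2] {P : MvPolynomial (Fin 3) F} {n : ℕ}
    (hP : P.IsHomogeneous (2 * n)) (i j k : Fin 3) : pderiv i (pderiv j (pderiv k P)) = 0 := by
  ext β
  rw [coeff_zero, SQR_coeff, SQR_coeff, SQR_coeff]
  by_contra hcon
  have h1 := left_ne_zero_of_mul hcon
  have h2 := right_ne_zero_of_mul hcon
  have h3 := left_ne_zero_of_mul h1
  have h4 := right_ne_zero_of_mul h1
  have h5 := left_ne_zero_of_mul h3
  have h6 := right_ne_zero_of_mul h3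
  have hdeg : (β + Finsupp.single i 1 + Finsupp.single j 1 + Finsupp.single k 1).degree = 2 * n := by
    by_contra hc
    exact h5 (hP.coeff_eq_zero hc)
  rw [map_add, map_add, map_add, Finsupp.degree_single, Finsupp.degree_single, Finsupp.degree_single,
    Finsupp.degree_eq_sum, Fin.sum_univ_three] at hdeg
  rw [Ne, SQR_cast, Nat.even_iff] at h2 h4 h6
  rw [Finsupp.add_apply] at h4 h6
  rw [Finsupp.add_apply] at h6
  by_cases hij : i = j
  · subst hij
    rw [Finsupp.single_eq_same] at h4
    omega
  · rw [Finsupp.single_eq_of_ne (Ne.symm hij)] at h4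
    by_cases hjk : j = k
    · subst hjk
      rw [Finsupp.single_eq_same, Finsupp.single_eq_of_ne (Ne.symm hij)] at h6
      omega
    · rw [Finsupp.single_eq_of_ne (a := j) (Ne.symm hjk)] at h6
      by_cases hik : i = k
      · subst hik
        rw [Finsupp.single_eq_same] at h6
        omega
      · rw [Finsupp.single_eq_of_ne (Ne.symm hik)] at h6
        fin_cases i <;> fin_cases j <;> fin_cases k <;> first | exact absurd rfl hij | exact absurd rfl hjk | exact absurd rfl hik | skip
        all_goals
          simp only [Fin.zero_eta, Fin.mk_one, Fin.reduceFinMk] at h2 h4 h6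
          omega

theorem deg_sq (E : MvPolynomial (Fin 3) F) : (E ^ 2).totalDegree = 2 * E.totalDegree := by
  by_cases h : E = 0
  · rw [h]
    simp
  · rw [sq, totalDegree_mul_of_isDomain h h]
    ring

private noncomputable def SQR_phi (F : Type*) [Field F] :
    MvPolynomial (Fin 3) F →ₐ[F] Polynomial (MvPolynomial (Fin 3) F) :=
  aeval (fun i => Polynomial.C (X i) * Polynomial.X)

private theorem SQR_phi_mon (α : Fin 3 →₀ ℕ) (a : F) :
    SQR_phi F (monomial α a) = Polynomial.C (monomial α a) * Polynomial.X ^ (α 0 + α 1 + α 2) := by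
  unfold SQR_phi
  rw [aeval_monomial, Finsupp.prod_fintype _ _ (fun i => pow_zero _), Fin.prod_univ_three, monomial_eq,
    Finsupp.prod_fintype _ _ (fun i => pow_zero _), Fin.prod_univ_three]
  have h1 : algebraMap F (Polynomial (MvPolynomial (Fin 3) F)) a = Polynomial.C (C a) := rfl
  rw [h1]
  simp only [map_mul, map_pow]
  ring

private theorem SQR_phi_hom {G : MvPolynomial (Fin 3) F} {m : ℕ} (hG : G.IsHomogeneous m) :
    SQR_phi F G = Polynomial.C G * Polynomial.X ^ m := by
  conv_lhs => rw [G.as_sum, map_sum]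
  conv_rhs => rw [G.as_sum, map_sum, Finset.sum_mul]
  refine Finset.sum_congr rfl (fun α hα => ?_)
  rw [SQR_phi_mon]
  have h1 : α 0 + α 1 + α 2 = m := by
    by_contra hcon
    apply mem_support_iff.1 hα
    apply hG.coeff_eq_zero
    rw [Finsupp.degree_eq_sum, Fin.sum_univ_three]
    exact hcon
  rw [h1]

private theorem SQR_phi_coeff (E : MvPolynomial (Fin 3) F) (n : ℕ) :
    (SQR_phi F E).coeff n = homogeneousComponent n E := by
  conv_lhs => rw [← sum_homogeneousComponent E, map_sum, Polynomial.finsetSum_coeff]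
  have h1 : ∀ i ∈ Finset.range (E.totalDegree + 1), (SQR_phi F (homogeneousComponent i E)).coeff n =
      if n = i then homogeneousComponent i E else 0 := by
    intro i _
    rw [SQR_phi_hom (homogeneousComponent_isHomogeneous i E), Polynomial.coeff_C_mul_X_pow]
  rw [Finset.sum_congr rfl h1, Finset.sum_ite_eq]
  split_ifs with h2
  · rfl
  · rw [homogeneousComponent_eq_zero]
    rw [Finset.mem_range] at h2
    omega

theorem hom_sq {E : MvPolynomial (Fin 3) F} {n : ℕ} (h : (E ^ 2).IsHomogeneous (2 * n)) :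
    E.IsHomogeneous n := by
  have h1 : (SQR_phi F E) ^ 2 = (Polynomial.C E * Polynomial.X ^ n) ^ 2 := by
    rw [← map_pow, SQR_phi_hom h, map_pow]
    ring
  rcases sq_eq_sq_iff_eq_or_eq_neg.1 h1 with h2 | h2
  · have h3 := congrArg (fun p => Polynomial.coeff p n) h2
    simp only [SQR_phi_coeff, Polynomial.coeff_C_mul_X_pow, if_true] at h3
    rw [← h3]
    exact homogeneousComponent_isHomogeneous n E
  · have h3 := congrArg (fun p => Polynomial.coeff p n) h2
    simp only [SQR_phi_coeff, Polynomial.coeff_neg, Polynomial.coeff_C_mul_X_pow, if_true] at h3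
    have h4 : E = - homogeneousComponent n E := by
      rw [h3, neg_neg]
    rw [h4]
    exact (homogeneousComponent_isHomogeneous n E).neg

end MDE
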