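import Pool.Agent.MDE.SQR
import Pool.Agent.MDE.HSS

/-!
# MDE.STR: the structure theorem for planar arcs in even characteristic

`q = 2 m = |F|`, `v` an arc of `2 m + 2 - t` vectors, `m < #ι`.
1. `TAN.tangent` gives `T i`. For `i ≠ j` put `l = cr (v i) (v j)`; `cr (v j) (v i) = - l = l`
   (characteristic 2), so `T i` and `T j` have the same value at `l`: both are the inverse of
   `∏ u ∈ (univ.erase i).erase j, d3 (v u) (v i) (v j)` (`Finset.erase_right_comm`, and
   `d3 u j i = d3 u i j` in characteristic 2). `GLU.glue` gives `Φ` of degree `t` with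
   `lin (v i) ∣ Φ - T i`.
2. `Ψ = Φ * PK v`, homogeneous of degree `t + #ι = 2 m + 2`. For `η` with `dp η (v i) = 1`:
   `Ψ - lin (v i) * Dt q η = lin (v i) * ((Φ - T i) * ∏ + (T i * ∏ - Dt q η))` is divisible by
   `lin (v i) ^ 2`. With HSS.hess_sq and HSS.hess: `lin (v i) ∣ ∂_a ∂_b (Ψ - Hq)` for `a ≠ b`.
3. `Z = ∂_a ∂_b (Ψ - Hq)`: all its first derivatives vanish (SQR.pderiv_self and commutation of the
   derivatives, SQR.pderiv3), so `Z = E ^ 2` (SQR.sq_of_pderiv), `lin (v i) ∣ E` (prime), and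
   `2 * totalDegree E = totalDegree Z ≤ 2 m`, so `E = 0` by GLU.eq_zero_of_dvd.
4. SQR.sq_of_mixed (`n = m + 1`).
-/

set_option autoImplicit false

namespace MDE

open MvPolynomial

variable {F : Type*} [Field F]

theorem structure_thm [Fintype F] [CharP F 2] {ι : Type*} [Fintype ι]
    {v : ι → Fin 3 → F} (hv : Arc3 v) (m t : ℕ) (hq : Fintype.card F = 2 * m)
    (hN : Fintype.card ι + t = 2 * m + 2) (hm : m < Fintype.card ι) :
    ∃ Φ ψ : MvPolynomial (Fin 3) F, Φ.IsHomogeneous t ∧ Φ * PK v = Hq F (2 * m) + ψ ^ 2 := by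
  classical
  obtain ⟨T, hT1, hT2, hT3⟩ := tangent hv t (by omega) (by omega)
  have hs : ∀ i j, i ≠ j → eval (cr (v i) (v j)) (T i) = eval (cr (v i) (v j)) (T j) := by
    intro i j hij
    have h1 := hT3 i j hij
    have h2 := hT3 j i hij.symm
    have e1 : cr (v j) (v i) = cr (v i) (v j) := by
      rw [cr_swap]
      funext a
      exact CharTwo.neg_eq _
    have e2 : ∏ u ∈ (Finset.univ.erase j).erase i, d3 (v u) (v j) (v i) =
        ∏ u ∈ (Finset.univ.erase i).erase j, d3 (v u) (v i) (v j) := by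
      rw [Finset.erase_right_comm]
      refine Finset.prod_congr rfl fun u _ => ?_
      rw [d3_swap', CharTwo.neg_eq]
    rw [e1, e2, ← h1] at h2
    have h3 : ∏ u ∈ (Finset.univ.erase i).erase j, d3 (v u) (v i) (v j) ≠ 0 := by
      intro h0
      rw [h0, mul_zero] at h1
      exact zero_ne_one h1
    exact (mul_right_cancel₀ h3 h2).symm
  obtain ⟨Φ, hΦ, hΦd⟩ := glue hv t T hT1 hs
  have hhom : (Φ * PK v - Hq F (2 * m)).IsHomogeneous (2 * (m + 1)) := by
    refine IsHomogeneous.sub ?_ ?_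
    · have h1 := hΦ.mul (PK_hom v)
      rwa [show t + Fintype.card ι = 2 * (m + 1) by omega] at h1
    · have h1 := Hq_hom (F := F) (2 * m)
      rwa [show 2 * m + 2 = 2 * (m + 1) by omega] at h1
  have hdvd : ∀ a b : Fin 3, a ≠ b → ∀ i,
      lin (v i) ∣ pderiv a (pderiv b (Φ * PK v - Hq F (2 * m))) := by
    intro a b hab i
    obtain ⟨η, hη⟩ := exists_dp (hv.ne i)
    have h1 : lin (v i) ^ 2 ∣ Φ * PK v - lin (v i) * Dt (Fintype.card F) η := by
      obtain ⟨A, hA⟩ := hΦd i
      obtain ⟨B, hB⟩ := hT2 i η hη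
      have e1 : PK v = lin (v i) * ∏ j ∈ Finset.univ.erase i, lin (v j) :=
        (Finset.mul_prod_erase _ _ (Finset.mem_univ i)).symm
      refine ⟨A * (∏ j ∈ Finset.univ.erase i, lin (v j)) - B, ?_⟩
      rw [e1]
      linear_combination (lin (v i) * ∏ j ∈ Finset.univ.erase i, lin (v j)) * hA - lin (v i) * hB
    have h2 := hess_sq h1 a b
    have h3 := hess hη a b hab
    have h4 := dvd_add h2 h3
    rw [← map_add, ← map_add, sub_add_sub_cancel, hq] at h4
    exact h4
  have hZ : ∀ a b : Fin 3, a ≠ b → pderiv a (pderiv b (Φ * PK v - Hq F (2 * m))) = 0 := by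
    intro a b hab
    obtain ⟨E, hE⟩ := sq_of_pderiv (P := pderiv a (pderiv b (Φ * PK v - Hq F (2 * m))))
      (fun c => pderiv3 hhom c a b)
    have hdeg : E.totalDegree ≤ m := by
      have h1 := deg_sq E
      rw [← hE] at h1
      have h2 := ((hhom.pderiv (i := b)).pderiv (i := a)).totalDegree_le
      omega
    have hE0 : E = 0 := by
      refine eq_zero_of_dvd hv (lt_of_le_of_lt hdeg hm) fun i => ?_
      have h1 := hdvd a b hab i
      rw [hE] at h1
      exact (lin_prime (hv.ne i)).dvd_of_dvd_pow h1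
    rw [hE, hE0]
    ring
  obtain ⟨ψ, hψ⟩ := sq_of_mixed hhom hZ
  exact ⟨Φ, ψ, hΦ, by rw [← hψ]; ring⟩

end MDE
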