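import Pool.Agent.MDE.LIA

/-!
# MDE.SUB: linear substitutions; `lin v` is prime

`sb a b c` substitutes `X 0 ↦ lin a`, `X 1 ↦ lin b`, `X 2 ↦ lin c` (definition: `aeval ![...]`).
* `sb_inv`: if `d3 a b c = 1`, put `a' = ![d3 e0 b c, d3 a e0 c, d3 a b e0]` with `e0 = ![1,0,0]`, and
  the same with `e1`, `e2`: `X i = lin e_i`, `LIA.lin_expand` with `x = e_i` gives
  `sb a b c (lin a'_i) = lin e_i = X i`. For the other composition use that a right inverse matrix is a
  left inverse, or check the nine identities directly (they are `linear_combination (..) * h`).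
* `lin_prime`: `v ≠ 0`: choose `a b` with `d3 v a b = 1` (LIA.exists_basis1); `sb v a b` is then an
  algebra automorphism with `X 0 ↦ lin v`; `X 0` is prime (`MvPolynomial.prime_X`/`X_prime`).
* `lin_not_dvd`: evaluate at a point of `lin v = 0` where `lin w ≠ 0`: `d3 v w b = 1` for some `b`;
  the point `cr b v` (`dp v (cr b v) = 0`, `dp w (cr b v) = d3 w b v = d3 v w b = 1`).
-/

set_option autoImplicit false

namespace MDE

open MvPolynomial

variable {F : Type*} [Field F]

theorem sb_X0 (a b c : Fin 3 → F) : sb a b c (X 0) = lin a := by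
  rw [sb, aeval_X]
  rfl

theorem sb_X1 (a b c : Fin 3 → F) : sb a b c (X 1) = lin b := by
  rw [sb, aeval_X]
  rfl

theorem sb_X2 (a b c : Fin 3 → F) : sb a b c (X 2) = lin c := by
  rw [sb, aeval_X]
  rfl

private theorem SUB_C (a b c : Fin 3 → F) (x : F) : sb a b c (C x) = C x := by
  rw [sb]
  exact aeval_C _ _

theorem sb_lin (a b c v : Fin 3 → F) :
    sb a b c (lin v) = lin (v 0 • a + v 1 • b + v 2 • c) := by
  rw [lin_add, lin_add, lin_smul, lin_smul, lin_smul]
  conv_lhs => rw [lin]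
  rw [map_add, map_add, map_mul, map_mul, map_mul, SUB_C, SUB_C, SUB_C, sb_X0, sb_X1, sb_X2]

theorem eval_sb (a b c l : Fin 3 → F) (P : MvPolynomial (Fin 3) F) :
    eval l (sb a b c P) = eval ![dp a l, dp b l, dp c l] P := by
  have h : (eval l).comp (sb a b c).toRingHom = eval ![dp a l, dp b l, dp c l] := by
    apply MvPolynomial.ringHom_ext
    · intro x
      change eval l (sb a b c (C x)) = _
      rw [SUB_C, eval_C, eval_C]
    · intro i
      change eval l (sb a b c (X i)) = _
      rw [eval_X]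
      fin_cases i
      · exact (congrArg (eval l) (sb_X0 a b c)).trans (eval_lin l a)
      · exact (congrArg (eval l) (sb_X1 a b c)).trans (eval_lin l b)
      · exact (congrArg (eval l) (sb_X2 a b c)).trans (eval_lin l c)
  exact congrArg (fun f => f P) h

theorem sb_hom (a b c : Fin 3 → F) {n : ℕ} {P : MvPolynomial (Fin 3) F}
    (h : P.IsHomogeneous n) : (sb a b c P).IsHomogeneous n := by
  have h1 : ∀ i : Fin 3, (![lin a, lin b, lin c] i).IsHomogeneous 1 := by
    intro i
    fin_cases i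
    · exact lin_hom a
    · exact lin_hom b
    · exact lin_hom c
  have h2 := h.aeval ![lin a, lin b, lin c] h1
  rw [one_mul] at h2
  exact h2

private theorem SUB_e (i : Fin 3) : lin (Pi.single i (1 : F)) = X i := by
  fin_cases i <;> simp [lin]

private theorem SUB_half {a b c : Fin 3 → F} (h : d3 a b c = 1) :
    ∃ a' b' c' : Fin 3 → F, d3 a' b' c' = 1 ∧ (∀ P, sb a b c (sb a' b' c' P) = P) := by
  have key : ∀ x : Fin 3 → F, sb a b c (lin ![d3 x b c, d3 a x c, d3 a b x]) = lin x := by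
    intro x
    rw [sb_lin]
    exact congrArg lin (expand h x).symm
  refine ⟨![d3 (Pi.single 0 1) b c, d3 a (Pi.single 0 1) c, d3 a b (Pi.single 0 1)],
    ![d3 (Pi.single 1 1) b c, d3 a (Pi.single 1 1) c, d3 a b (Pi.single 1 1)],
    ![d3 (Pi.single 2 1) b c, d3 a (Pi.single 2 1) c, d3 a b (Pi.single 2 1)], ?_, fun P => ?_⟩
  · rw [d3_coords h]
    simp [d3, dp, cr]
  · have h2 : (sb a b c).comp (sb ![d3 (Pi.single 0 1) b c, d3 a (Pi.single 0 1) c, d3 a b (Pi.single 0 1)]
        ![d3 (Pi.single 1 1) b c, d3 a (Pi.single 1 1) c, d3 a b (Pi.single 1 1)]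
        ![d3 (Pi.single 2 1) b c, d3 a (Pi.single 2 1) c, d3 a b (Pi.single 2 1)]) = AlgHom.id F _ := by
      apply MvPolynomial.algHom_ext
      intro i
      rw [AlgHom.comp_apply, AlgHom.id_apply]
      fin_cases i
      · exact (congrArg (sb a b c) (sb_X0 _ _ _)).trans ((key _).trans (SUB_e 0))
      · exact (congrArg (sb a b c) (sb_X1 _ _ _)).trans ((key _).trans (SUB_e 1))
      · exact (congrArg (sb a b c) (sb_X2 _ _ _)).trans ((key _).trans (SUB_e 2))
    exact congrArg (fun f => f P) h2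

/-- A linear substitution with determinant one is invertible. -/
theorem sb_inv {a b c : Fin 3 → F} (h : d3 a b c = 1) :
    ∃ a' b' c' : Fin 3 → F, d3 a' b' c' = 1 ∧ (∀ P, sb a b c (sb a' b' c' P) = P) ∧
      (∀ P, sb a' b' c' (sb a b c P) = P) := by
  obtain ⟨a', b', c', h', hP⟩ := SUB_half h
  obtain ⟨a'', b'', c'', -, hQ⟩ := SUB_half h'
  refine ⟨a', b', c', h', hP, fun P => ?_⟩
  have h1 : sb a b c P = sb a'' b'' c'' P := by
    calc sb a b c P = sb a b c (sb a' b' c' (sb a'' b'' c'' P)) := by rw [hQ P]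
      _ = sb a'' b'' c'' P := hP _
  rw [h1, hQ]

theorem lin_prime {v : Fin 3 → F} (h : v ≠ 0) : Prime (lin v) := by
  obtain ⟨a, b, hab⟩ := exists_basis1 h
  obtain ⟨a', b', c', -, h1, h2⟩ := sb_inv hab
  let e : MvPolynomial (Fin 3) F ≃ₐ[F] MvPolynomial (Fin 3) F :=
    AlgEquiv.ofAlgHom (sb v a b) (sb a' b' c') (AlgHom.ext fun P => h1 P) (AlgHom.ext fun P => h2 P)
  have h3 : e (X 0) = lin v := sb_X0 v a b
  rw [← h3]
  exact (MulEquiv.prime_iff e.toMulEquiv).2 (MvPolynomial.X_prime)

theorem lin_not_dvd {v w : Fin 3 → F} (h : cr v w ≠ 0) : ¬ lin v ∣ lin w := by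
  rintro ⟨Q, hQ⟩
  obtain ⟨b, hb⟩ := exists_basis2 h
  have h1 := congrArg (eval (cr b v)) hQ
  rw [map_mul, eval_lin, eval_lin, dp_cr_right, zero_mul, dp_cr_eq, ← d3_cyc, hb] at h1
  exact one_ne_zero h1

/-- Values at the points of a line only depend on the class modulo the linear form. -/
theorem eval_eq_of_dvd {v l : Fin 3 → F} {P Q : MvPolynomial (Fin 3) F} (h : lin v ∣ P - Q)
    (hl : dp v l = 0) : eval l P = eval l Q := by
  obtain ⟨R, hR⟩ := h
  have h1 := congrArg (eval l) hR
  rw [map_sub, map_mul, eval_lin, hl, zero_mul] at h1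
  exact sub_eq_zero.1 h1

end MDE
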