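import Pool.Agent.MDE.GLU

/-!
# MDE.TAN: the tangent forms

`q = |F|`.
* `lin_pow_card`: `(∑ C (b i) * X i) ^ q = ∑ C (b i) * X i ^ q` (`q` is a power of the characteristic:
  `add_pow_char_pow`, and `b ^ q = b`, `FiniteField.pow_card`).
* `Dt_cr`: `(a × b) · (X × X^q) = (a · X)(b · X^q) - (b · X)(a · X^q)`, an identity (`ring`) after
  `lin_pow_card`.
* `eval_Dt`: `x ^ q = x` in `F`.
* `exists_cr`: if `dp η r = 0` and `r ≠ 0` then `η` is `cr r w` for some `w` (e.g. `r 0 ≠ 0`: `w = (r 0)⁻¹ •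
  ![0, η 2, - η 1]`; check).
* `Dt_dvd`: `η - η' = cr r w`, and `Dt q (cr r w) = lin r * .. - .. * lin r ^ q` is divisible by `lin r`.
* `tangent`: with `η i` such that `dp (η i) (v i) = 1`: `Dt q (η i)` has degree `q + 1 = t + (#ι - 1)` and
  vanishes at all the rational points, so VNN.van (with `E = univ.erase i`) gives `T i` of degree `t`.
  Value at the node of `i ≠ j`: choose `w` with `d3 (v i) (v j) w = 1`; `dp (cr (v j) w) (v i) = 1`; modulo
  `lin (v i)`: `T i * (∏ u ≠ i, j) * lin (v j) ≡ Dt q (cr (v j) w) = lin (v j) * (lin w ^ q - lin w *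
  lin (v j) ^ (q - 1))`. Cancel the prime `lin (v i)` against `lin (v j)` (SUB.lin_prime,
  SUB.lin_not_dvd) and evaluate at `cr (v i) (v j)`: `lin (v j)` vanishes there (`q ≥ 2`), and
  `(dp w (cr (v i) (v j))) ^ q = dp w (cr (v i) (v j)) = d3 w (v i) (v j) = 1`.
-/

set_option autoImplicit false

namespace MDE

open MvPolynomial Finset

variable {F : Type*} [Field F]

theorem Dt_hom (q : ℕ) (η : Fin 3 → F) : (Dt q η).IsHomogeneous (q + 1) := by
  have h : ∀ (c : F) (i j : Fin 3),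
      (C c * (X i * X j ^ q - X j * X i ^ q) : MvPolynomial (Fin 3) F).IsHomogeneous (q + 1) := by
    intro c i j
    have h1 : ∀ i j : Fin 3, (X i * X j ^ q : MvPolynomial (Fin 3) F).IsHomogeneous (q + 1) := by
      intro i j
      have h2 := (isHomogeneous_X F i).mul ((isHomogeneous_X F j).pow q)
      rwa [one_mul, add_comm] at h2
    exact ((h1 i j).sub (h1 j i)).C_mul c
  exact ((h _ 1 2).add (h _ 2 0)).add (h _ 0 1)

theorem Dt_add (q : ℕ) (η η' : Fin 3 → F) : Dt q (η + η') = Dt q η + Dt q η' := by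
  unfold Dt
  simp only [Pi.add_apply, map_add]
  ring

theorem lin_pow_card [Fintype F] (b : Fin 3 → F) : lin b ^ Fintype.card F =
    C (b 0) * X 0 ^ Fintype.card F + C (b 1) * X 1 ^ Fintype.card F
      + C (b 2) * X 2 ^ Fintype.card F := by
  obtain ⟨p, hp⟩ := CharP.exists F
  obtain ⟨n, hpr, hc⟩ := FiniteField.card F p
  have : Fact p.Prime := ⟨hpr⟩
  have h1 : ∀ c : F, (C c : MvPolynomial (Fin 3) F) ^ Fintype.card F = C c := by
    intro c
    rw [← map_pow, FiniteField.pow_card]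
  have h2 : ∀ x y : MvPolynomial (Fin 3) F, (x + y) ^ Fintype.card F = x ^ Fintype.card F + y ^ Fintype.card F := by
    intro x y
    rw [hc]
    exact add_pow_char_pow x y p n
  unfold lin
  rw [h2, h2, mul_pow, mul_pow, mul_pow, h1, h1, h1]

theorem Dt_cr [Fintype F] (a b : Fin 3 → F) : Dt (Fintype.card F) (cr a b) =
    lin a * lin b ^ Fintype.card F - lin b * lin a ^ Fintype.card F := by
  rw [lin_pow_card, lin_pow_card]
  unfold Dt lin cr
  simp only [Matrix.cons_val, map_sub, map_mul]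
  ring

theorem eval_Dt [Fintype F] (l η : Fin 3 → F) : eval l (Dt (Fintype.card F) η) = 0 := by
  unfold Dt
  simp only [map_add, map_sub, map_mul, map_pow, eval_C, eval_X, FiniteField.pow_card]
  ring

theorem exists_cr {r η : Fin 3 → F} (hr : r ≠ 0) (h : dp η r = 0) : ∃ w, η = cr r w := by
  unfold dp at h
  have h3 : r 0 ≠ 0 ∨ r 1 ≠ 0 ∨ r 2 ≠ 0 := by
    by_contra hcon
    push Not at hcon
    apply hr
    ext i
    fin_cases i
    · exact hcon.1
    · exact hcon.2.1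
    · exact hcon.2.2
  rcases h3 with h3 | h3 | h3
  · refine ⟨![0, (r 0)⁻¹ * η 2, -((r 0)⁻¹ * η 1)], ?_⟩
    unfold cr
    ext i
    fin_cases i
    · show η 0 = r 1 * (-((r 0)⁻¹ * η 1)) - r 2 * ((r 0)⁻¹ * η 2)
      field_simp
      linear_combination h
    · show η 1 = r 2 * 0 - r 0 * (-((r 0)⁻¹ * η 1))
      field_simp
      ring
    · show η 2 = r 0 * ((r 0)⁻¹ * η 2) - r 1 * 0
      field_simp
      ring
  · refine ⟨![-((r 1)⁻¹ * η 2), 0, (r 1)⁻¹ * η 0], ?_⟩
    unfold cr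
    ext i
    fin_cases i
    · show η 0 = r 1 * ((r 1)⁻¹ * η 0) - r 2 * 0
      field_simp
      ring
    · show η 1 = r 2 * (-((r 1)⁻¹ * η 2)) - r 0 * ((r 1)⁻¹ * η 0)
      field_simp
      linear_combination h
    · show η 2 = r 0 * 0 - r 1 * (-((r 1)⁻¹ * η 2))
      field_simp
      ring
  · refine ⟨![(r 2)⁻¹ * η 1, -((r 2)⁻¹ * η 0), 0], ?_⟩
    unfold cr
    ext i
    fin_cases i
    · show η 0 = r 1 * 0 - r 2 * (-((r 2)⁻¹ * η 0))
      field_simp
      ring
    · show η 1 = r 2 * ((r 2)⁻¹ * η 1) - r 0 * 0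
      field_simp
      ring
    · show η 2 = r 0 * (-((r 2)⁻¹ * η 0)) - r 1 * ((r 2)⁻¹ * η 1)
      field_simp
      linear_combination h

theorem Dt_dvd [Fintype F] {r η η' : Fin 3 → F} (hr : r ≠ 0) (h : dp η r = dp η' r) :
    lin r ∣ Dt (Fintype.card F) η - Dt (Fintype.card F) η' := by
  have h1 : dp (η - η') r = 0 := by
    unfold dp at h ⊢
    simp only [Pi.sub_apply]
    linear_combination h
  obtain ⟨w, hw⟩ := exists_cr hr h1
  have h2 : η = η' + cr r w := by
    rw [← hw]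
    abel
  rw [h2, Dt_add, Dt_cr, add_sub_cancel_left]
  refine dvd_sub (dvd_mul_right _ _) (Dvd.dvd.mul_left (dvd_pow_self _ Fintype.card_ne_zero) _)

theorem exists_dp {r : Fin 3 → F} (hr : r ≠ 0) : ∃ η : Fin 3 → F, dp η r = 1 := by
  have h3 : r 0 ≠ 0 ∨ r 1 ≠ 0 ∨ r 2 ≠ 0 := by
    by_contra hcon
    push Not at hcon
    apply hr
    ext i
    fin_cases i
    · exact hcon.1
    · exact hcon.2.1
    · exact hcon.2.2
  unfold dp
  rcases h3 with h3 | h3 | h3
  · refine ⟨![(r 0)⁻¹, 0, 0], ?_⟩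
    simp [h3]
  · refine ⟨![0, (r 1)⁻¹, 0], ?_⟩
    simp [h3]
  · refine ⟨![0, 0, (r 2)⁻¹], ?_⟩
    simp [h3]

/-- The tangent forms of an arc. -/
theorem tangent [Fintype F] {ι : Type*} [Fintype ι] [DecidableEq ι] {v : ι → Fin 3 → F}
    (hv : Arc3 v) (t : ℕ) (hN : Fintype.card ι + t = Fintype.card F + 2)
    (h1 : 1 ≤ Fintype.card ι) :
    ∃ T : ι → MvPolynomial (Fin 3) F, (∀ i, (T i).IsHomogeneous t) ∧
      (∀ (i : ι) (η : Fin 3 → F), dp η (v i) = 1 →
        lin (v i) ∣ Dt (Fintype.card F) η - T i * ∏ j ∈ univ.erase i, lin (v j)) ∧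
      (∀ i j, i ≠ j → eval (cr (v i) (v j)) (T i)
        * ∏ u ∈ (univ.erase i).erase j, d3 (v u) (v i) (v j) = 1) := by
  have hex : ∀ i, ∃ T : MvPolynomial (Fin 3) F, T.IsHomogeneous t ∧ ∀ η : Fin 3 → F, dp η (v i) = 1 →
      lin (v i) ∣ Dt (Fintype.card F) η - T * ∏ j ∈ univ.erase i, lin (v j) := by
    intro i
    obtain ⟨η0, hη0⟩ := exists_dp (hv.ne i)
    have hcard : t + (univ.erase i).card = Fintype.card F + 1 := by
      rw [Finset.card_erase_of_mem (Finset.mem_univ i), Finset.card_univ]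
      omega
    have hG : (Dt (Fintype.card F) η0).IsHomogeneous (t + (univ.erase i).card) := by
      rw [hcard]
      exact Dt_hom _ _
    obtain ⟨T, hT, hd⟩ := van (v i) v (univ.erase i)
      (fun j hj => hv.two i j (Ne.symm (Finset.ne_of_mem_erase hj)))
      (fun j hj k hk hjk => hv.three i j k (Ne.symm (Finset.ne_of_mem_erase hj))
        (Ne.symm (Finset.ne_of_mem_erase hk)) hjk) t (Dt (Fintype.card F) η0) hG (fun j _ => eval_Dt _ _)
    refine ⟨T, hT, fun η hη => ?_⟩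
    have h2 := Dt_dvd (hv.ne i) (hη.trans hη0.symm)
    have h3 := dvd_add h2 hd
    rwa [sub_add_sub_cancel] at h3
  choose T hT hTd using hex
  refine ⟨T, hT, hTd, fun i j hij => ?_⟩
  obtain ⟨w, hw⟩ := exists_basis2 (hv.two i j hij)
  have hη : dp (cr (v j) w) (v i) = 1 := by
    rw [dp_comm, dp_cr_eq, hw]
  have hd := hTd i _ hη
  have hq : 1 < Fintype.card F := Fintype.one_lt_card
  obtain ⟨m, hm⟩ : ∃ m, Fintype.card F = m + 2 := ⟨Fintype.card F - 2, by omega⟩
  have hfac : Dt (Fintype.card F) (cr (v j) w) - T i * ∏ j ∈ univ.erase i, lin (v j) =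
      lin (v j) * ((lin w ^ Fintype.card F - lin w * lin (v j) ^ (m + 1)) -
        T i * ∏ u ∈ (univ.erase i).erase j, lin (v u)) := by
    rw [Dt_cr, ← Finset.mul_prod_erase (univ.erase i) (fun u => lin (v u))
      (Finset.mem_erase.2 ⟨Ne.symm hij, Finset.mem_univ j⟩)]
    have h5 : lin (v j) ^ Fintype.card F = lin (v j) * lin (v j) ^ (m + 1) := by
      rw [hm]
      ring
    rw [h5]
    ring
  rw [hfac] at hd
  have hd2 := ((lin_prime (hv.ne i)).dvd_or_dvd hd).resolve_left (lin_not_dvd (hv.two i j hij))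
  have he := eval_eq_of_dvd hd2 (dp_cr_left (v i) (v j))
  rw [map_sub, map_mul, map_mul, map_pow, map_pow, map_prod, eval_lin, eval_lin, dp_cr_right, dp_cr_eq,
    ← d3_cyc (v j) w (v i), ← d3_cyc (v i) (v j) w, hw, one_pow, one_mul, zero_pow (Nat.succ_ne_zero m), sub_zero] at he
  rw [he]
  congr 1
  refine Finset.prod_congr rfl (fun u _ => ?_)
  rw [eval_lin, dp_cr_eq]

end MDE
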