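import Pool.Agent.MDE.CSS
import Pool.Agent.MDE.CSB
import Pool.Agent.MDS.GAL

/-!
# MDE.TOP: no arcs of size `q + 2`

Assembled from the stubs.
-/

set_option autoImplicit false

namespace MDE

open MvPolynomial Finset

variable {F : Type*} [Field F]

theorem no_arc_low [Fintype F] [CharP F 2] {V ι : Type*} [AddCommGroup V] [Module F V]
    [FiniteDimensional F V] [Fintype ι] {v : ι → V} {k e m : ℕ} (hm : m = 2 ^ e)
    (hq : Fintype.card F = 2 * m) (hk : Module.finrank F V = k) (hk4 : 4 ≤ k)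
    (hkm : k ≤ m + 2) (hN : Fintype.card ι = 2 * m + 2) : ¬ MDS.IsArc (F := F) v k := by
  classical
  intro hv
  have hm2 : 2 ≤ m := by omega
  obtain ⟨t, rfl⟩ : ∃ t, k = t + 3 := ⟨k - 3, by omega⟩
  obtain ⟨B, -, hB⟩ := Finset.exists_subset_card_eq
    (s := (Finset.univ : Finset ι)) (n := t) (by rw [Finset.card_univ, hN]; omega)
  obtain ⟨g, hg, h0⟩ := exists_ann (v := v) hk B 3 (by omega)
  have h1 := CS_big hm hq hm2 hk hv (t := t) (by omega) (by omega) B (by omega) (by omega) g hg h0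
  have hw := proj_arc hk hv B (by omega) g hg h0
  have hc : Fintype.card {x : ι // x ∉ B} + t = 2 * m + 2 := by
    have : Fintype.card {x : ι // x ∉ B} = Fintype.card ι - B.card := by
      rw [Fintype.card_subtype_compl, Fintype.card_coe]
    rw [this, hN, hB]
    omega
  have h2 := CS_small hw hm hq hm2 hc (by omega) (by omega)
  omega

/-- No arc of `q + 2` vectors, `q` even, `4 ≤ k ≤ q - 2`. -/
theorem no_arc_even [Fintype F] [CharP F 2] {k : ℕ} (hk4 : 4 ≤ k)
    (hk : k + 2 ≤ Fintype.card F) (v : Fin (Fintype.card F + 2) → (Fin k → F)) :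
    ¬ MDS.IsArc (F := F) v k := by
  classical
  intro hv
  obtain ⟨n, hn⟩ := FiniteField.card F 2
  obtain ⟨e, he⟩ : ∃ e, (n : ℕ) = e + 1 := ⟨(n : ℕ) - 1, by have := n.pos; omega⟩
  have hq : Fintype.card F = 2 * 2 ^ e := by
    rw [hn.2, he, pow_succ]
    ring
  by_cases h : k ≤ 2 ^ e + 2
  · exact no_arc_low (e := e) (m := 2 ^ e) rfl hq (by simp) hk4 h
      (by rw [Fintype.card_fin, hq]) hv
  · obtain ⟨v', hv'⟩ := MDS.arc_dual (by omega) v hv
    exact no_arc_low (e := e) (m := 2 ^ e) rfl hq (by simp) (by omega) (by omega)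
      (by rw [Fintype.card_fin, hq]) hv'

end MDE
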