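import Pool.Agent.MDE.SPL

/-!
# MDE.VNN: forms vanishing at nodes of a line

Induction on the finite set `E`. `van`: for `E = ∅` take `Q = G`. For `E = insert j E'`: `G` has
degree `(d + #E') + 1` and vanishes at `cr r (s j)`, so (SPL.split) `G = lin r * G1 + lin (s j) * G2`;
at the node `cr r (s i)`, `i ∈ E'`, `0 = dp (s j) (cr r (s i)) * eval G2` and
`dp (s j) (cr r (s i)) = d3 (s j) r (s i) = d3 r (s i) (s j) ≠ 0`, so `G2` vanishes there and the
induction hypothesis applies to `G2` (degree `d + #E'`).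
`van_lt`: `G` of degree `d < #E`: choose a subset `E'` of `E` with `d` elements (`Finset.exists_subset_card_eq`
or so) and `j ∈ E \ E'`; by `van` with `d := 0` and `E'`: `lin r ∣ G - Q * ∏`, `Q` of degree `0`, a
constant; evaluating at the node of `j` gives `Q = 0` (SPL.hom_zero_eval), so `lin r ∣ G`.
-/

set_option autoImplicit false

namespace MDE

open MvPolynomial

variable {F : Type*} [Field F]

private theorem VNN_eval_lin (v l : Fin 3 → F) : eval l (lin v) = dp v l := by
  simp [lin, dp]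

private theorem VNN_dp_self (r s : Fin 3 → F) : dp r (cr r s) = 0 := by
  simp [dp, cr]; ring

private theorem VNN_dp (r s t : Fin 3 → F) : dp t (cr r s) = d3 r s t := by
  simp [d3, dp, cr]; ring

private theorem VNN_dvd_eval {r s : Fin 3 → F} {G : MvPolynomial (Fin 3) F} (h : lin r ∣ G) :
    eval (cr r s) G = 0 := by
  obtain ⟨H, rfl⟩ := h
  rw [map_mul, VNN_eval_lin, VNN_dp_self, zero_mul]

theorem van {κ : Type*} [DecidableEq κ] (r : Fin 3 → F) (s : κ → Fin 3 → F) (E : Finset κ)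
    (h2 : ∀ i ∈ E, cr r (s i) ≠ 0) (h3 : ∀ i ∈ E, ∀ j ∈ E, i ≠ j → d3 r (s i) (s j) ≠ 0)
    (d : ℕ) (G : MvPolynomial (Fin 3) F) (hG : G.IsHomogeneous (d + E.card))
    (h0 : ∀ i ∈ E, eval (cr r (s i)) G = 0) :
    ∃ Q : MvPolynomial (Fin 3) F, Q.IsHomogeneous d ∧
      lin r ∣ G - Q * ∏ i ∈ E, lin (s i) := by
  induction E using Finset.induction_on generalizing d G with
  | empty => exact ⟨G, by simpa using hG, by simp⟩
  | insert j E' hj ih =>
    have hG' : G.IsHomogeneous ((d + E'.card) + 1) := by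
      rw [Finset.card_insert_of_notMem hj] at hG
      simpa [add_assoc] using hG
    obtain ⟨G1, G2, _, hG2, hGe⟩ := split (h2 j (Finset.mem_insert_self _ _)) hG'
      (h0 j (Finset.mem_insert_self _ _))
    obtain ⟨Q, hQ, hdv⟩ := ih (fun i hi => h2 i (Finset.mem_insert_of_mem hi))
      (fun i hi k hk => h3 i (Finset.mem_insert_of_mem hi) k (Finset.mem_insert_of_mem hk)) d G2 hG2
      (fun i hi => by
        have h := h0 i (Finset.mem_insert_of_mem hi)
        rw [hGe, map_add, map_mul, map_mul, VNN_eval_lin, VNN_eval_lin, VNN_dp_self, zero_mul,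
          zero_add, VNN_dp] at h
        rcases mul_eq_zero.1 h with h' | h'
        · refine absurd h' (h3 i (Finset.mem_insert_of_mem hi) j (Finset.mem_insert_self _ _) ?_)
          rintro rfl
          exact hj hi
        · exact h')
    refine ⟨Q, hQ, ?_⟩
    rw [Finset.prod_insert hj]
    have he : G - Q * (lin (s j) * ∏ i ∈ E', lin (s i)) =
        lin r * G1 + lin (s j) * (G2 - Q * ∏ i ∈ E', lin (s i)) := by
      rw [hGe]; ring
    rw [he]
    exact dvd_add (dvd_mul_right _ _) (hdv.mul_left _)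

theorem van_lt {κ : Type*} [DecidableEq κ] (r : Fin 3 → F) (s : κ → Fin 3 → F) (E : Finset κ)
    (h2 : ∀ i ∈ E, cr r (s i) ≠ 0) (h3 : ∀ i ∈ E, ∀ j ∈ E, i ≠ j → d3 r (s i) (s j) ≠ 0)
    (d : ℕ) (hd : d < E.card) (G : MvPolynomial (Fin 3) F) (hG : G.IsHomogeneous d)
    (h0 : ∀ i ∈ E, eval (cr r (s i)) G = 0) : lin r ∣ G := by
  obtain ⟨E', hE', hc⟩ := Finset.exists_subset_card_eq hd.le
  obtain ⟨j, hj, hj'⟩ : ∃ j ∈ E, j ∉ E' := by
    by_contra hcon
    push Not at hcon
    have := Finset.card_le_card (show E ⊆ E' from fun x hx => hcon x hx)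
    omega
  obtain ⟨Q, hQ, hdv⟩ := van r s E' (fun i hi => h2 i (hE' hi))
    (fun i hi k hk => h3 i (hE' hi) k (hE' hk)) 0 G (by rw [zero_add, hc]; exact hG)
    (fun i hi => h0 i (hE' hi))
  have h1 := VNN_dvd_eval (s := s j) hdv
  rw [map_sub, h0 j hj, zero_sub, neg_eq_zero, map_mul, map_prod] at h1
  have hQ0 : Q = 0 := by
    rcases mul_eq_zero.1 h1 with h' | h'
    · exact hom_zero_eval hQ h'
    · exfalso
      obtain ⟨i, hi, h''⟩ := Finset.prod_eq_zero_iff.1 h'
      rw [VNN_eval_lin, VNN_dp] at h''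
      refine h3 j hj i (hE' hi) ?_ h''
      rintro rfl
      exact hj' hi
  rw [hQ0, zero_mul, sub_zero] at hdv
  exact hdv

end MDE
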